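import Pool.Agent.H559.GP.Pr

set_option autoImplicit false

/-! # The second moment of the number of the sets which are killed entirely -/

open Finset MeasureTheory ProbabilityTheory
open Pool.Agent.T2H32.BF (Model prob cnt cheb)
open Pool.Agent.H559.HY (Ev Ev_insert Ev_meas surv)

namespace Pool.Agent.H559.GP

variable {Ω : Type*} [MeasurableSpace Ω] {P : Measure Ω} {a : ℕ → Ω → ℕ} {kl : ℕ → ℕ → Finset ℕ}

theorem sum_sq_inv_le (T N : ℕ) (hT : 0 < T) (L : Finset ℕ) (hL : L ⊆ Ioc T N) : ∑ p ∈ L, 1 / (p : ℝ) ^ 2 ≤ 1 / (T : ℝ) := by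
  rcases L.eq_empty_or_nonempty with rfl | ⟨q, hq⟩
  · simp
  have hTN : T ≤ N := by
    have := mem_Ioc.1 (hL hq)
    omega
  calc ∑ p ∈ L, 1 / (p : ℝ) ^ 2 ≤ ∑ p ∈ Ioc T N, 1 / (p : ℝ) ^ 2 :=
        sum_le_sum_of_subset_of_nonneg hL fun p _ _ => by positivity
    _ = ∑ p ∈ Ioc T N, ((p : ℝ) ^ 2)⁻¹ := sum_congr rfl fun p _ => one_div _
    _ ≤ (T : ℝ)⁻¹ - (N : ℝ)⁻¹ := sum_Ioc_inv_sq_le_sub hT.ne' hTN
    _ ≤ 1 / T := by
        rw [one_div]
        have : (0 : ℝ) ≤ (N : ℝ)⁻¹ := by positivity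
        linarith

/-- removing few factors -/
theorem Gf_drop (L Lb : Finset ℕ) (hb : Lb ⊆ L) (n : ℕ) (hk : ∀ p ∈ L, kl p n ⊆ range p) :
    Gf kl L n - ∑ p ∈ Lb, kap kl p n ≤ Gf kl (L \ Lb) n ∧ Gf kl (L \ Lb) n ≤ Gf kl L n := by
  unfold Gf
  rw [← prod_sdiff hb]
  have hf : ∀ p ∈ L, 0 ≤ 1 - kap kl p n ∧ 1 - kap kl p n ≤ 1 := fun p hp => by
    have h1 := kap_le_one kl p n (hk p hp)
    have h2 := kap_nonneg kl p n
    constructor <;> linarith
  set X := ∏ p ∈ L \ Lb, (1 - kap kl p n) with hX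
  set Y := ∏ p ∈ Lb, (1 - kap kl p n) with hY
  have hX0 : 0 ≤ X := prod_nonneg fun p hp => (hf p (mem_sdiff.1 hp).1).1
  have hX1 : X ≤ 1 := prod_le_one (fun p hp => (hf p (mem_sdiff.1 hp).1).1) fun p hp => (hf p (mem_sdiff.1 hp).1).2
  have hY1 : Y ≤ 1 := prod_le_one (fun p hp => (hf p (hb hp)).1) fun p hp => (hf p (hb hp)).2
  have hY2 : 1 - ∑ p ∈ Lb, kap kl p n ≤ Y := by
    rw [hY]
    have hgen : ∀ S ⊆ Lb, 1 - ∑ p ∈ S, kap kl p n ≤ ∏ p ∈ S, (1 - kap kl p n) := by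
      intro S
      induction S using Finset.induction_on with
      | empty => intro _; simp
      | insert q S hq ih =>
        intro hS
        have ih' := ih ((subset_insert _ _).trans hS)
        rw [sum_insert hq, prod_insert hq]
        have h1 := hf q (hb (hS (mem_insert_self _ _)))
        have h2 := kap_nonneg kl q n
        have h3 : 0 ≤ ∑ p ∈ S, kap kl p n := sum_nonneg fun p _ => kap_nonneg kl p n
        have h4 := mul_le_mul_of_nonneg_left ih' h1.1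
        nlinarith
    exact hgen Lb (Subset.refl _)
  constructor
  · have : X * (1 - Y) ≤ 1 * (∑ p ∈ Lb, kap kl p n) := mul_le_mul hX1 (by linarith) (by linarith) zero_le_one
    nlinarith
  · nlinarith

/-- the data of the comparison -/
structure Dat (kl : ℕ → ℕ → Finset ℕ) (L : Finset ℕ) (T N k M β K0 : ℕ) (γ : ℝ) (B : Finset ℕ) : Prop where
  prime : ∀ p ∈ L, p.Prime
  sub : L ⊆ Ioc T N
  rng : ∀ p ∈ L, ∀ n ∈ B, kl p n ⊆ range p
  card : ∀ p ∈ L, ∀ n ∈ B, (kl p n).card ≤ k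
  bad : ∀ Lb ⊆ L, (∀ p ∈ Lb, ¬ Gp kl p B) → Lb.card ≤ β
  fib : ∀ p ∈ L, ∀ r, (B.filter (fun n => r ∈ kl p n)).card ≤ K0
  low : ∀ n ∈ B, γ ≤ Gf kl L n

theorem Dat.mono {L : Finset ℕ} {T N k M β K0 : ℕ} {γ : ℝ} {B B' : Finset ℕ} (h : Dat kl L T N k M β K0 γ B)
    (hB : B' ⊆ B) : Dat kl L T N k M β K0 γ B' where
  prime := h.prime
  sub := h.sub
  rng := fun p hp n hn => h.rng p hp n (hB hn)
  card := fun p hp n hn => h.card p hp n (hB hn)
  bad := fun Lb h1 h2 => h.bad Lb h1 fun p hp hg => h2 p hp (Gp_mono kl p B B' hB hg)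
  fib := fun p hp r => (card_le_card (filter_subset_filter _ hB)).trans (h.fib p hp r)
  low := fun n hn => h.low n (hB hn)

section
variable {L : Finset ℕ} {T N k M β K0 : ℕ} {γ : ℝ} {B : Finset ℕ}

theorem Dat.kap_le (d : Dat kl L T N k M β K0 γ B) (hT : 0 < T) (p : ℕ) (hp : p ∈ L) (n : ℕ) (hn : n ∈ B) :
    kap kl p n ≤ k / p ∧ kap kl p n ≤ k / T := by
  unfold kap
  have h1 : ((kl p n).card : ℝ) ≤ k := by exact_mod_cast d.card p hp n hn
  have h2 := mem_Ioc.1 (d.sub hp)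
  have h3 : (T : ℝ) ≤ p := by exact_mod_cast h2.1.le
  have h4 : (0 : ℝ) < T := by exact_mod_cast hT
  have h5 : (0 : ℝ) < p := h4.trans_le h3
  constructor
  · gcongr
  · calc ((kl p n).card : ℝ) / p ≤ k / p := by gcongr
      _ ≤ k / T := by gcongr

open Classical in
theorem Dat.good (d : Dat kl L T N k M β K0 γ B) (hT : 0 < T) (n : ℕ) (hn : n ∈ B) :
    Gf kl L n - k * β / T ≤ Gf kl (L \ L.filter (fun p => ¬ Gp kl p B)) n ∧
      Gf kl (L \ L.filter (fun p => ¬ Gp kl p B)) n ≤ Gf kl L n := by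
  have h1 := Gf_drop (kl := kl) L (L.filter (fun p => ¬ Gp kl p B)) (filter_subset _ _) n fun p hp => d.rng p hp n hn
  refine ⟨le_trans (sub_le_sub_left ?_ _) h1.1, h1.2⟩
  have h2 : ((L.filter (fun p => ¬ Gp kl p B)).card : ℝ) ≤ β := by
    exact_mod_cast d.bad _ (filter_subset _ _) fun p hp => (mem_filter.1 hp).2
  calc ∑ p ∈ L.filter (fun p => ¬ Gp kl p B), kap kl p n ≤ ∑ p ∈ L.filter (fun p => ¬ Gp kl p B), (k : ℝ) / T :=
        sum_le_sum fun p hp => (d.kap_le hT p (mem_filter.1 hp).1 n hn).2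
    _ = ((L.filter (fun p => ¬ Gp kl p B)).card : ℝ) * (k / T) := by rw [sum_const, nsmul_eq_mul]
    _ ≤ β * (k / T) := mul_le_mul_of_nonneg_right h2 (by positivity)
    _ = k * β / T := by ring

/-- the lower bound for one set -/
theorem one_low (h : Model P a) (d : Dat kl L T N k M β K0 γ B) (hT : 0 < T) (hγ : 0 < γ) (hδ : (k : ℝ) * β / T ≤ γ / 2)
    (hM : B.card ≤ M) :
    P0 (Gf kl L) B * (1 - (M * ((k : ℝ) * β / T / γ) + 4 * k ^ 2 * M ^ 2 / (T * γ ^ 2))) ≤ Ph P kl a L B := by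
  classical
  set Lb := L.filter (fun p => ¬ Gp kl p B) with hLb
  set Lg := L \ Lb with hLg
  have hT0 : (0 : ℝ) < T := by exact_mod_cast hT
  have hMR : (B.card : ℝ) ≤ M := by exact_mod_cast hM
  have hgood : ∀ p ∈ Lg, Gp kl p B := by
    intro p hp
    rw [hLg, mem_sdiff, hLb, mem_filter] at hp
    by_contra hcon
    exact hp.2 ⟨hp.1, hcon⟩
  have hsub : Lg ⊆ L := sdiff_subset
  have h1 := Ph_low h Lg B (fun p hp => d.prime p (hsub hp)) (fun p hp => d.rng p (hsub hp)) hgood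
    (fun p => (k : ℝ) / p) (fun p hp n hn => (d.kap_le hT p (hsub hp) n hn).1) B (Subset.refl _)
  have hge : ∀ n ∈ B, γ / 2 ≤ Gf kl Lg n := fun n hn => by
    have := (d.good hT n hn).1
    have := d.low n hn
    linarith
  have h2 := P2_le (Gf kl Lg) B (γ / 2) (by positivity) hge
  have he : ∑ p ∈ Lg, ((k : ℝ) / p) ^ 2 ≤ k ^ 2 / T := by
    have := sum_sq_inv_le T N hT Lg (hsub.trans d.sub)
    calc ∑ p ∈ Lg, ((k : ℝ) / p) ^ 2 = k ^ 2 * ∑ p ∈ Lg, 1 / (p : ℝ) ^ 2 := by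
          rw [mul_sum]
          refine sum_congr rfl fun p _ => ?_
          rw [div_pow]
          ring
      _ ≤ k ^ 2 * (1 / T) := mul_le_mul_of_nonneg_left this (by positivity)
      _ = _ := by ring
  have hP0 : 0 ≤ P0 (Gf kl Lg) B := P0_nonneg _ _ fun n hn => by linarith [hge n hn]
  have hP2 : 0 ≤ P2 (Gf kl Lg) B := P2_nonneg _ _ fun n hn => by linarith [hge n hn]
  have h3 : (∑ p ∈ Lg, ((k : ℝ) / p) ^ 2) * P2 (Gf kl Lg) B ≤ 4 * k ^ 2 * M ^ 2 / (T * γ ^ 2) * P0 (Gf kl Lg) B := by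
    calc (∑ p ∈ Lg, ((k : ℝ) / p) ^ 2) * P2 (Gf kl Lg) B ≤ k ^ 2 / T * ((B.card : ℝ) ^ 2 / (γ / 2) ^ 2 * P0 (Gf kl Lg) B) :=
          mul_le_mul he h2 hP2 (by positivity)
      _ ≤ k ^ 2 / T * ((M : ℝ) ^ 2 / (γ / 2) ^ 2 * P0 (Gf kl Lg) B) := by gcongr
      _ = _ := by
          field_simp
          ring
  set e := 4 * (k : ℝ) ^ 2 * M ^ 2 / (T * γ ^ 2) with hed
  have he0 : 0 ≤ e := by positivity
  set δ : ℝ := (k : ℝ) * β / T with hδd
  have hδ0 : 0 ≤ δ := by positivity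
  have hq : P0 (Gf kl L) B * (1 - M * (δ / γ)) ≤ P0 (Gf kl Lg) B := by
    have h4 : P0 (Gf kl L) B * (1 - δ / γ) ^ B.card ≤ P0 (Gf kl Lg) B := by
      unfold P0
      rw [← prod_const, ← prod_mul_distrib]
      have h5 : 0 ≤ 1 - δ / γ := by
        have : δ / γ ≤ 1 / 2 := by
          rw [div_le_iff₀ hγ]
          linarith
        linarith
      refine prod_le_prod (fun n hn => mul_nonneg (hγ.le.trans (d.low n hn)) h5) fun n hn => ?_
      have h6 := (d.good hT n hn).1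
      have h7 := d.low n hn
      have h8 : δ ≤ Gf kl L n * (δ / γ) := by
        rw [mul_div_assoc', le_div_iff₀ hγ]
        nlinarith
      calc Gf kl L n * (1 - δ / γ) = Gf kl L n - Gf kl L n * (δ / γ) := by ring
        _ ≤ Gf kl L n - δ := by linarith
        _ ≤ _ := h6
    have h9 : 1 - M * (δ / γ) ≤ (1 - δ / γ) ^ B.card := by
      have h10 := one_add_mul_le_pow (a := -(δ / γ)) (by
        have : δ / γ ≤ 1 / 2 := by
          rw [div_le_iff₀ hγ]
          linarith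
        linarith) B.card
      have h11 : (B.card : ℝ) * (δ / γ) ≤ M * (δ / γ) := mul_le_mul_of_nonneg_right hMR (by positivity)
      have h12 : (1 : ℝ) + -(δ / γ) = 1 - δ / γ := by ring
      rw [h12] at h10
      linarith
    exact (mul_le_mul_of_nonneg_left h9 (P0_nonneg _ _ fun n hn => hγ.le.trans (d.low n hn))).trans h4
  have hmono : Ph P kl a Lg B ≤ Ph P kl a L B := Ph_mono h Lg L B hsub
  have hQ0 : 0 ≤ P0 (Gf kl L) B := P0_nonneg _ _ fun n hn => hγ.le.trans (d.low n hn)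
  by_cases he1 : 1 < e
  · refine le_trans ?_ (Ph_nonneg L B)
    have h13 : 0 ≤ M * (δ / γ) := by positivity
    exact mul_nonpos_of_nonneg_of_nonpos hQ0 (by linarith)
  · rw [not_lt] at he1
    have h14 : P0 (Gf kl L) B * (1 - M * (δ / γ)) * (1 - e) ≤ P0 (Gf kl Lg) B * (1 - e) :=
      mul_le_mul_of_nonneg_right hq (by linarith)
    have h15 : 0 ≤ P0 (Gf kl L) B * (M * (δ / γ) * e) := mul_nonneg hQ0 (by positivity)
    have h16 : P0 (Gf kl L) B * (1 - (M * (δ / γ) + e)) ≤ P0 (Gf kl L) B * (1 - M * (δ / γ)) * (1 - e) := by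
      nlinarith
    linarith

/-- the upper bound for one set -/
theorem one_up (h : Model P a) (d : Dat kl L T N k M β K0 γ B) (hT : 0 < T) (hγ : 0 < γ) (hγ1 : γ ≤ 1)
    (hδ : (k : ℝ) * β / T ≤ γ / 2) (hM : B.card ≤ 2 * M) :
    Ph P kl a L B ≤ P0 (Gf kl L) B * Real.exp (β * (2 * M * k * (2 / γ) ^ K0) / T) := by
  classical
  set Lb := L.filter (fun p => ¬ Gp kl p B) with hLb
  set Lg := L \ Lb with hLg
  have hT0 : (0 : ℝ) < T := by exact_mod_cast hT
  have hgood : ∀ p ∈ Lg, Gp kl p B := by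
    intro p hp
    rw [hLg, mem_sdiff, hLb, mem_filter] at hp
    by_contra hcon
    exact hp.2 ⟨hp.1, hcon⟩
  have hsub : Lg ⊆ L := sdiff_subset
  have hsubb : Lb ⊆ L := filter_subset _ _
  have hge : ∀ n ∈ B, γ / 2 ≤ Gf kl Lg n := fun n hn => by
    have := (d.good hT n hn).1
    have := d.low n hn
    linarith
  have hun : Lb ∪ Lg = L := by
    rw [hLg, union_sdiff_of_subset hsubb]
  have h1 := Ph_bad h Lg Lb B (fun p hp => d.prime p (hsub hp)) (fun p hp => d.rng p (hsub hp)) hgood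
    (fun p hp => d.prime p (hsubb hp)) disjoint_sdiff (γ / 2) (by positivity) (by linarith) hge K0
    (fun p hp r => d.fib p (hsubb hp) r) (2 * M * k) (by positivity) (by
      intro p hp
      have h2 : (range p).filter (fun r => ∃ n ∈ B, r ∈ kl p n) ⊆ B.biUnion (fun n => kl p n) := by
        intro r hr
        rw [mem_filter] at hr
        rw [mem_biUnion]
        exact hr.2
      have h3 : (B.biUnion (fun n => kl p n)).card ≤ B.card * k := by
        refine card_biUnion_le_card_mul _ _ _ fun n hn => d.card p (hsubb hp) n hn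
      have h4 := (card_le_card h2).trans (h3.trans (Nat.mul_le_mul_right k hM))
      exact_mod_cast h4) B (Subset.refl _)
  rw [hun] at h1
  refine h1.trans ?_
  have hb : (Lb.card : ℝ) ≤ β := by exact_mod_cast d.bad _ (filter_subset _ _) fun p hp => (mem_filter.1 hp).2
  have hc0 : (0 : ℝ) ≤ 2 * M * k * (1 / (γ / 2) ^ K0) := by positivity
  have h5 : ∏ p ∈ Lb, (1 + 2 * M * k * (1 / (γ / 2) ^ K0) / (p : ℝ)) ≤ Real.exp (β * (2 * M * k * (2 / γ) ^ K0) / T) := by
    calc ∏ p ∈ Lb, (1 + 2 * M * k * (1 / (γ / 2) ^ K0) / (p : ℝ)) ≤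
          ∏ _p ∈ Lb, Real.exp (2 * M * k * (1 / (γ / 2) ^ K0) / T) := by
          refine prod_le_prod (fun p _ => by positivity) fun p hp => ?_
          have h6 := mem_Ioc.1 (d.sub (hsubb hp))
          have h7 : (T : ℝ) ≤ p := by exact_mod_cast h6.1.le
          have h8 : 2 * M * k * (1 / (γ / 2) ^ K0) / (p : ℝ) ≤ 2 * M * k * (1 / (γ / 2) ^ K0) / T := by gcongr
          have h9 := Real.add_one_le_exp (2 * M * k * (1 / (γ / 2) ^ K0) / (T : ℝ))
          linarith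
      _ = Real.exp (Lb.card * (2 * M * k * (1 / (γ / 2) ^ K0) / T)) := by
          rw [prod_const, ← Real.exp_nat_mul]
      _ ≤ _ := by
          refine Real.exp_le_exp.2 ?_
          have e : (1 : ℝ) / (γ / 2) ^ K0 = (2 / γ) ^ K0 := by
            rw [div_pow, div_pow]
            field_simp
          rw [e, mul_div_assoc']
          have h10 : (0 : ℝ) ≤ 2 * M * k * (2 / γ) ^ K0 := by positivity
          have h11 := mul_le_mul_of_nonneg_right hb h10
          gcongr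
  have h6 : P0 (Gf kl Lg) B ≤ P0 (Gf kl L) B := by
    unfold P0
    exact prod_le_prod (fun n hn => by linarith [hge n hn]) fun n hn => (d.good hT n hn).2
  exact mul_le_mul h6 h5 (prod_nonneg fun p _ => by positivity) (P0_nonneg _ _ fun n hn => hγ.le.trans (d.low n hn))

end

theorem Ev_inter (L A B : Finset ℕ) : Ev kl a L A 0 ∩ Ev kl a L B 0 = Ev kl a L (A ∪ B) 0 := by
  classical
  ext ω
  simp only [Ev, surv, Set.mem_inter_iff, Set.mem_ofPred_eq, card_eq_zero, filter_eq_empty_iff, mem_union]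
  constructor
  · rintro ⟨h1, h2⟩ v (hv | hv)
    · exact h1 hv
    · exact h2 hv
  · intro h
    exact ⟨fun v hv => h (Or.inl hv), fun v hv => h (Or.inr hv)⟩

/-- **The second moment.** -/
theorem second (h : Model P a) {ι : Type*} (I : Finset ι) (A : ι → Finset ℕ) (L : Finset ℕ) (T N k M β K0 : ℕ) (γ u v ξ : ℝ)
    (hT : 0 < T) (hγ : 0 < γ) (hγ1 : γ ≤ 1) (hδ : (k : ℝ) * β / T ≤ γ / 2)
    (hA : ∀ i ∈ I, (A i).card ≤ M) (hdis : ∀ i ∈ I, ∀ j ∈ I, i ≠ j → Disjoint (A i) (A j))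
    (hD : ∀ i ∈ I, ∀ j ∈ I, Dat kl L T N k M β K0 γ (A i ∪ A j))
    (hu : β * (2 * M * k * (2 / γ) ^ K0) / T ≤ u)
    (hv : M * ((k : ℝ) * β / T / γ) + 4 * k ^ 2 * M ^ 2 / (T * γ ^ 2) ≤ v) (hv1 : v ≤ 1 / 2)
    (hξ : Real.exp u ≤ (1 + ξ) * (1 - v) ^ 2) (hξ0 : 0 ≤ ξ)
    (S : ℝ) (hS0 : 0 < S) (hS : S ≤ ∑ i ∈ I, P0 (Gf kl L) (A i)) :
    P.real {ω | (cnt I (fun i => Ev kl a L (A i) 0) ω) < S / 4} ≤ 8 / S + 4 * ξ := by
  classical
  have := prob h
  set E : ι → Set Ω := fun i => Ev kl a L (A i) 0 with hE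
  have hEm : ∀ i ∈ I, MeasurableSet (E i) := fun i _ => Ev_meas h kl L (A i) 0
  have hDi : ∀ i ∈ I, Dat kl L T N k M β K0 γ (A i) := fun i hi => by
    have := hD i hi i hi
    rwa [union_self] at this
  have hq0 : ∀ i ∈ I, 0 ≤ P0 (Gf kl L) (A i) := fun i hi => P0_nonneg _ _ fun n hn => hγ.le.trans ((hDi i hi).low n hn)
  have hlow : ∀ i ∈ I, (1 - v) * P0 (Gf kl L) (A i) ≤ P.real (E i) := by
    intro i hi
    have h1 := one_low h (hDi i hi) hT hγ hδ (hA i hi)
    refine le_trans ?_ h1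
    rw [mul_comm]
    exact mul_le_mul_of_nonneg_left (by linarith) (hq0 i hi)
  have hpair : ∀ i ∈ I, ∀ j ∈ I, i ≠ j → P.real (E i ∩ E j) ≤ (1 + ξ) * (P.real (E i) * P.real (E j)) := by
    intro i hi j hj hij
    have h1 := one_up h (hD i hi j hj) hT hγ hγ1 hδ (by
      have := card_union_le (A i) (A j)
      have := hA i hi
      have := hA j hj
      omega)
    rw [hE, Ev_inter]
    unfold Ph at h1
    refine h1.trans ?_
    have h2 : P0 (Gf kl L) (A i ∪ A j) = P0 (Gf kl L) (A i) * P0 (Gf kl L) (A j) := by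
      unfold P0
      exact prod_union (hdis i hi j hj hij)
    rw [h2]
    have h3 : Real.exp (β * (2 * M * k * (2 / γ) ^ K0) / T) ≤ (1 + ξ) * (1 - v) ^ 2 := (Real.exp_le_exp.2 hu).trans hξ
    have h4 := hlow i hi
    have h5 := hlow j hj
    have h6 := hq0 i hi
    have h7 := hq0 j hj
    have hv0 : 0 ≤ 1 - v := by linarith
    calc P0 (Gf kl L) (A i) * P0 (Gf kl L) (A j) * Real.exp (β * (2 * M * k * (2 / γ) ^ K0) / T)
        ≤ P0 (Gf kl L) (A i) * P0 (Gf kl L) (A j) * ((1 + ξ) * (1 - v) ^ 2) :=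
          mul_le_mul_of_nonneg_left h3 (mul_nonneg h6 h7)
      _ = (1 + ξ) * (((1 - v) * P0 (Gf kl L) (A i)) * ((1 - v) * P0 (Gf kl L) (A j))) := by ring
      _ ≤ (1 + ξ) * (P.real (E i) * P.real (E j)) := by
          refine mul_le_mul_of_nonneg_left ?_ (by linarith)
          exact mul_le_mul h4 h5 (mul_nonneg hv0 h7) measureReal_nonneg
  set Sp := ∑ i ∈ I, P.real (E i) with hSp
  have hSp0 : S / 2 ≤ Sp := by
    have h1 := sum_le_sum hlow
    rw [← mul_sum] at h1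
    have h2 : (1 - v) * S ≤ (1 - v) * ∑ i ∈ I, P0 (Gf kl L) (A i) := mul_le_mul_of_nonneg_left hS (by linarith)
    have h3 : S / 2 ≤ (1 - v) * S := by nlinarith
    linarith
  have hSpp : 0 < Sp := by linarith
  have hc := cheb (P := P) I E hEm (Sp / 2) (by linarith)
  have hss : ∑ i ∈ I, ∑ j ∈ I, P.real (E i ∩ E j) ≤ (1 + ξ) * Sp ^ 2 + Sp := by
    have h1 : ∀ i ∈ I, ∑ j ∈ I, P.real (E i ∩ E j) ≤ (1 + ξ) * (P.real (E i) * Sp) + P.real (E i) := by
      intro i hi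
      calc ∑ j ∈ I, P.real (E i ∩ E j) ≤ ∑ j ∈ I, ((1 + ξ) * (P.real (E i) * P.real (E j)) + if i = j then P.real (E i) else 0) := by
            refine sum_le_sum fun j hj => ?_
            by_cases hij : i = j
            · subst hij
              rw [if_pos rfl, Set.inter_self]
              have : 0 ≤ (1 + ξ) * (P.real (E i) * P.real (E i)) :=
                mul_nonneg (by linarith) (mul_nonneg measureReal_nonneg measureReal_nonneg)
              linarith
            · rw [if_neg hij, add_zero]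
              exact hpair i hi j hj hij
        _ = (1 + ξ) * (P.real (E i) * Sp) + P.real (E i) := by
            rw [sum_add_distrib, sum_ite_eq, if_pos hi, hSp, mul_sum, mul_sum]
    calc ∑ i ∈ I, ∑ j ∈ I, P.real (E i ∩ E j) ≤ ∑ i ∈ I, ((1 + ξ) * (P.real (E i) * Sp) + P.real (E i)) := sum_le_sum h1
      _ = (1 + ξ) * Sp ^ 2 + Sp := by
          rw [sum_add_distrib, ← mul_sum, ← sum_mul, ← hSp]
          ring
  calc P.real {ω | cnt I E ω < S / 4} ≤ P.real {ω | Sp / 2 ≤ |cnt I E ω - Sp|} := by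
        refine measureReal_mono ?_
        intro ω hω
        rw [Set.mem_ofPred_eq] at *
        rw [le_abs]
        right
        linarith
    _ ≤ _ := hc
    _ ≤ (ξ * Sp ^ 2 + Sp) / (Sp / 2) ^ 2 := by
        gcongr
        linarith
    _ = 4 * ξ + 4 / Sp := by
        field_simp
        ring
    _ ≤ 8 / S + 4 * ξ := by
        have : 4 / Sp ≤ 8 / S := by
          rw [div_le_div_iff₀ hSpp hS0]
          linarith
        linarith

end Pool.Agent.H559.GP
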