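import Pool.Agent.H559.GP.MainP

set_option autoImplicit false

/-! # The number of the survivors, almost surely -/

open Finset MeasureTheory ProbabilityTheory Filter Topology Polynomial
open Pool.Agent.T2H32.BF (Model prob V V_pos V_anti V_ratio mertens)
open Pool.Agent.H559.BS (Limit TT TT_le TT_ge TT_top log_TT V_TT log_pow_le log_top g g_pos)
open Pool.Agent.H559.HY (Arr evl cls arr evl_arr Sg Om base base_sub box mem_box Cut not_mem_rts pos fam fam_le fam_deg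
  fam_ne CF CF_eq CF_conv good_arr pow_top log_TT_lim div_lim log_lin growth)
open Pool.Agent.H559.PV (Gd Row GP_comp sys_of not_shift comp_inj)

namespace Pool.Agent.H559.GP

variable {Ω : Type*} [MeasurableSpace Ω] {P : Measure Ω} {a : ℕ → Ω → ℕ}

theorem W_top (W : ℕ → ℕ) (hW : Cut W) (η : ℝ) (hη : 0 < η) : Tendsto (fun x => W (TT η x)) atTop atTop := by
  have hWt : Tendsto (fun n : ℕ => (W n : ℝ)) atTop atTop := by
    refine tendsto_atTop_mono' atTop ?_ hW.top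
    filter_upwards [log_top.eventually_ge_atTop 1] with x hx
    exact div_le_self (Nat.cast_nonneg _) hx
  exact (tendsto_natCast_atTop_iff.1 hWt).comp (TT_top η hη)

/-- the upper bound for the system itself -/
theorem levs (h : Model P a) (z W : ℕ → ℕ) (hz : Limit z) (hW : Cut W) (F : Finset ℤ[X])
    (hF : ∀ f ∈ F, Pool.Agent.H559.PV.GP f) (A : ℕ) (hA : 1 ≤ A) (S : ℝ) (hS : Tendsto (CF F) atTop (𝓝 S)) (hS0 : 0 < S)
    (η : ℝ) (hη : 0 < η) (hη1 : η ≤ 1) (J : ℕ) (hJ : 1 ≤ J) :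
    ∀ᶠ δ in 𝓝[>] (0 : ℝ), ∀ᵐ ω ∂P, ∀ᶠ x : ℕ in atTop, ∀ k0 : ℕ,
      ((base (aF F) (W (TT (1 / 4) x)) (W (x ^ A)) true (TT δ x) k0 (x / J) (fun p => a p ω)).card : ℝ) ≤
        (1 + η) * ((S * (g / δ) ^ F.card) * (((x / J : ℕ) : ℝ) / Real.log x ^ F.card)) := by
  obtain ⟨δ0, h1, h2, h3⟩ := levF h z W hz hW F hF A (F.card + 2) hA (η / 4) (by positivity) (by linarith)
  filter_upwards [Ioc_mem_nhdsGT h1] with δ hδm
  obtain ⟨hδ, hδ0⟩ := hδm
  have hg := g_pos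
  have hJ0 : (0 : ℝ) < J := by exact_mod_cast hJ
  filter_upwards [h3 δ hδ hδ0] with ω hω
  have hSb : 0 < S * (g / δ) ^ F.card := by positivity
  have hl : Tendsto (fun x : ℕ => CF F (W (TT (1 / 4) x)) * (V (TT δ x) * Real.log x) ^ F.card) atTop
      (𝓝 (S * (g / δ) ^ F.card)) := (hS.comp (W_top W hW (1 / 4) (by norm_num))).mul ((V_TT_lim δ hδ).pow _)
  filter_upwards [hω, hl.eventually_lt_const (show S * (g / δ) ^ F.card < (1 + η / 4) * (S * (g / δ) ^ F.card) by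
      nlinarith), log_top.eventually_ge_atTop (max 1 (2 * J / (η / 4 * (S * (g / δ) ^ F.card)))), eventually_ge_atTop (2 * J)]
    with x a1 a2 a3 a4 k0
  have hL1 : 1 ≤ Real.log x := (le_max_left _ _).trans a3
  have hL2 := (le_max_right _ _).trans a3
  set L := Real.log x with hL
  have hL0 : 0 < L := by linarith
  set Sb := S * (g / δ) ^ F.card with hSbd
  have hy := half_div J x hJ a4
  set y : ℝ := ((x / J : ℕ) : ℝ) with hyd
  have hx0 : (0 : ℝ) < x := by exact_mod_cast (by omega : 0 < x)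
  have hy0 : 0 < y := lt_of_lt_of_le (by positivity) hy
  refine (a1 k0 (x / J)).trans ?_
  have e1 : CF F (W (TT (1 / 4) x)) * V (TT δ x) ^ F.card ≤ (1 + η / 4) * Sb / L ^ F.card := by
    rw [le_div_iff₀ (by positivity)]
    rw [mul_pow] at a2
    linarith
  have e2 : (1 + η / 4) * (y * (CF F (W (TT (1 / 4) x)) * V (TT δ x) ^ F.card)) ≤
      (1 + η / 4) * (y * ((1 + η / 4) * Sb / L ^ F.card)) := by gcongr
  have e3 : (x : ℝ) / L ^ (F.card + 2) ≤ η / 4 * (Sb * (y / L ^ F.card)) := by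
    rw [div_le_iff₀ (by positivity)] at hL2
    rw [div_le_iff₀ (by positivity)] at hy
    have h5 : (x : ℝ) ≤ (η / 4 * Sb) * y * L ^ 2 := by
      calc (x : ℝ) ≤ y * (2 * J) := hy
        _ ≤ y * (L * (η / 4 * Sb)) := by gcongr
        _ = (η / 4 * Sb) * y * (L * 1) := by ring
        _ ≤ (η / 4 * Sb) * y * (L * L) := by gcongr
        _ = _ := by ring
    rw [div_le_iff₀ (by positivity), pow_add]
    calc (x : ℝ) ≤ (η / 4 * Sb) * y * L ^ 2 := h5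
      _ = _ := by field_simp
  have h7 : 0 ≤ Sb * (y / L ^ F.card) := by positivity
  calc (1 + η / 4) * (y * (CF F (W (TT (1 / 4) x)) * V (TT δ x) ^ F.card)) + x / L ^ (F.card + 2) ≤
        (1 + η / 4) * (y * ((1 + η / 4) * Sb / L ^ F.card)) + η / 4 * (Sb * (y / L ^ F.card)) := add_le_add e2 e3
    _ = ((1 + η / 4) * (1 + η / 4) + η / 4) * (Sb * (y / L ^ F.card)) := by ring
    _ ≤ (1 + η) * (Sb * (y / L ^ F.card)) := by
        refine mul_le_mul_of_nonneg_right ?_ h7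
        nlinarith

/-- the upper bound for a larger system -/
theorem levt (h : Model P a) (z W : ℕ → ℕ) (hz : Limit z) (hW : Cut W) (G : Finset ℤ[X])
    (hG : ∀ f ∈ G, Pool.Agent.H559.PV.GP f) (A k : ℕ) (hA : 1 ≤ A) (hk : k + 1 ≤ G.card) (J : ℕ) (hJ : 1 ≤ J) :
    ∀ᶠ δ in 𝓝[>] (0 : ℝ), ∃ C2 : ℝ, 0 ≤ C2 ∧ ∀ᵐ ω ∂P, ∀ᶠ x : ℕ in atTop, ∀ k0 : ℕ,
      ((base (aF G) (W (TT (1 / 4) x)) (W (x ^ A)) true (TT δ x) k0 (x / J) (fun p => a p ω)).card : ℝ) ≤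
        C2 * (((x / J : ℕ) : ℝ) / Real.log x ^ (k + 1)) := by
  obtain ⟨δ0, h1, h2, h3⟩ := levF h z W hz hW G hG A (k + 1) hA 1 one_pos le_rfl
  obtain ⟨S, hS⟩ := CF_conv G (sys_of G hG)
  filter_upwards [Ioc_mem_nhdsGT h1] with δ hδm
  obtain ⟨hδ, hδ0⟩ := hδm
  have hg := g_pos
  have hJ0 : (0 : ℝ) < J := by exact_mod_cast hJ
  refine ⟨(1 + 1) * ((|S| + 1) * (2 * (g / δ)) ^ G.card) + 2 * J, by positivity, ?_⟩
  filter_upwards [h3 δ hδ hδ0] with ω hω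
  have hSl := hS.comp (W_top W hW (1 / 4) (by norm_num))
  filter_upwards [hω, hSl.eventually_lt_const (show S < |S| + 1 by linarith [le_abs_self S]),
    (V_TT_lim δ hδ).eventually_lt_const (show g / δ < 2 * (g / δ) by
      have : 0 < g / δ := by positivity
      linarith), log_top.eventually_ge_atTop 1, eventually_ge_atTop (2 * J)]
    with x a1 a2 a3 hL1 a4 k0
  simp only [Function.comp_apply] at a2
  set L := Real.log x with hL
  have hL0 : 0 < L := by linarith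
  have hy := half_div J x hJ a4
  set y : ℝ := ((x / J : ℕ) : ℝ) with hyd
  have hx0 : (0 : ℝ) < x := by exact_mod_cast (by omega : 0 < x)
  have hy0 : 0 < y := lt_of_lt_of_le (by positivity) hy
  refine (a1 k0 (x / J)).trans ?_
  have hV := V_pos (TT δ x)
  have e1 : V (TT δ x) ^ G.card ≤ (2 * (g / δ)) ^ G.card / L ^ (k + 1) := by
    have h4 : V (TT δ x) ≤ 2 * (g / δ) / L := by
      rw [le_div_iff₀ hL0]
      exact a3.le
    calc V (TT δ x) ^ G.card ≤ (2 * (g / δ) / L) ^ G.card := pow_le_pow_left₀ hV.le h4 _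
      _ = (2 * (g / δ)) ^ G.card / L ^ G.card := div_pow _ _ _
      _ ≤ _ := by
          gcongr
  have e2 : CF G (W (TT (1 / 4) x)) * V (TT δ x) ^ G.card ≤ (|S| + 1) * ((2 * (g / δ)) ^ G.card / L ^ (k + 1)) :=
    mul_le_mul a2.le e1 (by positivity) (by positivity)
  have e3 : (x : ℝ) / L ^ (k + 1) ≤ 2 * J * (y / L ^ (k + 1)) := by
    rw [div_le_iff₀ (by positivity)] at hy
    rw [mul_div_assoc']
    gcongr
    linarith
  calc (1 + 1) * (y * (CF G (W (TT (1 / 4) x)) * V (TT δ x) ^ G.card)) + x / L ^ (k + 1) ≤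
        (1 + 1) * (y * ((|S| + 1) * ((2 * (g / δ)) ^ G.card / L ^ (k + 1)))) + 2 * J * (y / L ^ (k + 1)) := by gcongr
    _ = _ := by ring

/-- the upper bound for finitely many larger systems -/
theorem levu (h : Model P a) (z W : ℕ → ℕ) (hz : Limit z) (hW : Cut W) (F : Finset ℤ[X])
    (hF : ∀ f ∈ F, Pool.Agent.H559.PV.GP f) (hne : F.Nonempty) (A : ℕ) (hA : 1 ≤ A) (J : ℕ) (hJ : 1 ≤ J)
    (Q : Finset ℤ) (hQ : ∀ t ∈ Q, t ≠ 0) :
    ∀ᶠ δ in 𝓝[>] (0 : ℝ), ∃ C2 : ℝ, 0 ≤ C2 ∧ ∀ᵐ ω ∂P, ∀ᶠ x : ℕ in atTop, ∀ k0 : ℕ,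
      ((Q.biUnion (fun t => base (aF (sh F t)) (W (TT (1 / 4) x)) (W (x ^ A)) true (TT δ x) k0 (x / J)
        (fun p => a p ω))).card : ℝ) ≤ C2 * (((x / J : ℕ) : ℝ) / Real.log x ^ (F.card + 1)) := by
  have h1 : ∀ᶠ δ in 𝓝[>] (0 : ℝ), ∀ t ∈ Q, ∃ C2 : ℝ, 0 ≤ C2 ∧ ∀ᵐ ω ∂P, ∀ᶠ x : ℕ in atTop, ∀ k0 : ℕ,
      ((base (aF (sh F t)) (W (TT (1 / 4) x)) (W (x ^ A)) true (TT δ x) k0 (x / J) (fun p => a p ω)).card : ℝ) ≤
        C2 * (((x / J : ℕ) : ℝ) / Real.log x ^ (F.card + 1)) :=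
    (eventually_all_finset Q).2 fun t ht => levt h z W hz hW (sh F t) (sh_GP F hF t) A F.card hA
      (sh_card F hF hne t (hQ t ht)) J hJ
  filter_upwards [h1] with δ hδ
  have h2 : ∀ t : ℤ, ∃ C2 : ℝ, 0 ≤ C2 ∧ (t ∈ Q → ∀ᵐ ω ∂P, ∀ᶠ x : ℕ in atTop, ∀ k0 : ℕ,
      ((base (aF (sh F t)) (W (TT (1 / 4) x)) (W (x ^ A)) true (TT δ x) k0 (x / J) (fun p => a p ω)).card : ℝ) ≤
        C2 * (((x / J : ℕ) : ℝ) / Real.log x ^ (F.card + 1))) := by
    intro t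
    by_cases ht : t ∈ Q
    · obtain ⟨C2, a1, a2⟩ := hδ t ht
      exact ⟨C2, a1, fun _ => a2⟩
    · exact ⟨0, le_rfl, fun h => absurd h ht⟩
  choose C2 h3 h4 using h2
  refine ⟨∑ t ∈ Q, C2 t, sum_nonneg fun t _ => h3 t, ?_⟩
  have h5 : ∀ᵐ ω ∂P, ∀ t ∈ Q, ∀ᶠ x : ℕ in atTop, ∀ k0 : ℕ,
      ((base (aF (sh F t)) (W (TT (1 / 4) x)) (W (x ^ A)) true (TT δ x) k0 (x / J) (fun p => a p ω)).card : ℝ) ≤
        C2 t * (((x / J : ℕ) : ℝ) / Real.log x ^ (F.card + 1)) :=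
    (eventually_all_finset Q).2 fun t ht => h4 t ht
  filter_upwards [h5] with ω hω
  filter_upwards [(eventually_all_finset Q).2 hω] with x hx k0
  calc ((Q.biUnion _).card : ℝ) ≤ ∑ t ∈ Q, ((base (aF (sh F t)) (W (TT (1 / 4) x)) (W (x ^ A)) true (TT δ x) k0 (x / J)
        (fun p => a p ω)).card : ℝ) := by
        exact_mod_cast card_biUnion_le
    _ ≤ ∑ t ∈ Q, C2 t * (((x / J : ℕ) : ℝ) / Real.log x ^ (F.card + 1)) := sum_le_sum fun t ht => hx t ht k0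
    _ = _ := by rw [sum_mul]

end Pool.Agent.H559.GP
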