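import Pool.Agent.H559.GP.Kz

set_option autoImplicit false

/-! # The number of the windows without places -/

open Finset MeasureTheory ProbabilityTheory Filter Topology
open Pool.Agent.T2H32.BF (Model prob V V_pos V_anti V_ratio cond)
open Pool.Agent.H559.HY (Arr evl cls surv Ev base base_sub base_dep)
open Pool.Agent.H559.PV (Gd)

namespace Pool.Agent.H559.GP

variable {Ω : Type*} [MeasurableSpace Ω] {P : Measure Ω} {a : ℕ → Ω → ℕ} {k D : ℕ}

/-- special elements: a value is also a value at another element -/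
def spc (C : Arr k D) (U : Finset ℕ) (n : ℕ) : Prop := ∃ n' ∈ U, n' ≠ n ∧ ∃ i i', evl (C i) n = evl (C i') n'

/-- the part in a window -/
def win (U : Finset ℕ) (k0 ℓ i : ℕ) : Finset ℕ := U.filter (fun n => k0 + i * ℓ < n ∧ n ≤ k0 + (i + 1) * ℓ)

theorem win_sub (U : Finset ℕ) (k0 ℓ i : ℕ) : win U k0 ℓ i ⊆ U := filter_subset _ _

theorem win_Ioc (U : Finset ℕ) (k0 ℓ i : ℕ) : win U k0 ℓ i ⊆ Ioc (k0 + i * ℓ) (k0 + i * ℓ + ℓ) := by
  intro n hn
  unfold win at hn
  rw [mem_filter] at hn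
  rw [mem_Ioc]
  have h1 := hn.2
  constructor
  · exact h1.1
  · have : (i + 1) * ℓ = i * ℓ + ℓ := by ring
    omega

theorem win_disj (U : Finset ℕ) (k0 ℓ i j : ℕ) (hij : i ≠ j) : Disjoint (win U k0 ℓ i) (win U k0 ℓ j) := by
  rw [disjoint_left]
  intro n hn hn'
  unfold win at hn hn'
  rw [mem_filter] at hn hn'
  rcases lt_or_gt_of_ne hij with h | h
  · have : (i + 1) * ℓ ≤ j * ℓ := Nat.mul_le_mul_right ℓ h
    omega
  · have : (j + 1) * ℓ ≤ i * ℓ := Nat.mul_le_mul_right ℓ h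
    omega

open Classical in
/-- the windows which are not exceptional -/
noncomputable def Igood (C : Arr k D) (U : Finset ℕ) (k0 ℓ Nw M C1 : ℕ) : Finset ℕ :=
  (range Nw).filter (fun i => (win U k0 ℓ i).card ≤ M ∧ ((win U k0 ℓ i).filter (fun n => spc C U n)).card ≤ C1)

/-- many windows are not exceptional -/
theorem Igood_card (C : Arr k D) (U : Finset ℕ) (k0 ℓ Nw M C1 : ℕ) (ρ : ℝ) 
    (h1 : (U.card : ℝ) ≤ (1 - 3 * ρ) * ((M + 1 : ℕ) * Nw))
    (S : Finset ℕ) (hS : ∀ n ∈ U, spc C U n → n ∈ S) (h2 : (S.card : ℝ) ≤ ρ * ((C1 + 1 : ℕ) * Nw)) :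
    2 * ρ * Nw ≤ (Igood C U k0 ℓ Nw M C1).card := by
  classical
  set B1 := (range Nw).filter (fun i => M + 1 ≤ (win U k0 ℓ i).card) with hB1
  set B2 := (range Nw).filter (fun i => C1 + 1 ≤ ((win U k0 ℓ i).filter (fun n => spc C U n)).card) with hB2
  have e1 : ((M + 1 : ℕ) : ℝ) * B1.card ≤ U.card := by
    have h3 : (M + 1) * B1.card ≤ ∑ i ∈ B1, (win U k0 ℓ i).card := by
      rw [mul_comm, ← smul_eq_mul, ← sum_const]
      exact sum_le_sum fun i hi => (mem_filter.1 hi).2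
    have h4 : ∑ i ∈ B1, (win U k0 ℓ i).card ≤ U.card := by
      rw [← card_biUnion (fun i _ j _ hij => win_disj U k0 ℓ i j hij)]
      exact card_le_card (biUnion_subset.2 fun i _ => win_sub U k0 ℓ i)
    exact_mod_cast h3.trans h4
  have e2 : ((C1 + 1 : ℕ) : ℝ) * B2.card ≤ S.card := by
    have h3 : (C1 + 1) * B2.card ≤ ∑ i ∈ B2, ((win U k0 ℓ i).filter (fun n => spc C U n)).card := by
      rw [mul_comm, ← smul_eq_mul, ← sum_const]
      exact sum_le_sum fun i hi => (mem_filter.1 hi).2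
    have h4 : ∑ i ∈ B2, ((win U k0 ℓ i).filter (fun n => spc C U n)).card ≤ S.card := by
      rw [← card_biUnion (fun i _ j _ hij => (win_disj U k0 ℓ i j hij).mono (filter_subset _ _) (filter_subset _ _))]
      refine card_le_card (biUnion_subset.2 fun i _ n hn => ?_)
      rw [mem_filter] at hn
      exact hS n (win_sub _ _ _ _ hn.1) hn.2
    exact_mod_cast h3.trans h4
  have hM : (0 : ℝ) < ((M + 1 : ℕ) : ℝ) := by positivity
  have hC : (0 : ℝ) < ((C1 + 1 : ℕ) : ℝ) := by positivity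
  have f1 : (B1.card : ℝ) ≤ (1 - 3 * ρ) * Nw := by
    have := e1.trans h1
    have h5 : ((M + 1 : ℕ) : ℝ) * B1.card ≤ ((M + 1 : ℕ) : ℝ) * ((1 - 3 * ρ) * Nw) := by linarith
    exact le_of_mul_le_mul_left h5 hM
  have f2 : (B2.card : ℝ) ≤ ρ * Nw := by
    have := e2.trans h2
    have h5 : ((C1 + 1 : ℕ) : ℝ) * B2.card ≤ ((C1 + 1 : ℕ) : ℝ) * (ρ * Nw) := by linarith
    exact le_of_mul_le_mul_left h5 hC
  have h6 : (range Nw) ⊆ Igood C U k0 ℓ Nw M C1 ∪ (B1 ∪ B2) := by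
    intro i hi
    unfold Igood
    simp only [mem_union, hB1, hB2, mem_filter]
    by_cases g1 : (win U k0 ℓ i).card ≤ M
    · by_cases g2 : ((win U k0 ℓ i).filter (fun n => spc C U n)).card ≤ C1
      · exact Or.inl ⟨hi, g1, g2⟩
      · exact Or.inr (Or.inr ⟨hi, by omega⟩)
    · exact Or.inr (Or.inl ⟨hi, by omega⟩)
  have h7 := (card_le_card h6).trans ((card_union_le _ _).trans (Nat.add_le_add_left (card_union_le _ _) _))
  rw [card_range] at h7
  have h8 : (Nw : ℝ) ≤ (Igood C U k0 ℓ Nw M C1).card + (B1.card + B2.card) := by exact_mod_cast h7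
  linarith

/-- the numerical data of the windows -/
structure Wd (C : Arr k D) (z : ℕ → ℕ) (i0 : Fin k) (T N k0 y ℓ M c0 lo hi : ℕ) (s : ℝ) : Prop where
  T0 : 0 < T
  gd : ∀ p, p.Prime → T < p → Gd C p
  val : ∀ m ∈ Ioc k0 (k0 + y), ∀ i, (lo : ℤ) ≤ evl (C i) m ∧ evl (C i) m ≤ hi
  Tz : T ≤ z lo
  zN : z hi ≤ N
  inj : ∀ m ∈ Ioc k0 (k0 + y), ∀ m' ∈ Ioc k0 (k0 + y), m ≠ m' → evl (C i0) m ≠ evl (C i0) m'
  dif : ∀ m ∈ Ioc k0 (k0 + y), ∀ i i', i ≠ i' → evl (C i) m ≠ evl (C i') m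
  hiT : hi < T ^ (c0 + 1)
  lT : ℓ ≤ T
  s0 : 0 ≤ s
  s1 : s ≤ 1 / 2
  ord : ∀ m ∈ Ioc k0 (k0 + y), Real.exp ((k ^ 3 * c0 + 2 * k) / T) * ((∏ i, V (z (evl (C i) m).toNat)) / V T ^ k) ≤ s
  spe : ∀ m ∈ Ioc k0 (k0 + y), V (z (evl (C i0) m).toNat) / V T ≤ 1 / 2

section
variable {C : Arr k D} {z : ℕ → ℕ} {i0 : Fin k} {T N k0 y ℓ M c0 lo hi : ℕ} {s : ℝ}

theorem Wd.zz (w : Wd C z i0 T N k0 y ℓ M c0 lo hi s) (hz : Monotone z) (m : ℕ) (hm : m ∈ Ioc k0 (k0 + y)) (i : Fin k) :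
    T ≤ z (evl (C i) m).toNat ∧ z (evl (C i) m).toNat ≤ N := by
  obtain ⟨h1, h2⟩ := w.val m hm i
  have h0 : 0 ≤ evl (C i) m := le_trans (Int.natCast_nonneg _) h1
  exact ⟨w.Tz.trans (hz (by omega)), (hz (by omega)).trans w.zN⟩

theorem Wd.natAbs_le (w : Wd C z i0 T N k0 y ℓ M c0 lo hi s) (m m' : ℕ) (hm : m ∈ Ioc k0 (k0 + y))
    (hm' : m' ∈ Ioc k0 (k0 + y)) (i i' : Fin k) : (evl (C i) m - evl (C i') m').natAbs ≤ hi := by
  obtain ⟨h1, h2⟩ := w.val m hm i
  obtain ⟨h3, h4⟩ := w.val m' hm' i'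
  have h0 : (0 : ℤ) ≤ lo := Int.natCast_nonneg _
  omega

/-- the comparison data for two windows -/
theorem Wd.dat (w : Wd C z i0 T N k0 y ℓ M c0 lo hi s) (hz : Monotone z) (U : Finset ℕ) (hU : U ⊆ Ioc k0 (k0 + y))
    (i j : ℕ) (hi' : (win U k0 ℓ i).card ≤ M) (hj' : (win U k0 ℓ j).card ≤ M) :
    Dat (kz C z (spc C U) i0) ((Ioc T N).filter Nat.Prime) T N k M ((2 * M) ^ 2 * k ^ 2 * c0) (4 * (k * D)) (1 / 2)
      (win U k0 ℓ i ∪ win U k0 ℓ j) where
  prime := fun p hp => (mem_filter.1 hp).2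
  sub := filter_subset _ _
  rng := fun p hp n _ => kz_rng C z _ i0 p n (mem_filter.1 hp).2.pos
  card := fun p _ n _ => kz_card C z _ i0 p n
  bad := fun Lb hLb hb => by
    classical
    have hsub : win U k0 ℓ i ∪ win U k0 ℓ j ⊆ U := union_subset (win_sub _ _ _ _) (win_sub _ _ _ _)
    refine kz_bad C z (spc C U) i0 T N c0 hi M w.T0 w.hiT (win U k0 ℓ i ∪ win U k0 ℓ j) (by
      have := card_union_le (win U k0 ℓ i) (win U k0 ℓ j)
      omega) (fun n hn n' hn' hne i1 i2 hs hs' heq => ?_) (fun n hn n' hn' i1 i2 =>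
        w.natAbs_le n n' (hU (hsub hn)) (hU (hsub hn')) i1 i2) Lb hLb hb
    have s1 : spc C U n := ⟨n', hsub hn', fun h => hne h.symm, i1, i2, heq⟩
    have s2 : spc C U n' := ⟨n, hsub hn, hne, i2, i1, heq.symm⟩
    rw [hs s1, hs' s2] at heq
    exact w.inj n (hU (hsub hn)) n' (hU (hsub hn')) hne heq
  fib := fun p hp r => by
    classical
    rw [mem_filter, mem_Ioc] at hp
    have hlp : ℓ ≤ p := w.lT.trans hp.1.1.le
    have h1 := kz_fib C z (spc C U) i0 p r (k0 + i * ℓ) ℓ hp.2 (w.gd p hp.2 hp.1.1) hlp _ (win_Ioc U k0 ℓ i)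
    have h2 := kz_fib C z (spc C U) i0 p r (k0 + j * ℓ) ℓ hp.2 (w.gd p hp.2 hp.1.1) hlp _ (win_Ioc U k0 ℓ j)
    rw [filter_union]
    have := card_union_le ((win U k0 ℓ i).filter (fun n => r ∈ kz C z (spc C U) i0 p n))
      ((win U k0 ℓ j).filter (fun n => r ∈ kz C z (spc C U) i0 p n))
    omega
  low := fun n hn => by
    have hnI : n ∈ Ioc k0 (k0 + y) := hU ((union_subset (win_sub _ _ _ _) (win_sub _ _ _ _)) hn)
    by_cases hs : spc C U n
    · rw [kz_Gs C z (spc C U) i0 T N n hs (w.zz hz n hnI i0).1 (w.zz hz n hnI i0).2]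
      have := w.spe n hnI
      linarith
    · have h1 := kz_Gf C z (spc C U) i0 T N c0 hi w.T0 w.hiT n hs (w.dif n hnI) (fun i1 i2 =>
        w.natAbs_le n n hnI hnI i1 i2) (fun i1 => (w.zz hz n hnI i1).1) (fun i1 => (w.zz hz n hnI i1).2)
      have h2 := w.ord n hnI
      have := w.s1
      linarith

/-- the main term for one window -/
theorem Wd.main (w : Wd C z i0 T N k0 y ℓ M c0 lo hi s) (hz : Monotone z) (U : Finset ℕ) (hU : U ⊆ Ioc k0 (k0 + y))
    (C1 i : ℕ) (hi' : (win U k0 ℓ i).card ≤ M) [DecidablePred (spc C U)]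
    (hs' : ((win U k0 ℓ i).filter (fun n => spc C U n)).card ≤ C1) :
    (1 - s) ^ M * (1 / 2) ^ C1 ≤ P0 (Gf (kz C z (spc C U) i0) ((Ioc T N).filter Nat.Prime)) (win U k0 ℓ i) := by
  set G := Gf (kz C z (spc C U) i0) ((Ioc T N).filter Nat.Prime) with hG
  have hs0 := w.s0
  have hs1 := w.s1
  unfold P0
  rw [← prod_filter_mul_prod_filter_not (win U k0 ℓ i) (fun n => spc C U n) G, mul_comm]
  have e1 : (1 / 2 : ℝ) ^ C1 ≤ ∏ n ∈ (win U k0 ℓ i).filter (fun n => spc C U n), G n := by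
    calc (1 / 2 : ℝ) ^ C1 ≤ (1 / 2 : ℝ) ^ ((win U k0 ℓ i).filter (fun n => spc C U n)).card :=
          pow_le_pow_of_le_one (by norm_num) (by norm_num) hs'
      _ = ∏ _n ∈ (win U k0 ℓ i).filter (fun n => spc C U n), (1 / 2 : ℝ) := by rw [prod_const]
      _ ≤ _ := by
          refine prod_le_prod (fun _ _ => by norm_num) fun n hn => ?_
          rw [mem_filter] at hn
          have hnI := hU (win_sub _ _ _ _ hn.1)
          rw [hG, kz_Gs C z (spc C U) i0 T N n hn.2 (w.zz hz n hnI i0).1 (w.zz hz n hnI i0).2]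
          have := w.spe n hnI
          linarith
  have e2 : (1 - s) ^ M ≤ ∏ n ∈ (win U k0 ℓ i).filter (fun n => ¬ spc C U n), G n := by
    calc (1 - s) ^ M ≤ (1 - s) ^ ((win U k0 ℓ i).filter (fun n => ¬ spc C U n)).card :=
          pow_le_pow_of_le_one (by linarith) (by linarith) ((card_le_card (filter_subset _ _)).trans hi')
      _ = ∏ _n ∈ (win U k0 ℓ i).filter (fun n => ¬ spc C U n), (1 - s) := by rw [prod_const]
      _ ≤ _ := by
          refine prod_le_prod (fun _ _ => by linarith) fun n hn => ?_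
          rw [mem_filter] at hn
          have hnI := hU (win_sub _ _ _ _ hn.1)
          have h1 := kz_Gf C z (spc C U) i0 T N c0 hi w.T0 w.hiT n hn.2 (w.dif n hnI) (fun i1 i2 =>
            w.natAbs_le n n hnI hnI i1 i2) (fun i1 => (w.zz hz n hnI i1).1) (fun i1 => (w.zz hz n hnI i1).2)
          have h2 := w.ord n hnI
          linarith
  exact mul_le_mul e1 e2 (pow_nonneg (by linarith) _) ((pow_nonneg (by norm_num) _).trans e1)

open Classical in
/-- the number of the windows all of whose elements are killed -/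
noncomputable def Em (C : Arr k D) (z : ℕ → ℕ) (i0 : Fin k) (T N k0 ℓ Nw : ℕ) (U : Finset ℕ) (b : ℕ → ℕ) : ℕ :=
  ((range Nw).filter (fun i => ∀ n ∈ win U k0 ℓ i, ∃ p ∈ (Ioc T N).filter Nat.Prime, b p ∈ kz C z (spc C U) i0 p n)).card

/-- **Many empty windows with high probability.** -/
theorem winP (h : Model P a) (w : Wd C z i0 T N k0 y ℓ M c0 lo hi s) (hz : Monotone z) (w1 w2 Nw C1 : ℕ)
    (Gd' : Finset ℕ → Prop) (ρ : ℝ) (hG : ∀ U ⊆ Ioc k0 (k0 + y), Gd' U → 2 * ρ * Nw ≤ (Igood C U k0 ℓ Nw M C1).card)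
    (u v ξ : ℝ) (hδ : (k : ℝ) * ((2 * M) ^ 2 * k ^ 2 * c0 : ℕ) / T ≤ 1 / 4)
    (hu : (((2 * M) ^ 2 * k ^ 2 * c0 : ℕ) : ℝ) * (2 * M * k * 4 ^ (4 * (k * D))) / T ≤ u)
    (hv : M * ((k : ℝ) * ((2 * M) ^ 2 * k ^ 2 * c0 : ℕ) / T * 2) + 16 * k ^ 2 * M ^ 2 / T ≤ v) (hv1 : v ≤ 1 / 2)
    (hξ : Real.exp u ≤ (1 + ξ) * (1 - v) ^ 2) (hξ0 : 0 ≤ ξ) (S : ℝ) (hS0 : 0 < S)
    (hS : S ≤ 2 * ρ * Nw * ((1 - s) ^ M * (1 / 2) ^ C1)) :
    P.real {ω | Gd' (base C w1 w2 true T k0 y (fun p => a p ω)) ∧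
      (Em C z i0 T N k0 ℓ Nw (base C w1 w2 true T k0 y (fun p => a p ω)) (fun p => a p ω) : ℝ) < S / 4} ≤ 8 / S + 4 * ξ := by
  classical
  have := prob h
  set L := (Ioc T N).filter Nat.Prime with hL
  have hη : 0 ≤ 8 / S + 4 * ξ := by positivity
  refine cond h ((range (T + 1)).filter Nat.Prime) L ?_
    (fun b => Gd' (base C w1 w2 true T k0 y b) ∧ (Em C z i0 T N k0 ℓ Nw (base C w1 w2 true T k0 y b) b : ℝ) < S / 4) ?_ _ hη ?_
  · rw [disjoint_left]
    intro p hp hp'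
    rw [mem_filter, mem_range] at hp
    rw [hL, mem_filter, mem_Ioc] at hp'
    omega
  · intro b b' hbb
    have e1 : base C w1 w2 true T k0 y b = base C w1 w2 true T k0 y b' := base_dep C w1 w2 true T k0 y b b' fun p hp hpp =>
      hbb p (mem_union_left _ (mem_filter.2 ⟨mem_range.2 (by omega), hpp⟩))
    have e2 : Em C z i0 T N k0 ℓ Nw (base C w1 w2 true T k0 y b) b = Em C z i0 T N k0 ℓ Nw (base C w1 w2 true T k0 y b') b' := by
      rw [e1]
      unfold Em
      congr 1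
      refine filter_congr fun i _ => forall₂_congr fun n _ => ?_
      refine exists_congr fun p => and_congr_right fun hp => ?_
      rw [hbb p (mem_union_right _ hp)]
    rw [e1] at e2 ⊢
    rw [e2]
  · intro α
    have e1 : ∀ ω, base C w1 w2 true T k0 y (fun i => if i ∈ (range (T + 1)).filter Nat.Prime then α i else a i ω) =
        base C w1 w2 true T k0 y α := by
      intro ω
      refine base_dep C w1 w2 true T k0 y _ _ fun p hp hpp => ?_
      have h9 : p ∈ (range (T + 1)).filter Nat.Prime := mem_filter.2 ⟨mem_range.2 (by omega), hpp⟩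
      simp only [h9, if_true]
    set U := base C w1 w2 true T k0 y α with hU
    have hUs : U ⊆ Ioc k0 (k0 + y) := base_sub _ _ _ _ _ _ _ _
    have e2 : ∀ ω, Em C z i0 T N k0 ℓ Nw U (fun i => if i ∈ (range (T + 1)).filter Nat.Prime then α i else a i ω) =
        Em C z i0 T N k0 ℓ Nw U (fun i => a i ω) := by
      intro ω
      unfold Em
      congr 1
      refine filter_congr fun i _ => forall₂_congr fun n _ => ?_
      refine exists_congr fun p => and_congr_right fun hp => ?_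
      rw [mem_filter, mem_Ioc] at hp
      have h9 : p ∉ (range (T + 1)).filter Nat.Prime := by
        rw [mem_filter, mem_range]
        omega
      simp only [h9, if_false]
    simp only [e1, e2]
    by_cases hgd : Gd' U
    swap
    · have : {ω | Gd' U ∧ (Em C z i0 T N k0 ℓ Nw U (fun i => a i ω) : ℝ) < S / 4} = ∅ := by
        ext ω
        simp [hgd]
      rw [this, measureReal_empty]
      exact hη
    have hIc := hG U hUs hgd
    set I := Igood C U k0 ℓ Nw M C1 with hI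
    have hIm : ∀ i ∈ I, (win U k0 ℓ i).card ≤ M ∧ ((win U k0 ℓ i).filter (fun n => spc C U n)).card ≤ C1 := by
      intro i hi
      rw [hI] at hi
      unfold Igood at hi
      exact (mem_filter.1 hi).2
    have h2 := second h I (fun i => win U k0 ℓ i) L T N k M ((2 * M) ^ 2 * k ^ 2 * c0) (4 * (k * D)) (1 / 2) u v ξ w.T0
      (kl := kz C z (spc C U) i0)
      (by norm_num) (by norm_num) (by linarith) (fun i hi => (hIm i hi).1) (fun i _ j _ hij => win_disj U k0 ℓ i j hij)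
      (fun i hi j hj => w.dat hz U hUs i j (hIm i hi).1 (hIm j hj).1) (by
        have : (2 : ℝ) / (1 / 2) = 4 := by norm_num
        rw [this]
        exact hu) (by
        have e3 : (M : ℝ) * ((k : ℝ) * ((2 * M) ^ 2 * k ^ 2 * c0 : ℕ) / T / (1 / 2)) =
            M * ((k : ℝ) * ((2 * M) ^ 2 * k ^ 2 * c0 : ℕ) / T * 2) := by ring
        have e4 : 4 * (k : ℝ) ^ 2 * M ^ 2 / (T * (1 / 2) ^ 2) = 16 * k ^ 2 * M ^ 2 / T := by
          have : (T : ℝ) ≠ 0 := by exact_mod_cast w.T0.ne'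
          field_simp
          ring
        rw [e3, e4]
        exact hv) hv1 hξ hξ0 S hS0 (by
        calc S ≤ 2 * ρ * Nw * ((1 - s) ^ M * (1 / 2) ^ C1) := hS
          _ ≤ (I.card : ℝ) * ((1 - s) ^ M * (1 / 2) ^ C1) := by
              refine mul_le_mul_of_nonneg_right hIc ?_
              have := w.s1
              exact mul_nonneg (pow_nonneg (by linarith) _) (pow_nonneg (by norm_num) _)
          _ = ∑ _i ∈ I, (1 - s) ^ M * (1 / 2) ^ C1 := by rw [sum_const, nsmul_eq_mul]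
          _ ≤ _ := sum_le_sum fun i hi => w.main hz U hUs C1 i (hIm i hi).1 (hIm i hi).2)
    refine le_trans (measureReal_mono ?_) h2
    intro ω hω
    rw [Set.mem_ofPred_eq] at *
    refine lt_of_le_of_lt ?_ hω.2
    unfold Pool.Agent.T2H32.BF.cnt Em
    rw [card_filter]
    push_cast
    have hIr : I ⊆ range Nw := by
      rw [hI]
      exact filter_subset _ _
    refine le_trans ?_ (sum_le_sum_of_subset_of_nonneg hIr fun i _ _ => by split_ifs <;> norm_num)
    refine sum_le_sum fun i _ => ?_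
    by_cases hE : ω ∈ Ev (kz C z (spc C U) i0) a L (win U k0 ℓ i) 0
    · rw [Set.indicator_of_mem hE, if_pos]
      unfold Ev surv at hE
      rw [Set.mem_ofPred_eq, card_eq_zero, filter_eq_empty_iff] at hE
      intro n hn
      have := hE hn
      push Not at this
      obtain ⟨p, hp, hpk⟩ := this
      exact ⟨p, hp, hpk⟩
    · rw [Set.indicator_of_notMem hE]
      split_ifs <;> norm_num

end

end Pool.Agent.H559.GP
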