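import Pool.Agent.H559.GP.Coin
import Pool.Agent.H559.GP.Win

set_option autoImplicit false

/-! # The arrays of the systems -/

open Finset MeasureTheory ProbabilityTheory Filter Topology Polynomial
open Pool.Agent.T2H32.BF (Model prob V V_pos V_anti V_ratio mertens)
open Pool.Agent.H559.BS (Limit TT TT_le TT_ge TT_top log_TT V_TT log_pow_le log_top g g_pos)
open Pool.Agent.H559.HY (Arr evl cls arr evl_arr Sg Om base base_sub box mem_box Cut not_mem_rts pos fam fam_le fam_deg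
  fam_ne CF CF_eq CF_conv good_arr pow_top)
open Pool.Agent.H559.PV (Gd Row GP_comp sys_of not_shift comp_inj)

namespace Pool.Agent.H559.GP

/-- the array of a system -/
noncomputable def aF (F : Finset ℤ[X]) : Arr F.card (∑ i, (fam F i).natDegree) := arr (∑ i, (fam F i).natDegree) (fam F)

theorem pos_eq (f : ℤ[X]) (h : 0 < f.leadingCoeff) : pos f = f := if_pos h

theorem fam_mem (F : Finset ℤ[X]) (hF : ∀ f ∈ F, Pool.Agent.H559.PV.GP f) (i : Fin F.card) : fam F i ∈ F := by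
  unfold fam
  rw [pos_eq _ (hF _ (F.equivFin.symm i).2).lead]
  exact (F.equivFin.symm i).2

theorem fam_surj (F : Finset ℤ[X]) (hF : ∀ f ∈ F, Pool.Agent.H559.PV.GP f) (f : ℤ[X]) (hf : f ∈ F) : ∃ i, fam F i = f := by
  refine ⟨F.equivFin ⟨f, hf⟩, ?_⟩
  unfold fam
  rw [Equiv.symm_apply_apply]
  exact pos_eq _ (hF _ hf).lead

theorem evl_aF (F : Finset ℤ[X]) (i : Fin F.card) (m : ℕ) : evl (aF F i) m = (fam F i).eval (m : ℤ) :=
  evl_arr _ _ (fam_le F) i m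

/-- `m` survives the sieve of the small primes -/
def Sv (F : Finset ℤ[X]) (w1 w2 T : ℕ) (b : ℕ → ℕ) (m : ℤ) : Prop :=
  ∀ p ≤ T, p.Prime → (p ≤ w1 → ∀ f ∈ F, (f.eval m % (p : ℤ)).toNat ≠ 0) ∧
    (w1 < p → w2 < p → ∀ f ∈ F, (f.eval m % (p : ℤ)).toNat ≠ b p)

theorem mem_base (F : Finset ℤ[X]) (hF : ∀ f ∈ F, Pool.Agent.H559.PV.GP f) (w1 w2 T k0 y : ℕ) (b : ℕ → ℕ) (m : ℕ) :
    m ∈ base (aF F) w1 w2 true T k0 y b ↔ m ∈ Ioc k0 (k0 + y) ∧ Sv F w1 w2 T b m := by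
  unfold base Sv
  rw [mem_filter]
  refine and_congr_right fun _ => forall₃_congr fun p hp hpp => ?_
  unfold Om
  by_cases h1 : p ≤ w1
  · rw [if_pos h1, not_mem_rts _ p m 0 hpp.pos]
    constructor
    · intro h
      refine ⟨fun _ f hf => ?_, fun h2 => absurd h1 (by omega)⟩
      obtain ⟨i, rfl⟩ := fam_surj F hF f hf
      have := h i
      unfold cls at this
      rwa [evl_aF] at this
    · rintro ⟨h2, _⟩ i
      unfold cls
      rw [evl_aF]
      exact h2 h1 _ (fam_mem F hF i)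
  · rw [if_neg h1]
    by_cases h2 : p ≤ w2
    · rw [if_pos h2]
      simp only [if_true, notMem_empty, not_false_eq_true, true_iff]
      exact ⟨fun h3 => absurd h3 h1, fun _ h3 => absurd h2 (by omega)⟩
    · rw [if_neg h2, not_mem_rts _ p m (b p) hpp.pos]
      constructor
      · intro h
        refine ⟨fun h3 => absurd h3 h1, fun _ _ f hf => ?_⟩
        obtain ⟨i, rfl⟩ := fam_surj F hF f hf
        have := h i
        unfold cls at this
        rwa [evl_aF] at this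
      · rintro ⟨_, h3⟩ i
        unfold cls
        rw [evl_aF]
        exact h3 (by omega) (by omega) _ (fam_mem F hF i)

/-- the system and a translate -/
noncomputable def sh (F : Finset ℤ[X]) (t : ℤ) : Finset ℤ[X] := F ∪ F.image (fun f => f.comp (X + C t))

theorem sh_GP (F : Finset ℤ[X]) (hF : ∀ f ∈ F, Pool.Agent.H559.PV.GP f) (t : ℤ) : ∀ f ∈ sh F t, Pool.Agent.H559.PV.GP f := by
  intro f hf
  unfold sh at hf
  rw [mem_union, mem_image] at hf
  rcases hf with hf | ⟨f', hf', rfl⟩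
  · exact hF f hf
  · exact GP_comp f' (hF f' hf') t

theorem sh_card (F : Finset ℤ[X]) (hF : ∀ f ∈ F, Pool.Agent.H559.PV.GP f) (hne : F.Nonempty) (t : ℤ) (ht : t ≠ 0) :
    F.card + 1 ≤ (sh F t).card := by
  by_contra hcon
  have himg : (F.image (fun f => f.comp (X + C t))).card = F.card :=
    card_image_of_injective _ fun f g h => comp_inj t f g h
  have h1 : F = sh F t := eq_of_subset_of_card_le subset_union_left (by omega)
  have h2 : F.image (fun f => f.comp (X + C t)) = sh F t :=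
    eq_of_subset_of_card_le subset_union_right (by rw [himg]; omega)
  exact ht (not_shift F hF hne t (h1.trans h2.symm))

theorem Sv_sh (F : Finset ℤ[X]) (w1 w2 T : ℕ) (b : ℕ → ℕ) (m t : ℤ) (h1 : Sv F w1 w2 T b m) (h2 : Sv F w1 w2 T b (m + t)) :
    Sv (sh F t) w1 w2 T b m := by
  intro p hp hpp
  obtain ⟨a1, a2⟩ := h1 p hp hpp
  obtain ⟨b1, b2⟩ := h2 p hp hpp
  have e : ∀ f : ℤ[X], (f.comp (X + C t)).eval m = f.eval (m + t) := by
    intro f
    rw [eval_comp]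
    simp
  constructor
  · intro h3 f hf
    unfold sh at hf
    rw [mem_union, mem_image] at hf
    rcases hf with hf | ⟨f', hf', rfl⟩
    · exact a1 h3 f hf
    · rw [e]
      exact b1 h3 f' hf'
  · intro h3 h4 f hf
    unfold sh at hf
    rw [mem_union, mem_image] at hf
    rcases hf with hf | ⟨f', hf', rfl⟩
    · exact a2 h3 h4 f hf
    · rw [e]
      exact b2 h3 h4 f' hf'

/-- the special elements survive for a larger system -/
theorem spc_cover (F : Finset ℤ[X]) (hF : ∀ f ∈ F, Pool.Agent.H559.PV.GP f) :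
    ∃ J0 m0 d0 : ℕ, ∀ J x : ℕ, J0 ≤ J → m0 ≤ x → ∀ (w1 w2 T : ℕ) (b : ℕ → ℕ),
      ∀ n ∈ base (aF F) w1 w2 true T (x - x / J) (x / J) b, spc (aF F) (base (aF F) w1 w2 true T (x - x / J) (x / J) b) n →
        n ∈ ((Icc (-(d0 : ℤ)) d0).filter (fun t => t ≠ 0)).biUnion
          (fun t => base (aF (sh F t)) w1 w2 true T (x - x / J) (x / J) b) := by
  classical
  have h1 : ∀ q : Fin F.card × Fin F.card, ∃ J0 m0 d0 : ℕ, ∀ J x n n' : ℕ, J0 ≤ J → m0 ≤ x → x - x / J < n → n ≤ x →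
      x - x / J < n' → n' ≤ x → (fam F q.1).eval (n : ℤ) = (fam F q.2).eval (n' : ℤ) → |(n' : ℤ) - n| ≤ d0 := by
    intro q
    have g1 := hF _ (fam_mem F hF q.1)
    have g2 := hF _ (fam_mem F hF q.2)
    obtain ⟨J0, m0, d0, h⟩ := coin (fam F q.1) (fam F q.2) g1.deg g2.deg g1.lead g2.lead
    exact ⟨J0, m0, d0, fun J x n n' a1 a2 a3 a4 a5 a6 a7 => (h J x n n' a1 a2 a3 a4 a5 a6 a7).1⟩
  choose J0 m0 d0 h2 using h1
  refine ⟨∑ q, J0 q, ∑ q, m0 q, ∑ q, d0 q, fun J x hJ hx w1 w2 T b n hn hs => ?_⟩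
  obtain ⟨n', hn', hne, i, i', heq⟩ := hs
  rw [evl_aF, evl_aF] at heq
  have e : x - x / J + x / J = x := Nat.sub_add_cancel (Nat.div_le_self _ _)
  have hnb := (mem_base F hF w1 w2 T _ _ b n).1 hn
  have hnb' := (mem_base F hF w1 w2 T _ _ b n').1 hn'
  rw [e, mem_Ioc] at hnb hnb'
  have j1 : J0 (i, i') ≤ ∑ q, J0 q := single_le_sum (f := J0) (fun _ _ => Nat.zero_le _) (mem_univ _)
  have j2 : m0 (i, i') ≤ ∑ q, m0 q := single_le_sum (f := m0) (fun _ _ => Nat.zero_le _) (mem_univ _)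
  have j3 : d0 (i, i') ≤ ∑ q, d0 q := single_le_sum (f := d0) (fun _ _ => Nat.zero_le _) (mem_univ _)
  have h3 := h2 (i, i') J x n n' (j1.trans hJ) (j2.trans hx) hnb.1.1 hnb.1.2 hnb'.1.1 hnb'.1.2 heq
  rw [mem_biUnion]
  refine ⟨(n' : ℤ) - n, ?_, ?_⟩
  · rw [mem_filter, mem_Icc]
    have h4 := abs_le.1 h3
    have j4 : ((d0 (i, i') : ℕ) : ℤ) ≤ ((∑ q, d0 q : ℕ) : ℤ) := by exact_mod_cast j3
    refine ⟨⟨by omega, by omega⟩, by omega⟩
  · rw [mem_base _ (sh_GP F hF _), e, mem_Ioc]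
    refine ⟨hnb.1, Sv_sh F w1 w2 T b n _ hnb.2 ?_⟩
    have : (n : ℤ) + ((n' : ℤ) - n) = n' := by ring
    rw [this]
    exact hnb'.2

variable {Ω : Type*} [MeasurableSpace Ω] {P : Measure Ω} {a : ℕ → Ω → ℕ}

theorem aF_good (F : Finset ℤ[X]) (hF : ∀ f ∈ F, Pool.Agent.H559.PV.GP f) :
    ∃ P0 : ℕ, ∀ p : ℕ, p.Prime → P0 < p → Gd (aF F) p := by
  have hs := sys_of F hF
  have hinj : Function.Injective (fam F) := by
    intro i j h
    by_contra hij
    exact (fam_ne F hs i j hij).1 h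
  obtain ⟨P0, h⟩ := good_arr (∑ i, (fam F i).natDegree) (fam F) (fam_le F) (fam_deg F hs) hinj
  exact ⟨P0, fun p hp hP => (h p hp hP).1⟩

theorem aF_row (F : Finset ℤ[X]) (hF : ∀ f ∈ F, Pool.Agent.H559.PV.GP f) : Row (aF F) := by
  intro i i' hi h
  have hs := sys_of F hF
  apply (fam_ne F hs i i' hi).1
  ext j
  by_cases hj : j ≤ ∑ i, (fam F i).natDegree
  · have := congrFun h ⟨j, by omega⟩
    exact this
  · have h1 := fam_le F i
    have h2 := fam_le F i'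
    rw [coeff_eq_zero_of_natDegree_lt (by omega), coeff_eq_zero_of_natDegree_lt (by omega)]

theorem aF_box (F : Finset ℤ[X]) (A : ℕ) (hA : 1 ≤ A) : ∀ᶠ x : ℕ in atTop, aF F ∈ box F.card (∑ i, (fam F i).natDegree) (x ^ A) := by
  filter_upwards [eventually_ge_atTop (∑ i, ∑ j, (aF F i j).natAbs), eventually_ge_atTop 1] with x hx hx1
  rw [mem_box]
  intro i j
  have h1 : (aF F i j).natAbs ≤ ∑ i, ∑ j, (aF F i j).natAbs :=
    (single_le_sum (f := fun j => (aF F i j).natAbs) (fun _ _ => Nat.zero_le _) (mem_univ j)).trans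
      (single_le_sum (f := fun i => ∑ j, (aF F i j).natAbs) (fun _ _ => Nat.zero_le _) (mem_univ i))
  have h2 : x ≤ x ^ A := Nat.le_self_pow (by omega) x
  rw [Int.abs_eq_natAbs]
  exact_mod_cast h1.trans (hx.trans h2)

/-- the number of the survivors for one system -/
theorem levF (h : Model P a) (z W : ℕ → ℕ) (hz : Limit z) (hW : Cut W) (F : Finset ℤ[X])
    (hF : ∀ f ∈ F, Pool.Agent.H559.PV.GP f) (A B : ℕ) (hA : 1 ≤ A) (ε : ℝ) (hε : 0 < ε) (hε1 : ε ≤ 1) :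
    ∃ δ0 : ℝ, 0 < δ0 ∧ δ0 ≤ 1 ∧ ∀ δ : ℝ, 0 < δ → δ ≤ δ0 → ∀ᵐ ω ∂P, ∀ᶠ x : ℕ in atTop, ∀ k0 y : ℕ,
      ((base (aF F) (W (TT (1 / 4) x)) (W (x ^ A)) true (TT δ x) k0 y (fun p => a p ω)).card : ℝ) ≤
        (1 + ε) * (y * (CF F (W (TT (1 / 4) x)) * V (TT δ x) ^ F.card)) + x / Real.log x ^ B := by
  obtain ⟨P0, hP0⟩ := aF_good F hF
  obtain ⟨δ0, h1, h2, h3⟩ := lev h z W hz hW F.card (∑ i, (fam F i).natDegree) A P0 B hA ε hε hε1
  refine ⟨δ0, h1, h2, fun δ hδ hδ0 => ?_⟩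
  filter_upwards [h3 δ hδ hδ0] with ω hω
  filter_upwards [hω, aF_box F A hA] with x hx hb k0 y
  have := hx (aF F) hb hP0 (aF_row F hF) k0 y
  rw [CF_eq]
  exact this

end Pool.Agent.H559.GP
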