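import Pool.Agent.H559.PV.Close

set_option autoImplicit false

/-! # Equal values of two polynomials -/

open Finset Filter Topology Polynomial
open Pool.Agent.H559.PV (GP)

namespace Pool.Agent.H559.GP

/-- a polynomial which is positive at infinity -/
theorem ev_pos (q : ℤ[X]) (h : 0 < q.leadingCoeff) : ∀ᶠ m : ℕ in atTop, 0 < q.eval (m : ℤ) := by
  rcases Nat.eq_zero_or_pos q.natDegree with h0 | h0
  · refine Eventually.of_forall fun m => ?_
    rw [eq_C_of_natDegree_eq_zero h0, eval_C]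
    unfold leadingCoeff at h
    rwa [h0] at h
  · filter_upwards [Pool.Agent.H559.HY.growth q h0 h, eventually_ge_atTop 1] with m h1 h2
    have hm0 : (0 : ℝ) < m := by exact_mod_cast h2
    have h3 : (0 : ℝ) < ((q.eval (m : ℤ) : ℤ) : ℝ) := lt_of_lt_of_le (by positivity) h1.1
    exact_mod_cast h3

/-- the second coefficient of a translate -/
theorem coeff_shift (g : ℤ[X]) (d : ℕ) (hd : g.natDegree = d + 1) (t : ℤ) :
    (g.comp (X + C t)).coeff d = g.coeff d + (d + 1) * g.coeff (d + 1) * t := by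
  rw [show g.comp (X + C t) = taylor t g from (taylor_apply t g).symm ▸ rfl, taylor_coeff]
  have h1 : (hasseDeriv d g).natDegree ≤ 1 := by
    refine (natDegree_hasseDeriv_le g d).trans ?_
    omega
  rw [eval_eq_sum_range' (Nat.lt_succ_of_le h1), sum_range_succ, sum_range_one]
  rw [hasseDeriv_coeff, hasseDeriv_coeff]
  simp only [zero_add, Nat.choose_self, Nat.cast_one, one_mul, pow_zero, mul_one, pow_one]
  have h2 : (1 + d).choose d = d + 1 := by
    rw [add_comm, Nat.choose_succ_self_right]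
  rw [h2, add_comm 1 d]
  push_cast
  ring

/-- the leading coefficient of a translate -/
theorem coeff_shift_top (g : ℤ[X]) (t : ℤ) : (g.comp (X + C t)).coeff g.natDegree = g.leadingCoeff := by
  have h1 : (g.comp (X + C t)).natDegree = g.natDegree := Pool.Agent.W149.CS.comp_natDegree g t
  have h2 : (g.comp (X + C t)).leadingCoeff = g.leadingCoeff := Pool.Agent.W149.CS.comp_lc g t
  unfold leadingCoeff at h2
  rw [h1] at h2
  exact h2

/-- a large translate is larger -/
theorem shift_gt (f g : ℤ[X]) (hd : 0 < f.natDegree) (hdeg : g.natDegree = f.natDegree) (hlc : g.leadingCoeff = f.leadingCoeff)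
    (hl : 0 < f.leadingCoeff) : ∃ d0 : ℕ, ∀ t : ℤ, (d0 : ℤ) ≤ t → ∀ᶠ m : ℕ in atTop, f.eval (m : ℤ) < g.eval ((m : ℤ) + t) := by
  obtain ⟨d, hd'⟩ : ∃ d, f.natDegree = d + 1 := ⟨f.natDegree - 1, by omega⟩
  refine ⟨(f.coeff d - g.coeff d).natAbs + 1, fun t ht => ?_⟩
  set q : ℤ[X] := g.comp (X + C t) - f with hq
  have hgd : g.natDegree = d + 1 := by rw [hdeg, hd']
  have hc : 0 < q.coeff d := by
    rw [hq, coeff_sub, coeff_shift g d hgd t]
    have h1 : g.coeff (d + 1) = f.leadingCoeff := by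
      rw [← hlc]
      unfold leadingCoeff
      rw [hgd]
    rw [h1]
    have h2 : f.coeff d - g.coeff d ≤ |f.coeff d - g.coeff d| := le_abs_self _
    have h3 : (0 : ℤ) ≤ |f.coeff d - g.coeff d| := abs_nonneg _
    push_cast at ht
    have ht0 : 0 ≤ t := by linarith
    have h4 : t ≤ ((d : ℤ) + 1) * f.leadingCoeff * t := by
      have : (1 : ℤ) ≤ ((d : ℤ) + 1) * f.leadingCoeff := by nlinarith
      nlinarith
    linarith
  have hdegq : q.natDegree ≤ d := by
    rw [natDegree_le_iff_coeff_eq_zero]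
    intro n hn
    rw [hq, coeff_sub]
    rcases Nat.lt_or_ge (d + 1) n with h | h
    · rw [coeff_eq_zero_of_natDegree_lt, coeff_eq_zero_of_natDegree_lt, sub_zero]
      · rw [hd']
        exact h
      · rw [Pool.Agent.W149.CS.comp_natDegree, hgd]
        exact h
    · have : n = d + 1 := by omega
      subst this
      have h1 := coeff_shift_top g t
      rw [hgd] at h1
      rw [h1, hlc]
      unfold leadingCoeff
      rw [hd', sub_self]
  have hqd : q.natDegree = d := le_antisymm hdegq (le_natDegree_of_ne_zero hc.ne')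
  have hql : 0 < q.leadingCoeff := by
    unfold leadingCoeff
    rw [hqd]
    exact hc
  filter_upwards [ev_pos q hql] with m hm
  rw [hq, eval_sub, eval_comp] at hm
  simp only [eval_add, eval_X, eval_C] at hm
  linarith

/-- monotonicity -/
theorem ev_step (f : ℤ[X]) (hd : 0 < f.natDegree) (hl : 0 < f.leadingCoeff) :
    ∃ m0 : ℕ, ∀ m m' : ℕ, m0 ≤ m → m < m' → f.eval (m : ℤ) < f.eval (m' : ℤ) := by
  have h1 : ∀ᶠ m : ℕ in atTop, f.eval (m : ℤ) < f.eval ((m : ℤ) + 1) := by
    obtain ⟨d, hd'⟩ : ∃ d, f.natDegree = d + 1 := ⟨f.natDegree - 1, by omega⟩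
    set q : ℤ[X] := f.comp (X + C 1) - f with hq
    have hc : 0 < q.coeff d := by
      rw [hq, coeff_sub, coeff_shift f d hd' 1]
      have h1 : f.coeff (d + 1) = f.leadingCoeff := by
        unfold leadingCoeff
        rw [hd']
      rw [h1]
      have : 0 < ((d : ℤ) + 1) * f.leadingCoeff := by positivity
      linarith
    have hdegq : q.natDegree ≤ d := by
      rw [natDegree_le_iff_coeff_eq_zero]
      intro n hn
      rw [hq, coeff_sub]
      rcases Nat.lt_or_ge (d + 1) n with h | h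
      · rw [coeff_eq_zero_of_natDegree_lt, coeff_eq_zero_of_natDegree_lt, sub_zero]
        · rw [hd']
          exact h
        · rw [Pool.Agent.W149.CS.comp_natDegree, hd']
          exact h
      · have : n = d + 1 := by omega
        subst this
        have h1 := coeff_shift_top f 1
        rw [hd'] at h1
        rw [h1]
        unfold leadingCoeff
        rw [hd', sub_self]
    have hqd : q.natDegree = d := le_antisymm hdegq (le_natDegree_of_ne_zero hc.ne')
    have hql : 0 < q.leadingCoeff := by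
      unfold leadingCoeff
      rw [hqd]
      exact hc
    filter_upwards [ev_pos q hql] with m hm
    rw [hq, eval_sub, eval_comp] at hm
    simp only [eval_add, eval_X, eval_C] at hm
    linarith
  obtain ⟨m0, hm0⟩ := eventually_atTop.1 h1
  refine ⟨m0, fun m m' hm hmm => ?_⟩
  induction m', hmm using Nat.le_induction with
  | base =>
    have := hm0 m hm
    push_cast
    exact this
  | succ n hn ih =>
    have := hm0 n (by omega)
    push_cast
    exact ih.trans this

/-- the ratio of two numbers of a short interval -/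
theorem ratio_le (J x n n' d : ℕ) (κ : ℝ) (hκ : 0 < κ) (hJ : (d : ℝ) * (1 + κ) / κ ≤ J) (hJ1 : 1 < J) (hn : x - x / J < n)
    (hn' : n' ≤ x) : (n' : ℝ) ^ d ≤ (1 + κ) * (n : ℝ) ^ d := by
  have hJ0 : (0 : ℝ) < J := by exact_mod_cast (by omega : 0 < J)
  have h1 : (1 - 1 / (J : ℝ)) * x ≤ n := by
    have h2 : x ≤ n + x / J := by omega
    have h3 : (x : ℝ) ≤ n + ((x / J : ℕ) : ℝ) := by exact_mod_cast h2
    have h4 : ((x / J : ℕ) : ℝ) ≤ x / J := Nat.cast_div_le
    have h5 : (1 - 1 / (J : ℝ)) * x = x - x / J := by ring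
    linarith
  have h6 : 1 - (d : ℝ) / J ≤ (1 - 1 / (J : ℝ)) ^ d := by
    have := one_add_mul_le_pow (a := -(1 / (J : ℝ))) (by
      have : 1 / (J : ℝ) ≤ 1 := by
        rw [div_le_one hJ0]
        exact_mod_cast hJ1.le
      linarith) d
    have h7 : (1 : ℝ) + -(1 / (J : ℝ)) = 1 - 1 / J := by ring
    rw [h7] at this
    have h8 : (d : ℝ) / J = d * (1 / J) := by ring
    rw [h8]
    linarith
  have h9 : 1 ≤ (1 + κ) * (1 - (d : ℝ) / J) := by
    have h10 : (d : ℝ) / J ≤ κ / (1 + κ) := by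
      rw [div_le_div_iff₀ hJ0 (by positivity)]
      rw [div_le_iff₀ hκ] at hJ
      linarith
    have h11 : (1 + κ) * (κ / (1 + κ)) = κ := by
      field_simp
    have h12 := mul_le_mul_of_nonneg_left h10 (show 0 ≤ 1 + κ by positivity)
    nlinarith
  have hx0 : (0 : ℝ) ≤ x := Nat.cast_nonneg _
  have h13 : 0 ≤ 1 - 1 / (J : ℝ) := by
    have : 1 / (J : ℝ) ≤ 1 := by
      rw [div_le_one hJ0]
      exact_mod_cast hJ1.le
    linarith
  calc (n' : ℝ) ^ d ≤ (x : ℝ) ^ d := by
        have : (n' : ℝ) ≤ x := by exact_mod_cast hn'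
        gcongr
    _ = 1 * (x : ℝ) ^ d := by ring
    _ ≤ ((1 + κ) * (1 - (d : ℝ) / J)) * (x : ℝ) ^ d := mul_le_mul_of_nonneg_right h9 (by positivity)
    _ ≤ ((1 + κ) * (1 - 1 / (J : ℝ)) ^ d) * (x : ℝ) ^ d := by gcongr
    _ = (1 + κ) * ((1 - 1 / (J : ℝ)) * x) ^ d := by rw [mul_pow]; ring
    _ ≤ (1 + κ) * (n : ℝ) ^ d := by gcongr

/-- polynomials with different degrees or leading coefficients have no equal values in a short interval -/
theorem no_eq (f g : ℤ[X]) (hf : 0 < f.natDegree) (hg : 0 < g.natDegree) (lf : 0 < f.leadingCoeff) (lg : 0 < g.leadingCoeff)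
    (hne : f.natDegree < g.natDegree ∨ (f.natDegree = g.natDegree ∧ f.leadingCoeff < g.leadingCoeff)) :
    ∃ J0 m0 : ℕ, ∀ J x n n' : ℕ, J0 ≤ J → m0 ≤ x → x - x / J < n → n ≤ x → x - x / J < n' → n' ≤ x →
      f.eval (n : ℤ) < g.eval (n' : ℤ) := by
  rcases hne with h | ⟨h, hlt⟩
  · obtain ⟨m1, hm1⟩ := eventually_atTop.1 (Pool.Agent.H559.HY.growth f hf lf)
    obtain ⟨m2, hm2⟩ := eventually_atTop.1 (Pool.Agent.H559.HY.growth g hg lg)
    refine ⟨2, max (2 * (m1 + m2 + 1)) (⌈2 * (2 * (f.leadingCoeff : ℝ)) * 2 ^ g.natDegree⌉₊ + 1),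
      fun J x n n' hJ hx hn1 hn2 hn1' hn2' => ?_⟩
    have hx1 : 2 * (m1 + m2 + 1) ≤ x := (le_max_left _ _).trans hx
    have hx2 : ⌈2 * (2 * (f.leadingCoeff : ℝ)) * 2 ^ g.natDegree⌉₊ + 1 ≤ x := (le_max_right _ _).trans hx
    have hxJ : x / J ≤ x / 2 := Nat.div_le_div_left hJ (by norm_num)
    have hnx : x ≤ 2 * n := by omega
    have hnx' : x ≤ 2 * n' := by omega
    have a1 := (hm1 n (by omega)).2
    have a2 := (hm2 n' (by omega)).1
    have hl0 : (0 : ℝ) < f.leadingCoeff := by exact_mod_cast lf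
    have hx0 : (0 : ℝ) < x := by exact_mod_cast (by omega : 0 < x)
    have hx2' : 2 * (2 * (f.leadingCoeff : ℝ)) * 2 ^ g.natDegree < x := by
      have h1 := Nat.le_ceil (2 * (2 * (f.leadingCoeff : ℝ)) * 2 ^ g.natDegree)
      have h2 : ((⌈2 * (2 * (f.leadingCoeff : ℝ)) * 2 ^ g.natDegree⌉₊ : ℕ) : ℝ) + 1 ≤ x := by exact_mod_cast hx2
      linarith
    have h3 : (2 : ℝ) * f.leadingCoeff * (n : ℝ) ^ f.natDegree < (n' : ℝ) ^ g.natDegree / 2 := by
      have hnR : (n : ℝ) ≤ x := by exact_mod_cast hn2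
      have hn'R : (x : ℝ) / 2 ≤ n' := by
        rw [div_le_iff₀ (by norm_num)]
        have : (x : ℝ) ≤ 2 * n' := by exact_mod_cast hnx'
        linarith
      have h4 : (x : ℝ) ^ f.natDegree * x ≤ (x : ℝ) ^ g.natDegree := by
        rw [← pow_succ]
        exact pow_le_pow_right₀ (by exact_mod_cast (by omega : 1 ≤ x)) h
      have h5 : (2 * (f.leadingCoeff : ℝ)) * (x : ℝ) ^ f.natDegree < (x / 2 : ℝ) ^ g.natDegree / 2 := by
        rw [div_pow, div_div, lt_div_iff₀ (by positivity)]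
        have h6 : 0 < (x : ℝ) ^ f.natDegree := by positivity
        calc 2 * (f.leadingCoeff : ℝ) * (x : ℝ) ^ f.natDegree * (2 ^ g.natDegree * 2) =
              (x : ℝ) ^ f.natDegree * (2 * (2 * (f.leadingCoeff : ℝ)) * 2 ^ g.natDegree) := by ring
          _ < (x : ℝ) ^ f.natDegree * x := by gcongr
          _ ≤ _ := h4
      calc (2 : ℝ) * f.leadingCoeff * (n : ℝ) ^ f.natDegree ≤ (2 * (f.leadingCoeff : ℝ)) * (x : ℝ) ^ f.natDegree := by gcongr
        _ < (x / 2 : ℝ) ^ g.natDegree / 2 := h5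
        _ ≤ (n' : ℝ) ^ g.natDegree / 2 := by gcongr
    have h7 : (((f.eval (n : ℤ) : ℤ) : ℝ)) < ((g.eval (n' : ℤ) : ℤ) : ℝ) := by linarith
    exact_mod_cast h7
  · -- the same degree
    set d := f.natDegree with hd
    set lfR : ℝ := ((f.leadingCoeff : ℤ) : ℝ) with hlf
    set lgR : ℝ := ((g.leadingCoeff : ℤ) : ℝ) with hlg
    have hl1 : lfR + 1 ≤ lgR := by
      rw [hlf, hlg]
      exact_mod_cast hlt
    have hl0 : 0 < lfR := by
      rw [hlf]
      exact_mod_cast lf
    have hasym : ∀ q : ℤ[X], 0 < q.natDegree → Tendsto (fun m : ℕ => ((q.eval (m : ℤ) : ℤ) : ℝ) / (m : ℝ) ^ q.natDegree) atTop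
        (𝓝 (q.leadingCoeff : ℝ)) := by
      intro q hq
      set r : ℝ[X] := q.map (Int.castRingHom ℝ) with hr
      have hinj : Function.Injective (Int.castRingHom ℝ) := RingHom.injective_int _
      have hdeg : r.natDegree = q.natDegree := natDegree_map_eq_of_injective hinj q
      have hlc : r.leadingCoeff = (q.leadingCoeff : ℝ) := by
        rw [hr, leadingCoeff_map_of_injective hinj]
        simp
      have h1 := (Polynomial.div_tendsto_leadingCoeff_div_of_degree_eq r (X ^ q.natDegree) (by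
        rw [degree_X_pow, degree_eq_natDegree (by
          intro h0
          rw [h0, natDegree_zero] at hdeg
          omega), hdeg])).comp tendsto_natCast_atTop_atTop
      rw [leadingCoeff_X_pow, div_one, hlc] at h1
      refine h1.congr fun m => ?_
      simp only [Function.comp_apply, eval_pow, eval_X]
      congr 1
      rw [hr, eval_natCast_map]
      simp
    have e1 := (hasym f hf).eventually_lt_const (show (f.leadingCoeff : ℝ) < lfR + 1 / 4 by rw [hlf]; linarith)
    have e2 := (hasym g hg).eventually_const_lt (show lgR - 1 / 4 < (g.leadingCoeff : ℝ) by rw [hlg]; linarith)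
    obtain ⟨m1, hm1⟩ := eventually_atTop.1 e1
    obtain ⟨m2, hm2⟩ := eventually_atTop.1 e2
    set κ : ℝ := 1 / (4 * (lfR + 1)) with hκ
    have hκ0 : 0 < κ := by positivity
    refine ⟨max 2 ⌈(d : ℝ) * (1 + κ) / κ⌉₊, 2 * (m1 + m2 + 1), fun J x n n' hJ hx hn1 hn2 hn1' hn2' => ?_⟩
    have hJ2 : 2 ≤ J := (le_max_left _ _).trans hJ
    have hJκ : (d : ℝ) * (1 + κ) / κ ≤ J := by
      have h1 : ⌈(d : ℝ) * (1 + κ) / κ⌉₊ ≤ J := (le_max_right _ _).trans hJ
      exact (Nat.le_ceil _).trans (by exact_mod_cast h1)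
    have hxJ : x / J ≤ x / 2 := Nat.div_le_div_left hJ2 (by norm_num)
    have hn0 : m1 + m2 + 1 ≤ n := by omega
    have hn0' : m1 + m2 + 1 ≤ n' := by omega
    have a1 := hm1 n (by omega)
    have a2 := hm2 n' (by omega)
    have hnp : (0 : ℝ) < (n : ℝ) ^ d := by
      have : (0 : ℝ) < n := by exact_mod_cast (by omega : 0 < n)
      positivity
    have hnp' : (0 : ℝ) < (n' : ℝ) ^ d := by
      have : (0 : ℝ) < n' := by exact_mod_cast (by omega : 0 < n')
      positivity
    rw [← h, lt_div_iff₀ hnp'] at a2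
    rw [div_lt_iff₀ hnp] at a1
    have h3 := ratio_le J x n' n d κ hκ0 hJκ (by omega) hn1' hn2
    have h4 : (lfR + 1 / 4) * ((1 + κ) * (n' : ℝ) ^ d) ≤ (lgR - 1 / 4) * (n' : ℝ) ^ d := by
      have h5 : (lfR + 1 / 4) * (1 + κ) ≤ lgR - 1 / 4 := by
        have h6 : (lfR + 1 / 4) * κ ≤ 1 / 4 := by
          rw [hκ, mul_one_div, div_le_div_iff₀ (by positivity) (by norm_num)]
          linarith
        linarith
      calc (lfR + 1 / 4) * ((1 + κ) * (n' : ℝ) ^ d) = ((lfR + 1 / 4) * (1 + κ)) * (n' : ℝ) ^ d := by ring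
        _ ≤ _ := mul_le_mul_of_nonneg_right h5 hnp'.le
    have h7 : (((f.eval (n : ℤ) : ℤ) : ℝ)) < ((g.eval (n' : ℤ) : ℤ) : ℝ) := by
      calc (((f.eval (n : ℤ) : ℤ) : ℝ)) < (lfR + 1 / 4) * (n : ℝ) ^ d := a1
        _ ≤ (lfR + 1 / 4) * ((1 + κ) * (n' : ℝ) ^ d) := by gcongr
        _ ≤ (lgR - 1 / 4) * (n' : ℝ) ^ d := h4
        _ < _ := a2
    exact_mod_cast h7

/-- **Equal values come from translates.** -/
theorem coin (f g : ℤ[X]) (hf : 0 < f.natDegree) (hg : 0 < g.natDegree) (lf : 0 < f.leadingCoeff) (lg : 0 < g.leadingCoeff) :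
    ∃ J0 m0 d0 : ℕ, ∀ J x n n' : ℕ, J0 ≤ J → m0 ≤ x → x - x / J < n → n ≤ x → x - x / J < n' → n' ≤ x →
      f.eval (n : ℤ) = g.eval (n' : ℤ) → |(n' : ℤ) - n| ≤ d0 ∧ f = g.comp (X + C ((n' : ℤ) - n)) := by
  rcases lt_trichotomy f.natDegree g.natDegree with h | h | h
  · obtain ⟨J0, m0, hh⟩ := no_eq f g hf hg lf lg (Or.inl h)
    refine ⟨J0, m0, 0, fun J x n n' hJ hx h1 h2 h3 h4 he => ?_⟩
    have := hh J x n n' hJ hx h1 h2 h3 h4
    omega
  · rcases lt_trichotomy f.leadingCoeff g.leadingCoeff with h' | h' | h'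
    · obtain ⟨J0, m0, hh⟩ := no_eq f g hf hg lf lg (Or.inr ⟨h, h'⟩)
      refine ⟨J0, m0, 0, fun J x n n' hJ hx h1 h2 h3 h4 he => ?_⟩
      have := hh J x n n' hJ hx h1 h2 h3 h4
      omega
    · obtain ⟨d1, hd1⟩ := shift_gt f g hf h.symm h'.symm lf
      obtain ⟨d2, hd2⟩ := shift_gt g f hg h h' lg
      obtain ⟨mf, hmf⟩ := ev_step f hf lf
      obtain ⟨mg, hmg⟩ := ev_step g hg lg
      obtain ⟨e1, he1⟩ := eventually_atTop.1 (hd1 d1 le_rfl)
      obtain ⟨e2, he2⟩ := eventually_atTop.1 (hd2 d2 le_rfl)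
      -- the roots of the differences
      have hroot : ∀ t : ℤ, ∃ mt : ℕ, f ≠ g.comp (X + C t) → ∀ m : ℕ, mt ≤ m → f.eval (m : ℤ) ≠ g.eval ((m : ℤ) + t) := by
        intro t
        by_cases hc : f = g.comp (X + C t)
        · exact ⟨0, fun h => absurd hc h⟩
        · set q : ℤ[X] := f - g.comp (X + C t) with hq
          have hq0 : q ≠ 0 := sub_ne_zero.2 hc
          have hfin : {m : ℕ | q.eval (m : ℤ) = 0}.Finite := by
            have h1 : ((fun m : ℕ => (m : ℤ)) ⁻¹' {r : ℤ | q.IsRoot r}).Finite :=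
              (Polynomial.finite_setOf_isRoot hq0).preimage (Nat.cast_injective.injOn)
            exact h1.subset (fun m hm => hm)
          obtain ⟨mt, hmt⟩ := hfin.bddAbove
          refine ⟨mt + 1, fun _ m hm heq => ?_⟩
          have h1 : m ∈ {m : ℕ | q.eval (m : ℤ) = 0} := by
            rw [Set.mem_ofPred_eq, hq, eval_sub, eval_comp]
            simp only [eval_add, eval_X, eval_C]
            linarith
          have := hmt h1
          omega
      choose mt hmt using hroot
      set d0 := d1 + d2 with hd0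
      set R := ∑ t ∈ Icc (-(d0 : ℤ)) d0, mt t with hR
      refine ⟨2, 2 * (mf + mg + e1 + e2 + d1 + d2 + R + 1), d0, fun J x n n' hJ hx h1 h2 h3 h4 he => ?_⟩
      have hxJ : x / J ≤ x / 2 := Nat.div_le_div_left hJ (by norm_num)
      have hn : mf + mg + e1 + e2 + d1 + d2 + R + 1 ≤ n := by omega
      have hn' : mf + mg + e1 + e2 + d1 + d2 + R + 1 ≤ n' := by omega
      have hup : n' < n + d1 + 1 := by
        by_contra hcon
        have a1 := he1 n (by omega)
        have a2 : g.eval ((n : ℤ) + d1) ≤ g.eval (n' : ℤ) := by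
          rcases Nat.lt_or_ge (n + d1) n' with hh | hh
          · have := hmg (n + d1) n' (by omega) hh
            push_cast at this
            exact this.le
          · omega
        omega
      have hlo : n < n' + d2 + 1 := by
        by_contra hcon
        have a1 := he2 n' (by omega)
        have a2 : f.eval ((n' : ℤ) + d2) ≤ f.eval (n : ℤ) := by
          rcases Nat.lt_or_ge (n' + d2) n with hh | hh
          · have := hmf (n' + d2) n (by omega) hh
            push_cast at this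
            exact this.le
          · omega
        omega
      have habs : |(n' : ℤ) - n| ≤ d0 := by
        rw [abs_le, hd0]
        push_cast
        constructor <;> omega
      refine ⟨habs, ?_⟩
      by_contra hcon
      have hmem : (n' : ℤ) - n ∈ Icc (-(d0 : ℤ)) d0 := by
        rw [mem_Icc]
        exact abs_le.1 habs
      have h5 : mt ((n' : ℤ) - n) ≤ R := single_le_sum (f := mt) (fun _ _ => Nat.zero_le _) hmem
      refine hmt _ hcon n (by omega) ?_
      rw [he]
      congr 1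
      ring
    · obtain ⟨J0, m0, hh⟩ := no_eq g f hg hf lg lf (Or.inr ⟨h.symm, h'⟩)
      refine ⟨J0, m0, 0, fun J x n n' hJ hx h1 h2 h3 h4 he => ?_⟩
      have := hh J x n' n hJ hx h3 h4 h1 h2
      omega
  · obtain ⟨J0, m0, hh⟩ := no_eq g f hg hf lg lf (Or.inl h)
    refine ⟨J0, m0, 0, fun J x n n' hJ hx h1 h2 h3 h4 he => ?_⟩
    have := hh J x n' n hJ hx h3 h4 h1 h2
    omega

end Pool.Agent.H559.GP
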