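import Pool.Agent.H559.GP.Gap

set_option autoImplicit false

/-! # Large gaps for all systems at once -/

open Finset MeasureTheory ProbabilityTheory Filter Topology Polynomial
open Pool.Agent.T2H32.BF (Model prob V V_pos V_anti V_ratio mertens)
open Pool.Agent.H559.BS (Limit log_top)
open Pool.Agent.H559.HY (CF CF_conv RS Cut cntF WW bh log_val cut_WW)
open Pool.Agent.H559.PV (sys_of un un_eq)

namespace Pool.Agent.H559.GP

variable {Ω : Type*} [MeasurableSpace Ω] {P : Measure Ω} {a : ℕ → Ω → ℕ}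

theorem countable_poly : Countable ℤ[X] := Cardinal.mk_le_aleph0_iff.1 (Polynomial.cardinalMk_le_max.trans (by simp))

/-- a place of `F` -/
def Place (A : Set ℕ) (F : Finset ℤ[X]) (m : ℕ) : Prop := ∀ f ∈ F, (f.eval (m : ℤ)).natAbs ∈ A

/-- the starting points of the windows without places -/
def Emp (A : Set ℕ) (F : Finset ℤ[X]) (S lam : ℝ) (X : ℕ) : Set ℕ :=
  {n : ℕ | 1 ≤ n ∧ n ≤ X ∧ ∀ m : ℕ, n < m → (m : ℝ) ≤ n + lam * un F S X * Real.log X → ¬ Place A F m}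

theorem Emp_fin (A : Set ℕ) (F : Finset ℤ[X]) (S lam : ℝ) (X : ℕ) : (Emp A F S lam X).Finite :=
  (Set.finite_Icc 1 X).subset fun _ hn => ⟨hn.1, hn.2.1⟩

theorem un_nonneg (F : Finset ℤ[X]) (S : ℝ) (hS : 0 < S) (x : ℕ) : 0 ≤ un F S x := by
  rw [un_eq]
  have : 0 ≤ Real.log x := Real.log_natCast_nonneg x
  have : 0 ≤ ∏ f ∈ F, (f.natDegree : ℝ) := prod_nonneg fun _ _ => Nat.cast_nonneg _
  positivity

theorem Emp_anti (A : Set ℕ) (F : Finset ℤ[X]) (S : ℝ) (hS : 0 < S) (lam lam' : ℝ) (h : lam ≤ lam') (X : ℕ) :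
    Emp A F S lam' X ⊆ Emp A F S lam X := by
  rintro n ⟨h1, h2, h3⟩
  refine ⟨h1, h2, fun m hm hm2 => h3 m hm (hm2.trans ?_)⟩
  have h4 := un_nonneg F S hS X
  have h5 : 0 ≤ Real.log X := Real.log_natCast_nonneg X
  have : lam * un F S X * Real.log X ≤ lam' * un F S X * Real.log X := by gcongr
  linarith

/-- the almost sure event for all systems -/
theorem allF (h : Model P a) (z W : ℕ → ℕ) (hz : Limit z) (hW : Cut W) :
    ∀ᵐ ω ∂P, ∀ F : Finset ℤ[X], (∀ f ∈ F, Pool.Agent.H559.PV.GP f) → F.Nonempty → ∀ S : ℝ, Tendsto (CF F) atTop (𝓝 S) →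
      0 < S → ∀ lam ε : ℝ, 0 < lam → 0 < ε → lam + ε < 1 → ∀ᶠ X : ℕ in atTop, (X : ℝ) ^ (1 - lam - ε) ≤
        ((Emp (RS z W (fun p => a p ω)) F S lam X).ncard : ℝ) := by
  have h1 : ∀ᵐ ω ∂P, ∀ F : Finset ℤ[X], ∀ q : ℚ × ℚ, (∀ f ∈ F, Pool.Agent.H559.PV.GP f) → F.Nonempty →
      ∀ S : ℝ, Tendsto (CF F) atTop (𝓝 S) → 0 < S → 0 < (q.1 : ℝ) → 0 < (q.2 : ℝ) → (q.1 : ℝ) + q.2 < 1 →
      ∀ᶠ X : ℕ in atTop, (X : ℝ) ^ (1 - (q.1 : ℝ) - q.2) ≤ ((Emp (RS z W (fun p => a p ω)) F S q.1 X).ncard : ℝ) := by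
    have := countable_poly
    rw [ae_all_iff]
    intro F
    rw [ae_all_iff]
    intro q
    by_cases hF : (∀ f ∈ F, Pool.Agent.H559.PV.GP f) ∧ F.Nonempty ∧ 0 < (q.1 : ℝ) ∧ 0 < (q.2 : ℝ) ∧ (q.1 : ℝ) + q.2 < 1
    · obtain ⟨hF1, hF2, hq1, hq2, hq3⟩ := hF
      obtain ⟨S0, hS0⟩ := CF_conv F (sys_of F hF1)
      by_cases hpos : 0 < S0
      · filter_upwards [gapF h z W hz hW F hF1 hF2 S0 hS0 hpos q.1 q.2 hq1 hq2 hq3] with ω hω _ _ S hS _ _ _ _
        have : S = S0 := tendsto_nhds_unique hS hS0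
        rw [this]
        exact hω
      · refine Eventually.of_forall fun ω _ _ S hS hS' _ _ _ => ?_
        have : S = S0 := tendsto_nhds_unique hS hS0
        rw [this] at hS'
        exact absurd hS' hpos
    · exact Eventually.of_forall fun ω a1 a2 S _ _ a3 a4 a5 => absurd ⟨a1, a2, a3, a4, a5⟩ hF
  filter_upwards [h1] with ω hω F hF hne S hS hS0 lam ε hlam hε hle
  obtain ⟨q1, hq1, hq1'⟩ := exists_rat_btwn (show lam < lam + ε / 2 by linarith)
  obtain ⟨q2, hq2, hq2'⟩ := exists_rat_btwn (show (0 : ℝ) < ε / 2 by linarith)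
  have h2 := hω F (q1, q2) hF hne S hS hS0 (by simp only; linarith) hq2 (by simp only; linarith)
  filter_upwards [h2, eventually_ge_atTop 1] with X hX hX1
  have hX1' : (1 : ℝ) ≤ X := by exact_mod_cast hX1
  calc (X : ℝ) ^ (1 - lam - ε) ≤ (X : ℝ) ^ (1 - (q1 : ℝ) - q2) :=
        Real.rpow_le_rpow_of_exponent_le hX1' (by linarith)
    _ ≤ ((Emp (RS z W (fun p => a p ω)) F S q1 X).ncard : ℝ) := hX
    _ ≤ _ := by
        exact_mod_cast Set.ncard_le_ncard (Emp_anti _ F S hS0 lam q1 hq1.le X) (Emp_fin _ _ _ _ _)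

/-- there are infinitely many places -/
theorem inf_places (z : ℕ → ℕ) (hz : Limit z) (c : ℝ) (hc : 1 < c) (b : ℕ → ℕ) (hOK : Pool.Agent.H559.HY.OK z (WW c) b)
    (F : Finset ℤ[X]) (hF : ∀ f ∈ F, Pool.Agent.H559.PV.GP f) (S : ℝ) (hS : Tendsto (CF F) atTop (𝓝 S)) (hS0 : 0 < S) (N : ℕ) :
    ∃ m : ℕ, N < m ∧ Place (RS z (WW c) b) F m := by
  by_contra hcon
  push Not at hcon
  have h1 := bh z hz c hc b hOK F (sys_of F hF) S hS
  have h2 : ∀ x : ℕ, cntF (RS z (WW c) b) F x ≤ N := by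
    intro x
    unfold cntF
    have h3 : {n : ℕ | 1 ≤ n ∧ n ≤ x ∧ ∀ f ∈ F, (f.eval (n : ℤ)).natAbs ∈ RS z (WW c) b} ⊆ (Set.Icc 1 N) := by
      rintro n ⟨a1, a2, a3⟩
      refine ⟨a1, ?_⟩
      by_contra h4
      exact hcon n (by omega) a3
    refine (Set.ncard_le_ncard h3 (Set.finite_Icc 1 N)).trans ?_
    rw [← Finset.coe_Icc, Set.ncard_coe_finset, Nat.card_Icc]
    omega
  have hprod : Tendsto (fun x : ℕ => (∏ f ∈ F, Real.log |((f.eval (x : ℤ) : ℤ) : ℝ)|) / x) atTop (𝓝 0) := by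
    have h1 : Tendsto (fun x : ℕ => ∏ f ∈ F, (Real.log |((f.eval (x : ℤ) : ℤ) : ℝ)| / Real.log x)) atTop
        (𝓝 (∏ f ∈ F, (f.natDegree : ℝ))) := tendsto_finsetProd _ fun f hf => by
      have := log_val f (hF f hf).deg (hF f hf).lead
      refine this.congr fun x => ?_
      rw [Real.log_abs]
    have h2 : Tendsto (fun x : ℕ => Real.log x ^ F.card / (x : ℝ)) atTop (𝓝 0) := by
      have h2 : (fun x : ℝ => Real.log x ^ F.card) =o[atTop] fun x => x ^ (1 : ℝ) := by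
        have := isLittleO_log_rpow_rpow_atTop (s := 1) (F.card : ℝ) (by norm_num)
        simpa using this
      have h3 := (h2.tendsto_div_nhds_zero).comp tendsto_natCast_atTop_atTop
      refine h3.congr fun x => ?_
      simp
    have h3 := h1.mul h2
    rw [mul_zero] at h3
    refine h3.congr' ?_
    filter_upwards [log_top.eventually_ge_atTop 1] with x hx
    rw [prod_div_distrib, prod_const]
    have : 0 < Real.log x ^ F.card := pow_pos (by linarith) _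
    field_simp
  have h3 : Tendsto (fun x : ℕ => (cntF (RS z (WW c) b) F x : ℝ) * (∏ f ∈ F, Real.log |((f.eval (x : ℤ) : ℤ) : ℝ)|) / x)
      atTop (𝓝 0) := by
    have h4 : Tendsto (fun x : ℕ => (N : ℝ) * |(∏ f ∈ F, Real.log |((f.eval (x : ℤ) : ℤ) : ℝ)|) / x|) atTop (𝓝 0) := by
      have := hprod.abs.const_mul (N : ℝ)
      rw [abs_zero, mul_zero] at this
      exact this
    refine squeeze_zero_norm (fun x => ?_) h4
    rw [mul_div_assoc, norm_mul, Real.norm_eq_abs, Real.norm_eq_abs, abs_of_nonneg (Nat.cast_nonneg _)]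
    exact mul_le_mul_of_nonneg_right (by exact_mod_cast h2 x) (abs_nonneg _)
  have h5 := tendsto_nhds_unique h1 h3
  linarith

/-- consecutive places with a large gap -/
theorem consec (A : Set ℕ) (F : Finset ℤ[X]) (hinf : ∀ N : ℕ, ∃ m : ℕ, N < m ∧ Place A F m) (S : ℝ) (hS0 : 0 < S)
    (hgap : ∀ lam ε : ℝ, 0 < lam → 0 < ε → lam + ε < 1 → ∀ᶠ X : ℕ in atTop, (X : ℝ) ^ (1 - lam - ε) ≤
        ((Emp A F S lam X).ncard : ℝ)) (lam : ℝ) (hlam : lam < 1) :
    ∀ᶠ X : ℕ in atTop, ∃ m m' : ℕ, m < m' ∧ m ≤ X ∧ Place A F m ∧ Place A F m' ∧ (∀ u, m < u → u < m' → ¬ Place A F u) ∧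
      lam * un F S X * Real.log X ≤ (m' : ℝ) - m := by
  classical
  set l := max lam (1 / 2) with hl
  have hl0 : 0 < l := lt_of_lt_of_le (by norm_num) (le_max_right _ _)
  have hl1 : l < 1 := max_lt hlam (by norm_num)
  have hg := hgap l ((1 - l) / 2) hl0 (by linarith) (by linarith)
  obtain ⟨m0, _, hm0⟩ := hinf 0
  have htop : Tendsto (fun X : ℕ => (X : ℝ) ^ (1 - l - (1 - l) / 2)) atTop atTop :=
    (tendsto_rpow_atTop (by linarith)).comp tendsto_natCast_atTop_atTop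
  filter_upwards [hg, htop.eventually_gt_atTop (m0 : ℝ)] with X h1 h2
  have h3 : m0 < (Emp A F S l X).ncard := by exact_mod_cast h2.trans_le h1
  -- an element above `m0`
  obtain ⟨n, hn, hnm⟩ : ∃ n ∈ Emp A F S l X, m0 < n := by
    by_contra hcon
    push Not at hcon
    have h4 : Emp A F S l X ⊆ Set.Icc 1 m0 := fun n hn => ⟨hn.1, hcon n hn⟩
    have h5 := Set.ncard_le_ncard h4 (Set.finite_Icc 1 m0)
    rw [← Finset.coe_Icc, Set.ncard_coe_finset, Nat.card_Icc] at h5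
    omega
  obtain ⟨hn1, hn2, hn3⟩ := hn
  -- the last place up to `n`
  have hex : ∃ m, m ≤ n ∧ Place A F m := ⟨m0, by omega, hm0⟩
  set m := Nat.findGreatest (fun m => Place A F m) n with hm
  have hmP : Place A F m := Nat.findGreatest_spec (P := fun m => Place A F m) (show m0 ≤ n by omega) hm0
  have hmn : m ≤ n := Nat.findGreatest_le n
  have hmax : ∀ u, m < u → u ≤ n → ¬ Place A F u := fun u hu hun => Nat.findGreatest_is_greatest hu hun
  have hex2 : ∃ m', n < m' ∧ Place A F m' := hinf n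
  refine ⟨m, Nat.find hex2, ?_, hmn.trans hn2, hmP, (Nat.find_spec hex2).2, ?_, ?_⟩
  · exact lt_of_le_of_lt hmn (Nat.find_spec hex2).1
  · intro u hu hu' hP
    rcases Nat.lt_or_ge n u with h4 | h4
    · exact Nat.find_min hex2 hu' ⟨h4, hP⟩
    · exact hmax u hu h4 hP
  · have h4 := Nat.find_spec hex2
    set m' := Nat.find hex2 with hm'
    by_contra hcon
    rw [not_le] at hcon
    refine hn3 m' h4.1 ?_ h4.2
    have h5 : lam * un F S X * Real.log X ≤ l * un F S X * Real.log X := by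
      have := un_nonneg F S hS0 X
      have : 0 ≤ Real.log X := Real.log_natCast_nonneg X
      have : lam ≤ l := le_max_left _ _
      gcongr
    have h6 : (m : ℝ) ≤ n := by exact_mod_cast hmn
    linarith

end Pool.Agent.H559.GP
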