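import Pool.Agent.H559.GP.As
import Pool.Agent.H559.PV.Fin

set_option autoImplicit false

/-! # Large gaps between the places of a system -/

open Finset MeasureTheory ProbabilityTheory Filter Topology Polynomial
open Pool.Agent.T2H32.BF (Model prob V V_pos V_anti V_ratio mertens)
open Pool.Agent.H559.BS (Limit TT TT_le TT_ge TT_top log_TT V_TT log_pow_le log_top g g_pos bc)
open Pool.Agent.H559.HY (Arr evl cls arr evl_arr Sg Om base base_sub box mem_box Cut not_mem_rts pos fam fam_le fam_deg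
  fam_ne CF CF_eq CF_conv good_arr pow_top log_TT_lim div_lim mul_lim log_lin growth RS prod_fam)
open Pool.Agent.H559.PV (Gd Row GP_comp sys_of not_shift comp_inj un un_eq)

namespace Pool.Agent.H559.GP

variable {Ω : Type*} [MeasurableSpace Ω] {P : Measure Ω} {a : ℕ → Ω → ℕ}

theorem two_pow_top : Tendsto (fun j : ℕ => 2 ^ j) atTop atTop := tendsto_pow_atTop_atTop_of_one_lt (by norm_num)

theorem two_pow_small (α : ℝ) (hα : 0 < α) : ∀ᶠ j : ℕ in atTop, (((2 ^ j : ℕ)) : ℝ) ^ (-α) ≤ 1 / (j : ℝ) ^ 2 := by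
  have hl2 : 0 < Real.log 2 := Real.log_pos (by norm_num)
  filter_upwards [two_pow_top.eventually (log_pow_le 2 α (1 / Real.log 2 ^ 2) hα), eventually_ge_atTop 1] with j h1 h2
  have hj : (0 : ℝ) < j := by exact_mod_cast h2
  have hx : (0 : ℝ) < ((2 ^ j : ℕ) : ℝ) := by positivity
  have h3 : Real.log ((2 ^ j : ℕ) : ℝ) = j * Real.log 2 := by
    rw [Nat.cast_pow, Real.log_pow]
    norm_num
  rw [h3] at h1
  have h4 : 1 / Real.log 2 ^ 2 * (j * Real.log 2) ^ 2 = (j : ℝ) ^ 2 := by field_simp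
  rw [h4] at h1
  rw [Real.rpow_neg hx.le, ← one_div]
  exact one_div_le_one_div_of_le (by positivity) h1

/-- the product of the degrees -/
theorem prod_deg (F : Finset ℤ[X]) :
    ∏ i, (1 / ((fam F i).natDegree : ℝ)) = 1 / ∏ f ∈ F, (f.natDegree : ℝ) := by
  rw [prod_fam, one_div, ← prod_inv_distrib]
  refine prod_congr rfl fun i _ => ?_
  unfold fam
  rw [Pool.Agent.H559.HY.pos_deg, one_div]

/-- a window longer than the gap -/
theorem long (K lam η : ℝ) (hK : 0 < K) (hlam : 0 < lam) (hη : 0 < η) (q : ℕ) (hq : 1 ≤ q) :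
    ∀ᶠ x : ℕ in atTop, ∀ X : ℕ, x ≤ X → X ≤ 2 * x → lam * K * Real.log X ^ q ≤ ⌊(lam + η) * K * Real.log x ^ q⌋₊ := by
  have h1 := ((mul_lim 2 (by norm_num)).2.pow q).const_mul (lam * K)
  rw [one_pow, mul_one] at h1
  have h2 : lam * K < (lam + η / 2) * K := by nlinarith
  have h3 : Tendsto (fun x : ℕ => (η / 2 * K) * Real.log x ^ q) atTop atTop :=
    ((tendsto_pow_atTop (by omega)).comp log_top).const_mul_atTop (by positivity)
  filter_upwards [h1.eventually_lt_const h2, h3.eventually_ge_atTop 1, log_top.eventually_ge_atTop 1,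
    eventually_ge_atTop 1] with x a1 a2 a3 a4 X hX1 hX2
  have hL0 : 0 < Real.log x := by linarith
  rw [div_pow, mul_div_assoc', div_lt_iff₀ (by positivity)] at a1
  have h4 : Real.log X ≤ Real.log ((2 * x : ℕ) : ℝ) :=
    Real.log_le_log (by exact_mod_cast (by omega : 0 < X)) (by exact_mod_cast hX2)
  have h5 : 0 ≤ Real.log X := Real.log_natCast_nonneg X
  have h6 : lam * K * Real.log X ^ q ≤ lam * K * Real.log ((2 * x : ℕ) : ℝ) ^ q := by gcongr
  have h7 := Nat.lt_floor_add_one ((lam + η) * K * Real.log x ^ q)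
  have h8 : (lam + η) * K * Real.log x ^ q = (lam + η / 2) * K * Real.log x ^ q + (η / 2 * K) * Real.log x ^ q := by ring
  linarith

/-- **Large gaps between the places of a system.** -/
theorem gapF (h : Model P a) (z W : ℕ → ℕ) (hz : Limit z) (hW : Cut W) (F : Finset ℤ[X])
    (hF : ∀ f ∈ F, Pool.Agent.H559.PV.GP f) (hne : F.Nonempty) (S : ℝ) (hS : Tendsto (CF F) atTop (𝓝 S)) (hS0 : 0 < S)
    (lam ε : ℝ) (hlam : 0 < lam) (hε : 0 < ε) (hle : lam + ε < 1) :
    ∀ᵐ ω ∂P, ∀ᶠ X : ℕ in atTop, (X : ℝ) ^ (1 - lam - ε) ≤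
      ({n : ℕ | 1 ≤ n ∧ n ≤ X ∧ ∀ m : ℕ, n < m → (m : ℝ) ≤ n + lam * un F S X * Real.log X →
        ¬ ∀ f ∈ F, (f.eval (m : ℤ)).natAbs ∈ RS z W (fun p => a p ω)}.ncard : ℝ) := by
  classical
  have := prob h
  have hg := g_pos
  set η : ℝ := ε / 100 with hη
  have hη0 : 0 < η := by positivity
  have hη1 : η ≤ 1 / 100 := by
    rw [hη]
    linarith
  set Pd : ℝ := ∏ f ∈ F, (f.natDegree : ℝ) with hPd
  have hPd1 : 1 ≤ Pd := by
    have h1 : ∏ _f ∈ F, (1 : ℝ) ≤ Pd := prod_le_prod (fun _ _ => zero_le_one) fun f hf => by exact_mod_cast (hF f hf).deg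
    rwa [prod_const_one] at h1
  set K : ℝ := Pd / S with hK
  have hK0 : 0 < K := by positivity
  set κ : ℝ := (lam + η) * K with hκ
  have hκ0 : 0 < κ := by positivity
  set k := F.card with hk
  have hk1 : 1 ≤ k := hne.card_pos
  obtain ⟨J0, m0, d0, hsp⟩ := spc_cover F hF
  set J := max J0 2 with hJd
  have hJ2 : 2 ≤ J := le_max_right _ _
  set Q : Finset ℤ := (Icc (-(d0 : ℤ)) d0).filter (fun t => t ≠ 0) with hQ
  set A := AF F with hA
  have hA1 : 1 ≤ A := by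
    rw [hA]
    unfold AF
    omega
  -- the choice of `δ`
  have hex : ∃ δ : ℝ, (0 < δ ∧ δ ≤ min (g * (1 / 4) / 16) (g * η / 2)) ∧ (∀ᵐ ω ∂P, ∀ᶠ x : ℕ in atTop, ∀ k0 : ℕ,
      ((base (aF F) (W (TT (1 / 4) x)) (W (x ^ A)) true (TT δ x) k0 (x / J) (fun p => a p ω)).card : ℝ) ≤
        (1 + η) * ((S * (g / δ) ^ F.card) * (((x / J : ℕ) : ℝ) / Real.log x ^ F.card))) ∧
      ∃ C2 : ℝ, 0 ≤ C2 ∧ ∀ᵐ ω ∂P, ∀ᶠ x : ℕ in atTop, ∀ k0 : ℕ,
      ((Q.biUnion (fun t => base (aF (sh F t)) (W (TT (1 / 4) x)) (W (x ^ A)) true (TT δ x) k0 (x / J)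
        (fun p => a p ω))).card : ℝ) ≤ C2 * (((x / J : ℕ) : ℝ) / Real.log x ^ (F.card + 1)) := by
    have h1 := levs h z W hz hW F hF A hA1 S hS hS0 η hη0 (by linarith) J (by omega)
    have h2 := levu h z W hz hW F hF hne A hA1 J (by omega) Q (fun t ht => (mem_filter.1 ht).2)
    have h3 : ∀ᶠ δ in 𝓝[>] (0 : ℝ), δ ∈ Set.Ioc 0 (min (g * (1 / 4) / 16) (g * η / 2)) :=
      Ioc_mem_nhdsGT (by positivity)
    obtain ⟨δ, a1, a2, a3⟩ := (h3.and (h1.and h2)).exists
    exact ⟨δ, a1, a2, a3⟩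
  obtain ⟨δ, ⟨hδ, hδm⟩, hA1', C2, hC2, hA2'⟩ := hex
  have hδg : 16 * δ ≤ g * (1 / 4) := by
    have := hδm.trans (min_le_left _ _)
    linarith
  have hδη : δ ≤ g * η / 2 := hδm.trans (min_le_right _ _)
  set Sb : ℝ := S * (g / δ) ^ k with hSb
  have hSb0 : 0 < Sb := by positivity
  set si : ℝ := (∏ i, (1 / ((fam F i).natDegree : ℝ))) / (g / δ) ^ F.card with hsi
  have hsiv : si = 1 / Pd / (g / δ) ^ k := by rw [hsi, prod_deg]
  have hsi0 : 0 < si := by
    rw [hsiv]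
    positivity
  have hsi1 : si ≤ η / 2 := by
    rw [hsiv]
    have h1 : 1 / Pd ≤ 1 := by
      rw [div_le_one (by linarith)]
      exact hPd1
    have h2 : 2 / η ≤ g / δ := by
      rw [div_le_div_iff₀ hη0 hδ]
      linarith
    have h2' : 1 ≤ g / δ := by
      refine le_trans ?_ h2
      rw [le_div_iff₀ hη0]
      linarith
    have h3 : g / δ ≤ (g / δ) ^ k := le_self_pow₀ h2' (by omega)
    rw [div_le_iff₀ (by positivity)]
    have h4 : 1 ≤ η / 2 * (2 / η) := le_of_eq (by field_simp)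
    have h5 : η / 2 * (2 / η) ≤ η / 2 * (g / δ) ^ k := mul_le_mul_of_nonneg_left (h2.trans h3) (by positivity)
    linarith
  set s : ℝ := (1 + η) * si with hs
  have hsi2 : si < s := by
    rw [hs]
    nlinarith
  have hsη : s ≤ η := by
    rw [hs]
    nlinarith
  have hkey : κ * Sb * si = lam + η := by
    rw [hκ, hSb, hsiv, hK]
    have : (g / δ) ^ k ≠ 0 := by positivity
    have : Pd ≠ 0 := by positivity
    field_simp
  set τ : ℝ := lam + ε / 2 with hτ
  set θ : ℝ := (1 + 2 * η) * (1 + 2 * η) * κ * Sb * s with hθ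
  have hθτ : θ < τ := by
    have h1 : θ = (1 + 2 * η) * (1 + 2 * η) * (1 + η) * (lam + η) := by
      rw [hθ, hs, ← hkey]
      ring
    have h2 : (1 + 2 * η) * (1 + 2 * η) * (1 + η) ≤ 1 + 6 * η := by nlinarith [mul_pos hη0 hη0, mul_pos (mul_pos hη0 hη0) hη0]
    have h3 : (1 + 2 * η) * (1 + 2 * η) * (1 + η) * (lam + η) ≤ (1 + 6 * η) * (lam + η) :=
      mul_le_mul_of_nonneg_right h2 (by positivity)
    have h4 : (1 + 6 * η) * (lam + η) ≤ lam + 8 * η := by nlinarith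
    have h5 : ε = 100 * η := by rw [hη]; ring
    rw [h1, hτ, h5]
    linarith
  obtain ⟨c0, hc0⟩ : ∃ c0 : ℕ, (AF F : ℝ) + 1 ≤ δ * (c0 + 1) := by
    obtain ⟨n, hn⟩ := exists_nat_ge (((AF F : ℝ) + 1) / δ)
    refine ⟨n, ?_⟩
    rw [div_le_iff₀ hδ] at hn
    nlinarith
  obtain ⟨C1, hC1⟩ : ∃ C1 : ℕ, 2 * κ * C2 / (η / 12) ≤ C1 := exists_nat_ge _
  set i0 : Fin F.card := ⟨0, hk1⟩ with hi0
  set ℓ : ℕ → ℕ := fun x => ⌊κ * Real.log x ^ (F.card + 1)⌋₊ with hℓd
  set M : ℕ → ℕ := fun x => ⌊(1 + 2 * η) * κ * Sb * Real.log x⌋₊ with hMd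
  set Nw : ℕ → ℕ := fun x => (x / J) / ℓ x with hNw
  set U : Ω → ℕ → Finset ℕ := fun ω x =>
    base (aF F) (W (TT (1 / 4) x)) (W (x ^ A)) true (TT δ x) (x - x / J) (x / J) (fun p => a p ω) with hU
  set Gd' : ℕ → Finset ℕ → Prop := fun x V =>
    (V.card : ℝ) ≤ (1 - 3 * (η / 12)) * (((M x + 1 : ℕ) : ℝ) * (Nw x : ℝ)) ∧
      ∃ S' : Finset ℕ, (∀ n ∈ V, spc (aF F) V n → n ∈ S') ∧ (S'.card : ℝ) ≤ η / 12 * (((C1 + 1 : ℕ) : ℝ) * (Nw x : ℝ)) with hGd
  have hP := mainP h z hz (fun x => W (TT (1 / 4) x)) (fun x => W (x ^ A)) F hF J hJ2 i0 δ hδ hδg c0 hc0 κ Sb η s θ τ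
    hκ0 hSb0 hη0 hη1 hsi2 hsη le_rfl hθτ C1 Gd' (fun x V hV => hV)
  have hτ1 : 0 < 1 - τ := by
    rw [hτ]
    linarith
  have hBC := bc (P := P) (fun j : ℕ => {ω | Gd' (2 ^ j) (U ω (2 ^ j)) ∧
      (Em (aF F) z i0 (TT δ (2 ^ j)) (z ((2 ^ j) ^ AF F)) (2 ^ j - 2 ^ j / J) (ℓ (2 ^ j)) (Nw (2 ^ j)) (U ω (2 ^ j))
        (fun p => a p ω) : ℝ) < ((2 ^ j : ℕ) : ℝ) ^ (1 - τ) / 4}) 40 (by norm_num) (by
    filter_upwards [two_pow_top.eventually hP, two_pow_small (1 - τ) hτ1, two_pow_small (δ / 4) (by positivity)] with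
      j b1 b2 b3
    refine b1.trans ?_
    have b4 : 8 / ((2 ^ j : ℕ) : ℝ) ^ (1 - τ) = 8 * ((2 ^ j : ℕ) : ℝ) ^ (-(1 - τ)) := by
      rw [Real.rpow_neg (by positivity)]
      ring
    rw [b4]
    have b5 : 40 / (j : ℝ) ^ 2 = 8 * (1 / (j : ℝ) ^ 2) + 4 * (8 * (1 / (j : ℝ) ^ 2)) := by ring
    rw [b5]
    linarith)
  have hℓ : ∀ᶠ x : ℕ in atTop, ℓ x ≤ TT δ x := by
    filter_upwards [log_pow_le (F.card + 1) δ κ hδ] with x hx
    simp only [hℓd]
    unfold TT
    exact Nat.floor_le_floor hx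
  have hwd := wd_ev F hF z hz J hJ2 i0 δ hδ hδg c0 hc0 ℓ M hℓ s hsi2 (by linarith)
  have hlog2 : Tendsto (fun X : ℕ => Nat.log 2 X) atTop atTop := by
    refine tendsto_atTop.2 fun b => ?_
    filter_upwards [eventually_ge_atTop (2 ^ b)] with X hX
    exact Nat.le_log_of_pow_le (by norm_num) hX
  have hpow8 : ∀ᶠ x : ℕ in atTop, 8 ≤ (x : ℝ) ^ (ε / 2) :=
    ((tendsto_rpow_atTop (by positivity)).comp tendsto_natCast_atTop_atTop).eventually_ge_atTop 8
  filter_upwards [hA1', hA2', hBC] with ω hω1 hω2 hω3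
  -- the facts along the powers of two
  have hfin : ∀ᶠ j : ℕ in atTop, ∀ X : ℕ, 2 ^ j ≤ X → X ≤ 2 * 2 ^ j → (X : ℝ) ^ (1 - lam - ε) ≤
      ({n : ℕ | 1 ≤ n ∧ n ≤ X ∧ ∀ m : ℕ, n < m → (m : ℝ) ≤ n + lam * un F S X * Real.log X →
        ¬ ∀ f ∈ F, (f.eval (m : ℤ)).natAbs ∈ RS z W (fun p => a p ω)}.ncard : ℝ) := by
    filter_upwards [two_pow_top.eventually hω1, two_pow_top.eventually hω2, hω3, two_pow_top.eventually hwd,
      two_pow_top.eventually (numA κ Sb η hκ0 hSb0 hη0 hη1 k J (by omega)),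
      two_pow_top.eventually (numB κ C2 (η / 12) hκ0 (by positivity) k J C1 (by omega) hC1),
      two_pow_top.eventually (long K lam η hK0 hlam hη0 (k + 1) (by omega)), two_pow_top.eventually hpow8,
      two_pow_top.eventually (hW.small A δ hA1 hδ), two_pow_top.eventually (eventually_ge_atTop (m0 + 2)),
      two_pow_top.eventually (wn2 κ hκ0 (k + 1) J (by omega) (by omega) (1 / 2) (by norm_num))] with
      j b1 b2 b3 b4 b5 b6 b7 b8 b9 b10 b11 X hX1 hX2
    set x : ℕ := 2 ^ j with hx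
    have hx0 : (0 : ℝ) < x := by exact_mod_cast (by omega : 0 < x)
    have e : x - x / J + x / J = x := Nat.sub_add_cancel (Nat.div_le_self _ _)
    have hxJ : x / J ≤ x / 2 := Nat.div_le_div_left hJ2 (by norm_num)
    -- the condition
    have hgood : Gd' x (U ω x) := by
      refine ⟨?_, Q.biUnion (fun t => base (aF (sh F t)) (W (TT (1 / 4) x)) (W (x ^ A)) true (TT δ x) (x - x / J) (x / J)
        (fun p => a p ω)), ?_, ?_⟩
      · exact (b1 (x - x / J)).trans b5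
      · intro n hn hs
        exact hsp J x (le_max_left _ _) (by omega) _ _ _ _ n hn hs
      · exact (b2 (x - x / J)).trans b6
    have hEm : (x : ℝ) ^ (1 - τ) / 4 ≤ (Em (aF F) z i0 (TT δ x) (z (x ^ AF F)) (x - x / J) (ℓ x) (Nw x) (U ω x)
        (fun p => a p ω) : ℝ) := by
      by_contra hcon
      rw [not_le] at hcon
      exact b3 ⟨hgood, hcon⟩
    -- the counting
    set I := (range (Nw x)).filter (fun i => ∀ n ∈ win (U ω x) (x - x / J) (ℓ x) i,
      ∃ p ∈ (Ioc (TT δ x) (z (x ^ AF F))).filter Nat.Prime, a p ω ∈ kz (aF F) z (spc (aF F) (U ω x)) i0 p n) with hI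
    have hEI : Em (aF F) z i0 (TT δ x) (z (x ^ AF F)) (x - x / J) (ℓ x) (Nw x) (U ω x) (fun p => a p ω) = I.card := rfl
    rw [hEI] at hEm
    have hℓ1 : 1 ≤ ℓ x := b11.1
    have hNwℓ : Nw x * ℓ x ≤ x / J := Nat.div_mul_le_self _ _
    set G := {n : ℕ | 1 ≤ n ∧ n ≤ X ∧ ∀ m : ℕ, n < m → (m : ℝ) ≤ n + lam * un F S X * Real.log X →
        ¬ ∀ f ∈ F, (f.eval (m : ℤ)).natAbs ∈ RS z W (fun p => a p ω)} with hG
    have hGf : G.Finite := (Set.finite_Icc 1 X).subset fun n hn => ⟨hn.1, hn.2.1⟩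
    have hcard : I.card ≤ G.ncard := by
      have h1 : ((I.image (fun i => x - x / J + i * ℓ x) : Finset ℕ) : Set ℕ) ⊆ G := by
        intro n hn
        rw [Finset.mem_coe, mem_image] at hn
        obtain ⟨i, hi, rfl⟩ := hn
        rw [hI, mem_filter, mem_range] at hi
        obtain ⟨hi1, hi2⟩ := hi
        have hi3 : (i + 1) * ℓ x ≤ x / J := (Nat.mul_le_mul_right _ hi1).trans hNwℓ
        have hi4 : (i + 1) * ℓ x = i * ℓ x + ℓ x := by ring
        refine ⟨by omega, by omega, fun m hm1 hm2 hpl => ?_⟩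
        have hlen : lam * un F S X * Real.log X ≤ ℓ x := by
          have h2 : lam * un F S X * Real.log X = lam * K * Real.log X ^ (k + 1) := by
            rw [un_eq, hK, pow_succ]
            ring
          rw [h2]
          exact b7 X hX1 hX2
        have hm3 : m ≤ x - x / J + i * ℓ x + ℓ x := by
          have h2 : (m : ℝ) ≤ ((x - x / J + i * ℓ x : ℕ) : ℝ) + ℓ x := hm2.trans (by linarith)
          exact_mod_cast h2
        have hmI : m ∈ Ioc (x - x / J) (x - x / J + x / J) := by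
          rw [mem_Ioc]
          omega
        have hv := b4.val m hmI
        have hps := place_sub (aF F) z (spc (aF F) (U ω x)) i0 W hz.1 hW.mono (fun p => a p ω) (W (TT (1 / 4) x)) (W (x ^ A))
          (TT δ x) (x - x / J) (x / J) m (TT (1 / 4) x) (x ^ A) le_rfl le_rfl b9 b4.Tz hmI hv (fun i' => by
            have h3 := hpl (fam F i') (fam_mem F hF i')
            have h4 := (hv i').1
            rw [evl_aF] at h4 ⊢
            have h5 : ((fam F i').eval (m : ℤ)).toNat = ((fam F i').eval (m : ℤ)).natAbs := by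
              have : (0 : ℤ) ≤ ((TT (1 / 4) x : ℕ) : ℤ) := Int.natCast_nonneg _
              omega
            rw [h5]
            exact h3)
        obtain ⟨p, hp, hpk⟩ := hi2 m (by
          unfold win
          rw [mem_filter]
          exact ⟨hps.1, hm1, by omega⟩)
        rw [mem_filter, mem_Ioc] at hp
        exact hps.2 p hp.2 hp.1.1 hpk
      have h2 := Set.ncard_le_ncard h1 hGf
      rw [Set.ncard_coe_finset, card_image_of_injective] at h2
      · exact h2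
      · intro i i' hii
        have h3 : i * ℓ x = i' * ℓ x := by
          have : x - x / J + i * ℓ x = x - x / J + i' * ℓ x := hii
          omega
        exact Nat.eq_of_mul_eq_mul_right (by omega) h3
    have hX : (X : ℝ) ^ (1 - lam - ε) ≤ (x : ℝ) ^ (1 - τ) / 4 := by
      have h1 : (X : ℝ) ≤ 2 * x := by exact_mod_cast hX2
      have h2 : 0 < 1 - lam - ε := by linarith
      calc (X : ℝ) ^ (1 - lam - ε) ≤ (2 * x : ℝ) ^ (1 - lam - ε) := Real.rpow_le_rpow (Nat.cast_nonneg _) h1 h2.le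
        _ = 2 ^ (1 - lam - ε) * (x : ℝ) ^ (1 - lam - ε) := Real.mul_rpow (by norm_num) hx0.le
        _ ≤ 2 * (x : ℝ) ^ (1 - lam - ε) := by
            gcongr
            calc (2 : ℝ) ^ (1 - lam - ε) ≤ 2 ^ (1 : ℝ) := Real.rpow_le_rpow_of_exponent_le (by norm_num) (by linarith)
              _ = 2 := Real.rpow_one _
        _ = 8 * (x : ℝ) ^ (1 - lam - ε) / 4 := by ring
        _ ≤ (x : ℝ) ^ (ε / 2) * (x : ℝ) ^ (1 - lam - ε) / 4 := by gcongr
        _ = (x : ℝ) ^ (1 - τ) / 4 := by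
            rw [← Real.rpow_add hx0]
            congr 2
            rw [hτ]
            ring
    calc (X : ℝ) ^ (1 - lam - ε) ≤ (x : ℝ) ^ (1 - τ) / 4 := hX
      _ ≤ (I.card : ℝ) := hEm
      _ ≤ (G.ncard : ℝ) := by exact_mod_cast hcard
  filter_upwards [hlog2.eventually hfin, eventually_ge_atTop 1] with X hX hX1
  have h1 := Nat.pow_log_le_self 2 (show X ≠ 0 by omega)
  have h2 := Nat.lt_pow_succ_log_self (show 1 < 2 by norm_num) X
  exact hX X h1 (by
    rw [pow_succ] at h2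
    omega)

end Pool.Agent.H559.GP
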