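import Pool.Agent.H559.PV.Eng

set_option autoImplicit false

/-! # The number of the survivors of the sieve by the primes up to a small power of `x` -/

open Finset MeasureTheory ProbabilityTheory Filter Topology
open Pool.Agent.T2H32.BF (Model prob V V_pos V_anti V_ratio recip_le mertens)
open Pool.Agent.H559.BS (Limit TT TT_le TT_ge TT_top log_TT V_TT log_pow_le log_top g g_pos sum_sq)
open Pool.Agent.H559.HY (Arr evl rts rts_sub card_le_p Sg Sg_nonneg up_dens tt K2 K2_pos X wt Om base box mem_box Cut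
  TT_pow pow_top Facts facts_ev)
open Pool.Agent.H559.PV (Gd Row Om_card ev2)

namespace Pool.Agent.H559.GP

variable {Ω : Type*} [MeasurableSpace Ω] {P : Measure Ω} {a : ℕ → Ω → ℕ}

theorem lev (h : Model P a) (z W : ℕ → ℕ) (hz : Limit z) (hW : Cut W) (k D A P0 B : ℕ) (hA : 1 ≤ A) (ε : ℝ)
    (hε : 0 < ε) (hε1 : ε ≤ 1) : ∃ δ0 : ℝ, 0 < δ0 ∧ δ0 ≤ 1 ∧ ∀ δ : ℝ, 0 < δ → δ ≤ δ0 →
    ∀ᵐ ω ∂P, ∀ᶠ x : ℕ in atTop, ∀ C ∈ box k D (x ^ A), (∀ p, p.Prime → P0 < p → Gd C p) → Row C →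
      ∀ k0 y : ℕ, ((base C (W (TT (1 / 4) x)) (W (x ^ A)) true (TT δ x) k0 y (fun p => a p ω)).card : ℝ) ≤
        (1 + ε) * (y * (Sg C (W (TT (1 / 4) x)) * V (TT δ x) ^ k)) + x / Real.log x ^ B := by
  have hprob := prob h
  have hg := g_pos
  have hK := K2_pos k D
  have hA0 : (0 : ℝ) < A := by exact_mod_cast hA
  obtain ⟨Bf, Kf, hKf, hfl⟩ := Pool.Agent.T2H32.GB.flg (2 * (k * D) + 2 * P0) (ε / 4) (by positivity)
  have hBf0 : (0 : ℝ) ≤ Bf := Nat.cast_nonneg _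
  refine ⟨min (min (1 / (2 * ((Bf : ℝ) + 1))) (g * (1 / 4) / 16)) 1, by positivity, min_le_right _ _, fun δ hδ hδ0 => ?_⟩
  have hδ1 : δ ≤ 1 := hδ0.trans (min_le_right _ _)
  have hδ1' : δ ≤ 1 / (2 * ((Bf : ℝ) + 1)) := hδ0.trans ((min_le_left _ _).trans (min_le_left _ _))
  have hδ2 : 16 * δ ≤ g * (1 / 4) := by
    have : δ ≤ g * (1 / 4) / 16 := hδ0.trans ((min_le_left _ _).trans (min_le_right _ _))
    linarith
  have hδB : δ * Bf ≤ 1 / 2 := by
    calc δ * Bf ≤ 1 / (2 * ((Bf : ℝ) + 1)) * Bf := by gcongr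
      _ ≤ 1 / 2 := by
          rw [div_mul_eq_mul_div, div_le_div_iff₀ (by positivity) (by norm_num)]
          linarith
  have he : 0 < min (ε / 8) 1 := by positivity
  have hF := facts_ev z W hz hW k D A P0 B Bf hA (1 / 4) δ ε Kf (by norm_num) (by norm_num) hδ hδ1 hδ2 hε hKf hδB
  have hwt : Tendsto (fun x : ℕ => ((W (x ^ A) : ℕ) : ℝ) / Real.log x) atTop atTop := by
    have h1 := hW.top.comp (pow_top A hA)
    refine tendsto_atTop_mono' atTop ?_ h1
    filter_upwards [log_top.eventually_ge_atTop 1] with x hx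
    simp only [Function.comp_apply, Nat.cast_pow, Real.log_pow]
    have h2 : (1 : ℝ) ≤ A := by exact_mod_cast hA
    have h3 : (0 : ℝ) ≤ (W (x ^ A) : ℝ) := Nat.cast_nonneg _
    gcongr
    nlinarith
  have hE2 := ev2 h k D (4 * A) P0 (min (ε / 8) 1) he (min_le_right _ _) (fun x => W (x ^ A)) hwt
  filter_upwards [hE2] with ω hω2
  filter_upwards [hω2, hF] with x hx2 hf C hCb hC hRow k0 y
  obtain ⟨x2, L1, T1, TA, w1a, w1b, w1c, w12, w2T, lo3, slow, Tz, zA, VT, E⟩ := hf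
  set T := TT δ x with hTd
  set w1 := W (TT (1 / 4) x) with hw1
  set w2 := W (x ^ A) with hw2
  set b : ℕ → ℕ := fun p => a p ω with hb
  have hLB : 0 < Real.log x ^ B := pow_pos (by linarith) B
  have hx0 : (0 : ℝ) < x := by
    have : (2 : ℝ) ≤ x := by exact_mod_cast x2
    linarith
  have hXB : 0 ≤ (x : ℝ) / Real.log x ^ B := by positivity
  have hSg := Sg_nonneg C w1
  have hbox : C ∈ box k D (x ^ (4 * A)) := by
    rw [mem_box] at hCb ⊢
    intro i j
    refine (hCb i j).trans ?_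
    exact_mod_cast Nat.pow_le_pow_right (by omega) (by omega)
  have hXs : |∑ p ∈ (Ioc w2 T).filter Nat.Prime, X C p (b p)| ≤ ε / 8 :=
    (hx2 C hbox hC hRow T TA).le.trans (min_le_left _ _)
  have htt : tt k D (ε / 8) (ε / (16 * K2 k D)) w1 ≤ 3 * ε / 8 := by
    unfold tt
    have : 2 * K2 k D * (ε / (16 * K2 k D)) = ε / 8 := by
      field_simp
      norm_num
    rw [this]
    linarith
  have h3 := hfl T (Om C w1 w2 true b) (fun p _ hpp => Om_card C w1 w2 P0 true b p hpp hC) k0 y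
  have h4 := up_dens C w1 w2 T T b (fun _ => T) w12 w2T w1a (ε / 8) _ slow hXs (fun _ => le_rfl) (fun _ => le_rfl)
  rw [Ioc_self, filter_empty, prod_empty, mul_one, prod_const, card_univ, Fintype.card_fin] at h4
  set Dn := ∏ p ∈ (range (T + 1)).filter Nat.Prime, (1 - ((Om C w1 w2 true b p).card : ℝ) / p) with hDn
  have h6 := (abs_le.1 h3).2
  set bc : ℝ := ((base C w1 w2 true T k0 y b).card : ℝ) with hbc
  have h6' : bc ≤ (1 + ε / 4) * (y * Dn) + Kf * ((T : ℝ) + 1) ^ Bf := by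
    have : bc = (((Ioc k0 (k0 + y)).filter (fun n => ∀ p ≤ T, p.Prime → n % p ∉ Om C w1 w2 true b p)).card : ℝ) := rfl
    rw [this]
    linarith
  set Q := Sg C w1 * V T ^ k with hQ
  have hQ0 : 0 ≤ Q := mul_nonneg hSg (pow_nonneg (V_pos _).le _)
  have hy0R : (0 : ℝ) ≤ y := Nat.cast_nonneg _
  have h8 : Dn ≤ (1 + 3 * ε / 8 + (3 * ε / 8) ^ 2) * Q := by
    refine h4.trans (mul_le_mul_of_nonneg_right ?_ hQ0)
    refine (Real.exp_le_exp.2 htt).trans ?_
    have h9 : |3 * ε / 8| ≤ 1 := by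
      rw [abs_of_nonneg (by positivity)]
      linarith
    have := (abs_le.1 (Real.abs_exp_sub_one_sub_id_le h9)).2
    linarith
  have h9 : (1 + ε / 4) * (y * Dn) ≤ (1 + ε) * (y * Q) := by
    have h10 : y * Dn ≤ y * ((1 + 3 * ε / 8 + (3 * ε / 8) ^ 2) * Q) := mul_le_mul_of_nonneg_left h8 hy0R
    have h11 := mul_le_mul_of_nonneg_left h10 (show 0 ≤ 1 + ε / 4 by positivity)
    refine h11.trans ?_
    have h12 : 0 ≤ y * Q := by positivity
    have h13 : ((1 + ε / 4) * (1 + 3 * ε / 8 + (3 * ε / 8) ^ 2)) * (y * Q) ≤ (1 + ε) * (y * Q) := by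
      refine mul_le_mul_of_nonneg_right ?_ h12
      nlinarith [sq_nonneg ε, mul_pos hε hε]
    linarith
  linarith

end Pool.Agent.H559.GP
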