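import Pool.Agent.H559.GP.Two
import Pool.Agent.H559.GP.Lev

set_option autoImplicit false

/-! # The killing classes of the values of a system of polynomials -/

open Finset MeasureTheory ProbabilityTheory Filter Topology
open Pool.Agent.T2H32.BF (Model prob V V_pos V_anti V_ratio)
open Pool.Agent.H559.HY (Arr evl cls cls_lt cls_mod cls_toNat cls_eq_cls kl wt wt_le rts base Om not_mem_rts RS cmpA prodV)
open Pool.Agent.H559.PV (Gd kill_le)

namespace Pool.Agent.H559.GP

variable {k D : ℕ}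

open Classical in
/-- the killing classes of `n` modulo `p`: all values, but only the one with the index `i0` if `sp n` -/
noncomputable def kz (C : Arr k D) (z : ℕ → ℕ) (sp : ℕ → Prop) (i0 : Fin k) (p n : ℕ) : Finset ℕ :=
  ((univ : Finset (Fin k)).filter (fun i => p ≤ z (evl (C i) n).toNat ∧ (sp n → i = i0))).image (fun i => cls C i p n)

variable (C : Arr k D) (z : ℕ → ℕ) (sp : ℕ → Prop) (i0 : Fin k)

theorem kz_rng (p n : ℕ) (hp : 0 < p) : kz C z sp i0 p n ⊆ range p := by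
  classical
  intro r hr
  unfold kz at hr
  rw [mem_image] at hr
  obtain ⟨i, _, rfl⟩ := hr
  exact mem_range.2 (cls_lt C i p n hp)

theorem kz_card (p n : ℕ) : (kz C z sp i0 p n).card ≤ k := by
  classical
  unfold kz
  refine card_image_le.trans ((card_filter_le _ _).trans ?_)
  rw [card_univ, Fintype.card_fin]

theorem cls_eq_dvd (i i' : Fin k) (p n n' : ℕ) (hp : 0 < p) (h : cls C i p n = cls C i' p n') :
    (p : ℤ) ∣ evl (C i) n - evl (C i') n' := by
  unfold cls at h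
  have h1 : (0 : ℤ) < p := by exact_mod_cast hp
  have h2 := Int.emod_nonneg (evl (C i) n) h1.ne'
  have h3 := Int.emod_nonneg (evl (C i') n') h1.ne'
  have h5 : evl (C i') n' % (p : ℤ) = evl (C i) n % (p : ℤ) := by omega
  exact (Int.modEq_iff_dvd).1 h5

/-- few large primes divide a number -/
theorem card_dvd (T c0 : ℕ) (H : ℕ) (hT : 0 < T) (hH : H < T ^ (c0 + 1)) (v : ℤ) (hv : v ≠ 0) (hvH : v.natAbs ≤ H)
    (S : Finset ℕ) (hS : ∀ p ∈ S, p.Prime ∧ T < p ∧ (p : ℤ) ∣ v) : S.card ≤ c0 := by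
  have h1 : ∏ p ∈ S, p ∣ v.natAbs := by
    refine Finset.prod_primes_dvd _ (fun p hp => (hS p hp).1.prime) fun p hp => ?_
    exact Int.natCast_dvd.1 (hS p hp).2.2
  have h2 : T ^ S.card ≤ ∏ p ∈ S, p := by
    rw [← prod_const]
    exact prod_le_prod' fun p hp => (hS p hp).2.1.le
  have h3 : T ^ S.card ≤ H := (h2.trans (Nat.le_of_dvd (Int.natAbs_pos.2 hv) h1)).trans hvH
  by_contra hcon
  have h4 : T ^ (c0 + 1) ≤ T ^ S.card := Nat.pow_le_pow_right hT (by omega)
  omega

/-- the number of the elements killed by one class -/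
theorem kz_fib (p r m ℓ : ℕ) (hp : p.Prime) (hC : Gd C p) (hℓ : ℓ ≤ p) (A : Finset ℕ) (hA : A ⊆ Ioc m (m + ℓ)) :
    (A.filter (fun n => r ∈ kz C z sp i0 p n)).card ≤ 2 * (k * D) := by
  classical
  have h1 := kill_le C (fun _ => p) p hp hC m ℓ r A hA
  have h2 : A.filter (fun n => r ∈ kz C z sp i0 p n) ⊆ A.filter (fun u => r ∈ kl C (fun _ => p) p u) := by
    intro n hn
    rw [mem_filter] at hn ⊢
    refine ⟨hn.1, ?_⟩
    have h3 := hn.2
    unfold kz at h3
    unfold kl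
    rw [mem_image] at h3 ⊢
    obtain ⟨i, _, hi⟩ := h3
    exact ⟨i, mem_filter.2 ⟨mem_univ _, le_rfl⟩, hi⟩
  have h3 : ((A.filter (fun n => r ∈ kz C z sp i0 p n)).card : ℝ) ≤ k * D * (ℓ / p + 1) := by
    refine le_trans ?_ h1
    exact_mod_cast card_le_card h2
  have hp0 : (0 : ℝ) < p := by exact_mod_cast hp.pos
  have h4 : (ℓ : ℝ) / p ≤ 1 := by
    rw [div_le_one hp0]
    exact_mod_cast hℓ
  have h5 : (k : ℝ) * D * (ℓ / p + 1) ≤ k * D * 2 := by
    have : (0 : ℝ) ≤ k * D := by positivity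
    nlinarith
  have h6 : ((A.filter (fun n => r ∈ kz C z sp i0 p n)).card : ℝ) ≤ ((2 * (k * D) : ℕ) : ℝ) := by
    push_cast
    linarith
  exact_mod_cast h6

/-- the number of the bad primes -/
theorem kz_bad (T N c0 H M : ℕ) (hT : 0 < T) (hH : H < T ^ (c0 + 1)) (B : Finset ℕ) (hM : B.card ≤ 2 * M)
    (hne : ∀ n ∈ B, ∀ n' ∈ B, n ≠ n' → ∀ i i', (sp n → i = i0) → (sp n' → i' = i0) → evl (C i) n ≠ evl (C i') n')
    (hbd : ∀ n ∈ B, ∀ n' ∈ B, ∀ i i', (evl (C i) n - evl (C i') n').natAbs ≤ H)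
    (Lb : Finset ℕ) (hLb : Lb ⊆ (Ioc T N).filter Nat.Prime) (hb : ∀ p ∈ Lb, ¬ Gp (kz C z sp i0) p B) :
    Lb.card ≤ (2 * M) ^ 2 * k ^ 2 * c0 := by
  classical
  set Q : Finset ((ℕ × ℕ) × Fin k × Fin k) := (B ×ˢ B) ×ˢ (univ ×ˢ univ) with hQ
  have hsub : Lb ⊆ Q.biUnion (fun q => Lb.filter (fun p : ℕ => (p : ℤ) ∣ evl (C q.2.1) q.1.1 - evl (C q.2.2) q.1.2 ∧
      evl (C q.2.1) q.1.1 - evl (C q.2.2) q.1.2 ≠ 0)) := by
    intro p hp
    have h1 := hb p hp
    unfold Gp at h1
    push Not at h1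
    obtain ⟨n, hn, n', hn', hnn, hd⟩ := h1
    rw [not_disjoint_iff] at hd
    obtain ⟨r, hr, hr'⟩ := hd
    unfold kz at hr hr'
    rw [mem_image] at hr hr'
    obtain ⟨i, hi, hir⟩ := hr
    obtain ⟨i', hi', hir'⟩ := hr'
    rw [mem_filter] at hi hi'
    have hpp := (mem_filter.1 (hLb hp)).2
    rw [mem_biUnion]
    refine ⟨((n, n'), (i, i')), ?_, ?_⟩
    · rw [hQ]
      simp [hn, hn']
    · rw [mem_filter]
      refine ⟨hp, cls_eq_dvd C i i' p n n' hpp.pos (hir.trans hir'.symm), ?_⟩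
      exact sub_ne_zero.2 (hne n hn n' hn' hnn i i' hi.2.2 hi'.2.2)
  have h2 : ∀ q ∈ Q, (Lb.filter (fun p : ℕ => (p : ℤ) ∣ evl (C q.2.1) q.1.1 - evl (C q.2.2) q.1.2 ∧
      evl (C q.2.1) q.1.1 - evl (C q.2.2) q.1.2 ≠ 0)).card ≤ c0 := by
    intro q hq
    rw [hQ, mem_product, mem_product] at hq
    by_cases h0 : evl (C q.2.1) q.1.1 - evl (C q.2.2) q.1.2 = 0
    · have : Lb.filter (fun p : ℕ => (p : ℤ) ∣ evl (C q.2.1) q.1.1 - evl (C q.2.2) q.1.2 ∧
          evl (C q.2.1) q.1.1 - evl (C q.2.2) q.1.2 ≠ 0) = ∅ := by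
        refine filter_eq_empty_iff.2 fun p _ h => h.2 h0
      rw [this]
      simp
    · refine card_dvd T c0 H hT hH _ h0 (hbd _ hq.1.1 _ hq.1.2 _ _) _ fun p hp => ?_
      rw [mem_filter] at hp
      have h3 := mem_filter.1 (hLb hp.1)
      exact ⟨h3.2, (mem_Ioc.1 h3.1).1, hp.2.1⟩
  calc Lb.card ≤ (Q.biUnion _).card := card_le_card hsub
    _ ≤ Q.card * c0 := card_biUnion_le_card_mul _ _ _ h2
    _ = B.card * B.card * (k * k) * c0 := by
        rw [hQ, card_product, card_product, card_product, card_univ, Fintype.card_fin]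
    _ ≤ (2 * M) * (2 * M) * (k * k) * c0 := by gcongr
    _ = _ := by ring

/-- ordinary elements are killed with the expected probability -/
theorem kz_Gf (T N c0 H : ℕ) (hT : 0 < T) (hH : H < T ^ (c0 + 1)) (n : ℕ) (hn : ¬ sp n)
    (hdiff : ∀ i i', i ≠ i' → evl (C i) n ≠ evl (C i') n)
    (hbd : ∀ i i', (evl (C i) n - evl (C i') n).natAbs ≤ H)
    (hTz : ∀ i, T ≤ z (evl (C i) n).toNat) (hzN : ∀ i, z (evl (C i) n).toNat ≤ N) :
    1 - Real.exp ((k ^ 3 * c0 + 2 * k) / T) * ((∏ i, V (z (evl (C i) n).toNat)) / V T ^ k) ≤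
      Gf (kz C z sp i0) ((Ioc T N).filter Nat.Prime) n := by
  classical
  unfold Gf
  set Z : Fin k → ℕ := fun i => z (evl (C i) n).toNat with hZ
  set L := (Ioc T N).filter Nat.Prime with hL
  have hT0 : (0 : ℝ) < T := by exact_mod_cast hT
  have hpp : ∀ p ∈ L, p.Prime ∧ T < p := fun p hp => ⟨(mem_filter.1 hp).2, (mem_Ioc.1 (mem_filter.1 hp).1).1⟩
  have h1 := cmpA T N (by omega) (fun p => (kz C z sp i0 p n).card) (fun p => wt Z p) k (fun p hp => by
      have := card_le_card (kz_rng C z sp i0 p n (hpp p hp).1.pos)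
      rwa [card_range] at this) (fun p _ => by exact_mod_cast wt_le Z p) (Nat.cast_nonneg _)
  rw [prodV Z T N hTz hzN] at h1
  have hP : 0 ≤ (∏ i, V (Z i)) / V T ^ k := div_nonneg (prod_nonneg fun i _ => (V_pos _).le) (pow_nonneg (V_pos _).le _)
  -- collisions of the values at `n`
  set Q : Finset (Fin k × Fin k) := (univ : Finset (Fin k)).offDiag with hQ
  set bd : Finset ℕ := L.filter (fun p : ℕ => ∃ q ∈ Q, (p : ℤ) ∣ evl (C q.1) n - evl (C q.2) n) with hbdd
  have hcard : bd.card ≤ k ^ 2 * c0 := by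
    have hsub : bd ⊆ Q.biUnion (fun q => L.filter (fun p : ℕ => (p : ℤ) ∣ evl (C q.1) n - evl (C q.2) n)) := by
      intro p hp
      rw [hbdd, mem_filter] at hp
      obtain ⟨hpL, q, hq, hd⟩ := hp
      rw [mem_biUnion]
      exact ⟨q, hq, mem_filter.2 ⟨hpL, hd⟩⟩
    have h2 : ∀ q ∈ Q, (L.filter (fun p : ℕ => (p : ℤ) ∣ evl (C q.1) n - evl (C q.2) n)).card ≤ c0 := by
      intro q hq
      rw [hQ, mem_offDiag] at hq
      refine card_dvd T c0 H hT hH _ (sub_ne_zero.2 (hdiff q.1 q.2 hq.2.2)) (hbd _ _) _ fun p hp => ?_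
      rw [mem_filter] at hp
      exact ⟨(hpp p hp.1).1, (hpp p hp.1).2, hp.2⟩
    refine (card_le_card hsub).trans ((card_biUnion_le_card_mul _ _ _ h2).trans ?_)
    refine Nat.mul_le_mul_right _ ?_
    rw [hQ, offDiag_card, card_univ, Fintype.card_fin, sq]
    omega
  have hwt : ∀ p ∈ L, p ∉ bd → (kz C z sp i0 p n).card = wt Z p := by
    intro p hp hpb
    unfold kz wt
    rw [card_image_of_injOn]
    · congr 1
      ext i
      simp only [mem_filter, mem_univ, true_and, hZ]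
      constructor
      · exact fun h => h.1
      · exact fun h => ⟨h, fun hs => absurd hs hn⟩
    · intro i _ i' _ heq
      by_contra hne
      refine hpb ?_
      rw [hbdd, mem_filter]
      exact ⟨hp, (i, i'), by rw [hQ, mem_offDiag]; exact ⟨mem_univ _, mem_univ _, hne⟩,
        (cls_eq_cls C i i' p n (hpp p hp).1.pos).1 heq⟩
  have hsum : -(∑ p ∈ L, (((kz C z sp i0 p n).card : ℝ) - wt Z p) / p) ≤ k ^ 3 * c0 / T := by
    rw [← sum_neg_distrib]
    have hterm : ∀ p ∈ L, -((((kz C z sp i0 p n).card : ℝ) - wt Z p) / p) ≤ if p ∈ bd then (k : ℝ) / T else 0 := by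
      intro p hp
      have hp0 : (0 : ℝ) < p := by exact_mod_cast (hpp p hp).1.pos
      split_ifs with hb
      · have h2 : (wt Z p : ℝ) ≤ k := by exact_mod_cast wt_le Z p
        have h3 : (0 : ℝ) ≤ (kz C z sp i0 p n).card := Nat.cast_nonneg _
        have h4 : (T : ℝ) ≤ p := by exact_mod_cast (hpp p hp).2.le
        rw [← neg_div, neg_sub]
        calc ((wt Z p : ℝ) - (kz C z sp i0 p n).card) / p ≤ k / p := by
              refine div_le_div_of_nonneg_right ?_ hp0.le
              linarith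
          _ ≤ k / T := by gcongr
      · rw [hwt p hp hb, sub_self, zero_div, neg_zero]
    refine (sum_le_sum hterm).trans ?_
    rw [← sum_filter, sum_const, nsmul_eq_mul]
    have h5 : ((L.filter (fun p => p ∈ bd)).card : ℝ) ≤ k ^ 2 * c0 := by
      have h6 : (L.filter (fun p => p ∈ bd)).card ≤ bd.card := card_le_card fun p hp => (mem_filter.1 hp).2
      exact_mod_cast h6.trans hcard
    calc ((L.filter (fun p => p ∈ bd)).card : ℝ) * (k / T) ≤ k ^ 2 * c0 * (k / T) :=
          mul_le_mul_of_nonneg_right h5 (by positivity)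
      _ = _ := by ring
  have h7 : ∏ p ∈ L, (1 - kap (kz C z sp i0) p n) ≤ Real.exp ((k ^ 3 * c0 + 2 * k) / T) * ((∏ i, V (Z i)) / V T ^ k) := by
    unfold kap
    refine h1.trans (mul_le_mul_of_nonneg_right (Real.exp_le_exp.2 ?_) hP)
    rw [add_div]
    exact add_le_add hsum le_rfl
  linarith

/-- special elements -/
theorem kz_Gs (T N : ℕ) (n : ℕ) (hn : sp n) (hTz : T ≤ z (evl (C i0) n).toNat) (hzN : z (evl (C i0) n).toNat ≤ N) :
    Gf (kz C z sp i0) ((Ioc T N).filter Nat.Prime) n = 1 - V (z (evl (C i0) n).toNat) / V T := by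
  classical
  unfold Gf
  congr 1
  rw [V_ratio _ _ hTz]
  have h1 : ∀ p, kap (kz C z sp i0) p n = if p ≤ z (evl (C i0) n).toNat then 1 / (p : ℝ) else 0 := by
    intro p
    unfold kap kz
    split_ifs with hp
    · have : (univ : Finset (Fin k)).filter (fun i => p ≤ z (evl (C i) n).toNat ∧ (sp n → i = i0)) = {i0} := by
        ext i
        simp only [mem_filter, mem_univ, true_and, mem_singleton]
        constructor
        · exact fun h => h.2 hn
        · rintro rfl
          exact ⟨hp, fun _ => rfl⟩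
      rw [this, image_singleton, card_singleton]
      simp
    · have : (univ : Finset (Fin k)).filter (fun i => p ≤ z (evl (C i) n).toNat ∧ (sp n → i = i0)) = ∅ := by
        refine filter_eq_empty_iff.2 fun i _ h => ?_
        rw [h.2 hn] at h
        exact hp h.1
      rw [this]
      simp
  calc ∏ p ∈ (Ioc T N).filter Nat.Prime, (1 - kap (kz C z sp i0) p n) =
        ∏ p ∈ (Ioc T N).filter Nat.Prime, (if p ≤ z (evl (C i0) n).toNat then 1 - 1 / (p : ℝ) else 1) := by
        refine prod_congr rfl fun p _ => ?_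
        rw [h1]
        split_ifs
        · rfl
        · ring
    _ = ∏ p ∈ (Ioc T (z (evl (C i0) n).toNat)).filter Nat.Prime, (1 - 1 / (p : ℝ)) := by
        rw [← prod_filter]
        congr 1
        ext p
        simp only [mem_filter, mem_Ioc]
        constructor
        · rintro ⟨⟨⟨h1, _⟩, h3⟩, h4⟩
          exact ⟨⟨h1, h4⟩, h3⟩
        · rintro ⟨⟨h1, h2⟩, h3⟩
          exact ⟨⟨⟨h1, h2.trans hzN⟩, h3⟩, h2⟩

/-- a place is in the base set and is not killed -/
theorem place_sub (W : ℕ → ℕ) (hz : Monotone z) (hW : Monotone W) (b : ℕ → ℕ) (w1 w2 T k0 y m lo hi : ℕ)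
    (hlo : w1 ≤ W lo) (hhi : W hi ≤ w2) (h2T : w2 ≤ T) (hT : T ≤ z lo)
    (hm : m ∈ Ioc k0 (k0 + y)) (hv : ∀ i, (lo : ℤ) ≤ evl (C i) m ∧ evl (C i) m ≤ hi)
    (hS : ∀ i, (evl (C i) m).toNat ∈ RS z W b) :
    m ∈ base C w1 w2 true T k0 y b ∧ ∀ p, p.Prime → T < p → b p ∉ kz C z sp i0 p m := by
  classical
  have hmv : ∀ i, 0 ≤ evl (C i) m ∧ lo ≤ (evl (C i) m).toNat ∧ (evl (C i) m).toNat ≤ hi := by
    intro i
    obtain ⟨hl, hh⟩ := hv i
    have h0 : 0 ≤ evl (C i) m := le_trans (Int.natCast_nonneg _) hl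
    exact ⟨h0, by omega, by omega⟩
  constructor
  · unfold base
    rw [mem_filter]
    refine ⟨hm, fun p hp hpp => ?_⟩
    unfold Om
    by_cases hq1 : p ≤ w1
    · rw [if_pos hq1, not_mem_rts C p m 0 hpp.pos]
      intro i
      obtain ⟨h0, hv1, hv2⟩ := hmv i
      have h5 := (hS i).2 p ((hp.trans hT).trans (hz hv1)) hpp
      rw [if_pos (hq1.trans (hlo.trans (hW hv1)))] at h5
      rw [cls_toNat C i p m h0]
      exact h5
    · rw [if_neg hq1]
      by_cases hq2 : p ≤ w2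
      · rw [if_pos hq2]
        simp
      · rw [if_neg hq2, not_mem_rts C p m (b p) hpp.pos]
        intro i
        obtain ⟨h0, hv1, hv2⟩ := hmv i
        have h5 := (hS i).2 p ((hp.trans hT).trans (hz hv1)) hpp
        have h6 : ¬ p ≤ W (evl (C i) m).toNat := by
          have := (hW hv2).trans hhi
          omega
        rw [if_neg h6] at h5
        rw [cls_toNat C i p m h0]
        exact h5
  · intro p hpp hTp hcon
    unfold kz at hcon
    rw [mem_image] at hcon
    obtain ⟨i, hi, hci⟩ := hcon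
    rw [mem_filter] at hi
    obtain ⟨h0, hv1, hv2⟩ := hmv i
    have h5 := (hS i).2 p hi.2.1 hpp
    have h6 : ¬ p ≤ W (evl (C i) m).toNat := by
      have := (hW hv2).trans hhi
      omega
    rw [if_neg h6] at h5
    rw [cls_toNat C i p m h0] at hci
    exact h5 hci

end Pool.Agent.H559.GP
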