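import Pool.Agent.H559.GP.Sys

set_option autoImplicit false

/-! # The probability bound for one system -/

open Finset MeasureTheory ProbabilityTheory Filter Topology Polynomial
open Pool.Agent.T2H32.BF (Model prob V V_pos V_anti V_ratio mertens)
open Pool.Agent.H559.BS (Limit TT TT_le TT_ge TT_top log_TT V_TT log_pow_le log_top g g_pos)
open Pool.Agent.H559.HY (Arr evl cls arr evl_arr Sg Om base base_sub box mem_box Cut not_mem_rts pos fam fam_le fam_deg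
  fam_ne CF CF_eq CF_conv good_arr pow_top log_TT_lim div_lim log_lin growth)
open Pool.Agent.H559.PV (Gd Row GP_comp sys_of not_shift comp_inj)

namespace Pool.Agent.H559.GP

variable {Ω : Type*} [MeasurableSpace Ω] {P : Measure Ω} {a : ℕ → Ω → ℕ}

theorem rpow_neg_lim (δ : ℝ) (hδ : 0 < δ) : Tendsto (fun x : ℕ => (x : ℝ) ^ (-δ)) atTop (𝓝 0) :=
  (tendsto_rpow_neg_atTop hδ).comp tendsto_natCast_atTop_atTop

theorem mainP (h : Model P a) (z : ℕ → ℕ) (hz : Limit z) (w1 w2 : ℕ → ℕ) (F : Finset ℤ[X])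
    (hF : ∀ f ∈ F, Pool.Agent.H559.PV.GP f) (J : ℕ) (hJ : 2 ≤ J)
    (i0 : Fin F.card) (δ : ℝ) (hδ : 0 < δ) (hδg : 16 * δ ≤ g * (1 / 4)) (c0 : ℕ) (hc0 : (AF F : ℝ) + 1 ≤ δ * (c0 + 1))
    (κ Sb η s θ τ : ℝ) (hκ : 0 < κ) (hSb : 0 < Sb) (hη : 0 < η) (hη1 : η ≤ 1 / 100)
    (hs : (∏ i, (1 / ((fam F i).natDegree : ℝ))) / (g / δ) ^ F.card < s) (hsη : s ≤ η)
    (hθ : (1 + 2 * η) * (1 + 2 * η) * κ * Sb * s ≤ θ) (hτ : θ < τ) (C1 : ℕ)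
    (Gd' : ℕ → Finset ℕ → Prop)
    (hGd : ∀ x U, Gd' x U → (U.card : ℝ) ≤ (1 - 3 * (η / 12)) * (((⌊(1 + 2 * η) * κ * Sb * Real.log x⌋₊ + 1 : ℕ) : ℝ) *
        (((x / J) / ⌊κ * Real.log x ^ (F.card + 1)⌋₊ : ℕ) : ℝ)) ∧ ∃ S' : Finset ℕ, (∀ n ∈ U, spc (aF F) U n → n ∈ S') ∧
        (S'.card : ℝ) ≤ η / 12 * (((C1 + 1 : ℕ) : ℝ) * (((x / J) / ⌊κ * Real.log x ^ (F.card + 1)⌋₊ : ℕ) : ℝ))) :
    ∀ᶠ x : ℕ in atTop, P.real {ω | Gd' x (base (aF F) (w1 x) (w2 x) true (TT δ x) (x - x / J) (x / J) (fun p => a p ω)) ∧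
      (Em (aF F) z i0 (TT δ x) (z (x ^ AF F)) (x - x / J) ⌊κ * Real.log x ^ (F.card + 1)⌋₊
        ((x / J) / ⌊κ * Real.log x ^ (F.card + 1)⌋₊)
        (base (aF F) (w1 x) (w2 x) true (TT δ x) (x - x / J) (x / J) (fun p => a p ω)) (fun p => a p ω) : ℝ) <
        (x : ℝ) ^ (1 - τ) / 4} ≤ 8 / (x : ℝ) ^ (1 - τ) + 4 * (8 * (x : ℝ) ^ (-(δ / 4))) := by
  have hs0 : 0 ≤ s := le_trans (div_nonneg (prod_nonneg fun i _ => by positivity) (by have := g_pos; positivity)) hs.le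
  set ℓ : ℕ → ℕ := fun x => ⌊κ * Real.log x ^ (F.card + 1)⌋₊ with hℓd
  set M : ℕ → ℕ := fun x => ⌊(1 + 2 * η) * κ * Sb * Real.log x⌋₊ with hMd
  have hℓ : ∀ᶠ x : ℕ in atTop, ℓ x ≤ TT δ x := by
    filter_upwards [log_pow_le (F.card + 1) δ κ hδ] with x hx
    simp only [hℓd]
    unfold TT
    exact Nat.floor_le_floor hx
  have hwd := wd_ev F hF z hz J hJ i0 δ hδ hδg c0 hc0 ℓ M hℓ s hs (by linarith)
  set cM : ℝ := (1 + 2 * η) * κ * Sb with hcM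
  have hcM0 : 0 < cM := by positivity
  set kR : ℝ := (F.card : ℝ) with hkR
  have hkR0 : 0 ≤ kR := Nat.cast_nonneg _
  set E4 : ℝ := 4 ^ (4 * (F.card * ∑ i, (fam F i).natDegree)) with hE4
  have hE40 : 0 < E4 := by positivity
  set c0R : ℝ := (c0 : ℝ) with hc0R
  have hc0R0 : 0 ≤ c0R := Nat.cast_nonneg _
  set Cc : ℝ := 8 * kR ^ 3 * c0R * E4 * cM ^ 3 + (8 * kR ^ 3 * c0R * cM ^ 3 + 16 * kR ^ 2 * cM ^ 2) + 4 * kR ^ 3 * c0R * cM ^ 2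
    with hCc
  have hCc0 : 0 ≤ Cc := by positivity
  filter_upwards [hwd, errT δ Cc 3 hδ hCc0, (rpow_neg_lim (δ / 4) (by positivity)).eventually_lt_const
    (show (0 : ℝ) < 1 / 8 by norm_num), log_top.eventually_ge_atTop 1,
    numC κ Sb η s θ τ (η / 12) hκ hSb hη (by linarith) (by positivity) hs0 (by linarith) hsη hθ hτ F.card J C1 (by omega),
    eventually_ge_atTop 1] with x a1 a2 a3 a4 a5 a6
  have hx0 : (0 : ℝ) < x := by exact_mod_cast a6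
  set L := Real.log x with hL
  have hL0 : 0 < L := by linarith
  set T := TT δ x with hT
  have hT0 : (0 : ℝ) < T := by exact_mod_cast a1.T0
  set u : ℝ := (x : ℝ) ^ (-(δ / 4)) with hu
  have hu0 : 0 < u := by positivity
  set mR : ℝ := ((M x : ℕ) : ℝ) with hmR
  have hm0 : 0 ≤ mR := Nat.cast_nonneg _
  have hm1 : mR ≤ cM * L := by
    rw [hmR]
    simp only [hMd]
    exact Nat.floor_le (by positivity)
  have e2 : mR ^ 2 ≤ cM ^ 2 * L ^ 3 := by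
    calc mR ^ 2 ≤ (cM * L) ^ 2 := by gcongr
      _ = cM ^ 2 * L ^ 2 := by ring
      _ ≤ cM ^ 2 * L ^ 3 := mul_le_mul_of_nonneg_left (pow_le_pow_right₀ a4 (by norm_num)) (by positivity)
  have e3 : mR ^ 3 ≤ cM ^ 3 * L ^ 3 := by
    calc mR ^ 3 ≤ (cM * L) ^ 3 := by gcongr
      _ = cM ^ 3 * L ^ 3 := by ring
  have hcast : (((2 * M x) ^ 2 * F.card ^ 2 * c0 : ℕ) : ℝ) = 4 * mR ^ 2 * kR ^ 2 * c0R := by
    push_cast
    ring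
  have f1 : 4 * kR ^ 3 * c0R * mR ^ 2 ≤ 4 * kR ^ 3 * c0R * (cM ^ 2 * L ^ 3) := by gcongr
  have f2 : 8 * kR ^ 3 * c0R * E4 * mR ^ 3 ≤ 8 * kR ^ 3 * c0R * E4 * (cM ^ 3 * L ^ 3) := by gcongr
  have f3 : 8 * kR ^ 3 * c0R * mR ^ 3 + 16 * kR ^ 2 * mR ^ 2 ≤
      8 * kR ^ 3 * c0R * (cM ^ 3 * L ^ 3) + 16 * kR ^ 2 * (cM ^ 2 * L ^ 3) := by gcongr
  have hL3 : 0 < L ^ 3 := by positivity
  have g1 : 4 * kR ^ 3 * c0R * mR ^ 2 ≤ Cc * L ^ 3 := by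
    refine f1.trans ?_
    have : 0 ≤ (8 * kR ^ 3 * c0R * E4 * cM ^ 3 + (8 * kR ^ 3 * c0R * cM ^ 3 + 16 * kR ^ 2 * cM ^ 2)) * L ^ 3 := by positivity
    rw [hCc]
    linarith
  have g2 : 8 * kR ^ 3 * c0R * E4 * mR ^ 3 ≤ Cc * L ^ 3 := by
    refine f2.trans ?_
    have : 0 ≤ ((8 * kR ^ 3 * c0R * cM ^ 3 + 16 * kR ^ 2 * cM ^ 2) + 4 * kR ^ 3 * c0R * cM ^ 2) * L ^ 3 := by positivity
    rw [hCc]
    linarith
  have g3 : 8 * kR ^ 3 * c0R * mR ^ 3 + 16 * kR ^ 2 * mR ^ 2 ≤ Cc * L ^ 3 := by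
    refine f3.trans ?_
    have : 0 ≤ (8 * kR ^ 3 * c0R * E4 * cM ^ 3 + 4 * kR ^ 3 * c0R * cM ^ 2) * L ^ 3 := by positivity
    rw [hCc]
    linarith
  have hdiv : ∀ q : ℝ, q ≤ Cc * L ^ 3 → q / T ≤ u := fun q hq => le_trans (by gcongr) a2
  refine winP h a1 hz.1 (w1 x) (w2 x) _ C1 (Gd' x) (η / 12) (fun U hU hg => ?_) u u (8 * u) ?_ ?_ ?_ ?_ ?_ ?_ ((x : ℝ) ^ (1 - τ))
    (by positivity) a5
  · obtain ⟨h1, S', h2, h3⟩ := hGd x U hg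
    exact Igood_card (aF F) U _ _ _ _ C1 (η / 12) h1 S' h2 h3
  · rw [hcast]
    have : kR * (4 * mR ^ 2 * kR ^ 2 * c0R) / T ≤ u := by
      refine hdiv _ ?_
      calc kR * (4 * mR ^ 2 * kR ^ 2 * c0R) = 4 * kR ^ 3 * c0R * mR ^ 2 := by ring
        _ ≤ _ := g1
    linarith
  · rw [hcast]
    refine hdiv _ ?_
    calc 4 * mR ^ 2 * kR ^ 2 * c0R * (2 * mR * kR * E4) = 8 * kR ^ 3 * c0R * E4 * mR ^ 3 := by ring
      _ ≤ _ := g2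
  · rw [hcast]
    have : mR * (kR * (4 * mR ^ 2 * kR ^ 2 * c0R) / T * 2) + 16 * kR ^ 2 * mR ^ 2 / T =
        (8 * kR ^ 3 * c0R * mR ^ 3 + 16 * kR ^ 2 * mR ^ 2) / T := by
      field_simp
      ring
    rw [this]
    exact hdiv _ g3
  · linarith
  · have h1 : |u| ≤ 1 := by
      rw [abs_of_pos hu0]
      linarith
    have h2 := (abs_le.1 (Real.abs_exp_sub_one_sub_id_le h1)).2
    nlinarith
  · positivity

end Pool.Agent.H559.GP
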