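import Pool.Agent.H559.GP.Base

set_option autoImplicit false

/-! # Numerical facts -/

open Finset MeasureTheory ProbabilityTheory Filter Topology Polynomial
open Pool.Agent.T2H32.BF (Model prob V V_pos V_anti V_ratio mertens)
open Pool.Agent.H559.BS (Limit TT TT_le TT_ge TT_top log_TT V_TT log_pow_le log_top g g_pos)
open Pool.Agent.H559.HY (Arr evl cls arr evl_arr Sg Om base base_sub box mem_box Cut not_mem_rts pos fam fam_le fam_deg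
  fam_ne CF CF_eq CF_conv good_arr pow_top log_TT_lim div_lim log_lin growth)
open Pool.Agent.H559.PV (Gd Row GP_comp sys_of not_shift comp_inj)

namespace Pool.Agent.H559.GP

/-- the product at a small power -/
theorem V_TT_lim (δ : ℝ) (hδ : 0 < δ) : Tendsto (fun x : ℕ => V (TT δ x) * Real.log x) atTop (𝓝 (g / δ)) := by
  have h1 := mertens.comp (TT_top δ hδ)
  have h2 := h1.div (log_TT_lim δ hδ) hδ.ne'
  refine h2.congr' ?_
  filter_upwards [(TT_top δ hδ).eventually_ge_atTop 2, log_top.eventually_ge_atTop 1] with x a1 a2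
  simp only [Pi.div_apply, Function.comp_apply]
  have h3 : 0 < Real.log (TT δ x) := Real.log_pos (by exact_mod_cast a1)
  field_simp

/-- half of the quotient -/
theorem half_div (J x : ℕ) (hJ : 1 ≤ J) (hx : 2 * J ≤ x) : (x : ℝ) / (2 * J) ≤ ((x / J : ℕ) : ℝ) := by
  have hJ0 : (0 : ℝ) < J := by exact_mod_cast hJ
  rw [div_le_iff₀ (by positivity)]
  have h6 : x < J * (x / J) + J := by
    have h7 := Nat.div_add_mod x J
    have h8 := Nat.mod_lt x (show 0 < J by omega)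
    omega
  have h9 : x ≤ (x / J) * (2 * J) := by
    have : (x / J) * (2 * J) = J * (x / J) + J * (x / J) := by ring
    omega
  exact_mod_cast h9

/-- the numbers of the windows -/
theorem wn (κ : ℝ) (hκ : 0 < κ) (q J : ℕ) (hJ : 1 ≤ J) (ν : ℝ) (hν : 0 < ν) :
    ∀ᶠ x : ℕ in atTop, 1 ≤ ⌊κ * Real.log x ^ q⌋₊ ∨ q = 0 := by
  rcases Nat.eq_zero_or_pos q with h | h
  · exact Eventually.of_forall fun _ => Or.inr h
  · have h1 : Tendsto (fun x : ℕ => κ * Real.log x ^ q) atTop atTop :=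
      ((tendsto_pow_atTop (by omega)).comp log_top).const_mul_atTop hκ
    filter_upwards [h1.eventually_ge_atTop 1] with x hx
    exact Or.inl (Nat.le_floor (by exact_mod_cast hx))

theorem wn2 (κ : ℝ) (hκ : 0 < κ) (q J : ℕ) (hJ : 1 ≤ J) (hq : 1 ≤ q) (ν : ℝ) (hν : 0 < ν) :
    ∀ᶠ x : ℕ in atTop, 1 ≤ ⌊κ * Real.log x ^ q⌋₊ ∧
      (1 - ν) * (((x / J : ℕ) : ℝ) / (κ * Real.log x ^ q)) ≤ (((x / J) / ⌊κ * Real.log x ^ q⌋₊ : ℕ) : ℝ) := by
  have hJ0 : (0 : ℝ) < J := by exact_mod_cast hJ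
  have h1 : Tendsto (fun x : ℕ => κ * Real.log x ^ q) atTop atTop :=
    ((tendsto_pow_atTop (by omega)).comp log_top).const_mul_atTop hκ
  filter_upwards [h1.eventually_ge_atTop 1, log_pow_le q 1 (2 * J * κ / ν) one_pos, eventually_ge_atTop (2 * J)] with x hx h2 h3
  set ℓ := ⌊κ * Real.log x ^ q⌋₊ with hℓ
  have hℓ1 : 1 ≤ ℓ := Nat.le_floor (by exact_mod_cast hx)
  refine ⟨hℓ1, ?_⟩
  have hℓ0 : (0 : ℝ) < ℓ := by exact_mod_cast hℓ1
  have hℓle : (ℓ : ℝ) ≤ κ * Real.log x ^ q := Nat.floor_le (by linarith)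
  have hy := half_div J x hJ h3
  set y : ℕ := x / J with hyd
  have hy0 : (0 : ℝ) ≤ y := Nat.cast_nonneg _
  set Q : ℝ := κ * Real.log x ^ q with hQ
  have hQ0 : 0 < Q := by linarith
  have h4 : (y : ℝ) / ℓ - 1 ≤ ((y / ℓ : ℕ) : ℝ) := by
    have h5 : y < ℓ * (y / ℓ) + ℓ := by
      have h7 := Nat.div_add_mod y ℓ
      have h8 := Nat.mod_lt y (show 0 < ℓ by omega)
      omega
    have h6 : (y : ℝ) ≤ ℓ * ((y / ℓ : ℕ) : ℝ) + ℓ := by exact_mod_cast h5.le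
    rw [sub_le_iff_le_add, div_le_iff₀ hℓ0]
    linarith
  have h5 : (y : ℝ) / Q ≤ y / ℓ := by gcongr
  have h6 : 1 ≤ ν * (y / Q) := by
    rw [mul_div_assoc', le_div_iff₀ hQ0, one_mul]
    rw [Real.rpow_one] at h2
    have h7 : Q = (2 * J * κ / ν * Real.log x ^ q) * (ν / (2 * J)) := by
      rw [hQ]
      field_simp
    rw [h7]
    calc (2 * J * κ / ν * Real.log x ^ q) * (ν / (2 * J)) ≤ x * (ν / (2 * J)) := by gcongr
      _ = ν * (x / (2 * J)) := by ring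
      _ ≤ ν * y := by gcongr
  linarith

/-- the upper bound of the error terms -/
theorem errT (δ Cc : ℝ) (q : ℕ) (hδ : 0 < δ) (hC : 0 ≤ Cc) :
    ∀ᶠ x : ℕ in atTop, Cc * Real.log x ^ q / TT δ x ≤ (x : ℝ) ^ (-(δ / 4)) := by
  filter_upwards [TT_ge δ hδ, log_pow_le q (3 * δ / 4) (2 * Cc) (by positivity), eventually_ge_atTop 1] with x h1 h2 h3
  have hx0 : (0 : ℝ) < x := by exact_mod_cast h3
  have hT0 : (0 : ℝ) < TT δ x := by exact_mod_cast h1.2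
  rw [div_le_iff₀ hT0]
  have h4 : (x : ℝ) ^ (-(δ / 4)) * ((x : ℝ) ^ δ / 2) ≤ (x : ℝ) ^ (-(δ / 4)) * TT δ x := by
    gcongr
    exact h1.1
  refine le_trans ?_ h4
  rw [mul_div_assoc', ← Real.rpow_add hx0, le_div_iff₀ (by norm_num)]
  have h5 : -(δ / 4) + δ = 3 * δ / 4 := by ring
  rw [h5]
  linarith

/-- the density of the windows -/
theorem numA (κ Sb η : ℝ) (hκ : 0 < κ) (hSb : 0 < Sb) (hη : 0 < η) (hη1 : η ≤ 1 / 100) (k J : ℕ) (hJ : 1 ≤ J) :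
    ∀ᶠ x : ℕ in atTop, (1 + η) * (Sb * (((x / J : ℕ) : ℝ) / Real.log x ^ k)) ≤
      (1 - 3 * (η / 12)) * (((⌊(1 + 2 * η) * κ * Sb * Real.log x⌋₊ + 1 : ℕ) : ℝ) *
        (((x / J) / ⌊κ * Real.log x ^ (k + 1)⌋₊ : ℕ) : ℝ)) := by
  filter_upwards [wn2 κ hκ (k + 1) J hJ (by omega) (η / 8) (by positivity), log_top.eventually_ge_atTop 1] with x h1 h2
  set L := Real.log x with hL
  have hL0 : 0 < L := by linarith
  set y : ℝ := ((x / J : ℕ) : ℝ) with hy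
  have hy0 : 0 ≤ y := Nat.cast_nonneg _
  set Nw : ℝ := (((x / J) / ⌊κ * L ^ (k + 1)⌋₊ : ℕ) : ℝ) with hNw
  have hM : (1 + 2 * η) * κ * Sb * L ≤ ((⌊(1 + 2 * η) * κ * Sb * L⌋₊ + 1 : ℕ) : ℝ) := by
    push_cast
    exact (Nat.lt_floor_add_one _).le
  have h3 : (1 + 2 * η) * κ * Sb * L * ((1 - η / 8) * (y / (κ * L ^ (k + 1)))) ≤
      ((⌊(1 + 2 * η) * κ * Sb * L⌋₊ + 1 : ℕ) : ℝ) * Nw :=
    mul_le_mul hM h1.2 (mul_nonneg (by linarith) (by positivity)) (Nat.cast_nonneg _)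
  have h4 : (1 + 2 * η) * κ * Sb * L * ((1 - η / 8) * (y / (κ * L ^ (k + 1)))) =
      ((1 + 2 * η) * (1 - η / 8)) * (Sb * (y / L ^ k)) := by
    rw [pow_succ]
    field_simp
  rw [h4] at h3
  have h5 : 0 ≤ 1 - 3 * (η / 12) := by linarith
  have h6 := mul_le_mul_of_nonneg_left h3 h5
  refine le_trans ?_ h6
  have h7 : 0 ≤ Sb * (y / L ^ k) := by positivity
  rw [← mul_assoc (1 - 3 * (η / 12))]
  refine mul_le_mul_of_nonneg_right ?_ h7
  have h8 : 0 ≤ η * (5 / 8 - 23 / 32 * η + η ^ 2 / 16) := mul_nonneg hη.le (by nlinarith [sq_nonneg η])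
  have h9 : (1 - 3 * (η / 12)) * ((1 + 2 * η) * (1 - η / 8)) = 1 + η + η * (5 / 8 - 23 / 32 * η + η ^ 2 / 16) := by ring
  linarith

theorem numB (κ C2 ρ : ℝ) (hκ : 0 < κ) (hρ : 0 < ρ) (k J C1 : ℕ) (hJ : 1 ≤ J) (hC1 : 2 * κ * C2 / ρ ≤ C1) :
    ∀ᶠ x : ℕ in atTop, C2 * (((x / J : ℕ) : ℝ) / Real.log x ^ (k + 1)) ≤
      ρ * (((C1 + 1 : ℕ) : ℝ) * (((x / J) / ⌊κ * Real.log x ^ (k + 1)⌋₊ : ℕ) : ℝ)) := by
  filter_upwards [wn2 κ hκ (k + 1) J hJ (by omega) (1 / 2) (by positivity), log_top.eventually_ge_atTop 1] with x h1 h2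
  set L := Real.log x with hL
  have hL0 : 0 < L := by linarith
  set y : ℝ := ((x / J : ℕ) : ℝ) with hy
  have hy0 : 0 ≤ y := Nat.cast_nonneg _
  rw [div_le_iff₀ hρ] at hC1
  have h3 : 2 * κ * C2 ≤ ((C1 + 1 : ℕ) : ℝ) * ρ := by
    push_cast
    linarith
  calc C2 * (y / L ^ (k + 1)) = (2 * κ * C2) * ((1 - 1 / 2) * (y / (κ * L ^ (k + 1)))) := by
        field_simp
        norm_num
    _ ≤ (((C1 + 1 : ℕ) : ℝ) * ρ) * ((1 - 1 / 2) * (y / (κ * L ^ (k + 1)))) := by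
        refine mul_le_mul_of_nonneg_right h3 ?_
        have : 0 ≤ y / (κ * L ^ (k + 1)) := by positivity
        linarith
    _ ≤ (((C1 + 1 : ℕ) : ℝ) * ρ) * _ := mul_le_mul_of_nonneg_left h1.2 (by positivity)
    _ = _ := by ring

theorem one_sub_pow (s : ℝ) (M : ℕ) (hs0 : 0 ≤ s) (hs : s ≤ 1 / 2) (η : ℝ) (hη : s ≤ η) (hη1 : η ≤ 1 / 2) (B : ℝ)
    (hM : (M : ℝ) * s * (1 + 2 * η) ≤ B) : Real.exp (-B) ≤ (1 - s) ^ M := by
  have h1 : 0 < 1 - s := by linarith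
  rw [← Real.exp_log h1, ← Real.exp_nat_mul]
  refine Real.exp_le_exp.2 ?_
  have h2 := Real.one_sub_inv_le_log_of_pos h1
  have h3 : -(s * (1 + 2 * η)) ≤ 1 - (1 - s)⁻¹ := by
    have h4 : (1 - s)⁻¹ ≤ 1 + s * (1 + 2 * η) := by
      rw [inv_le_iff_one_le_mul₀ h1]
      have h5 : s * (1 + 2 * η) ≤ 2 * η := by nlinarith
      have h6 := mul_le_mul_of_nonneg_left h5 hs0
      nlinarith
    linarith
  have h5 : (M : ℝ) * (-(s * (1 + 2 * η))) ≤ M * Real.log (1 - s) :=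
    mul_le_mul_of_nonneg_left (h3.trans h2) (Nat.cast_nonneg _)
  linarith

/-- the main term is large -/
theorem numC (κ Sb η s θ τ ρ : ℝ) (hκ : 0 < κ) (hSb : 0 < Sb) (hη : 0 < η) (hη1 : η ≤ 1 / 2) (hρ : 0 < ρ)
    (hs0 : 0 ≤ s) (hs : s ≤ 1 / 2) (hsη : s ≤ η) (hθ : (1 + 2 * η) * (1 + 2 * η) * κ * Sb * s ≤ θ) (hτ : θ < τ)
    (k J C1 : ℕ) (hJ : 1 ≤ J) :
    ∀ᶠ x : ℕ in atTop, (x : ℝ) ^ (1 - τ) ≤ 2 * ρ * (((x / J) / ⌊κ * Real.log x ^ (k + 1)⌋₊ : ℕ) : ℝ) *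
      ((1 - s) ^ ⌊(1 + 2 * η) * κ * Sb * Real.log x⌋₊ * (1 / 2) ^ C1) := by
  have hJ0 : (0 : ℝ) < J := by exact_mod_cast hJ
  filter_upwards [wn2 κ hκ (k + 1) J hJ (by omega) (1 / 2) (by positivity), log_top.eventually_ge_atTop 1,
    log_pow_le (k + 1) (τ - θ) (4 * J * κ * 2 ^ C1 / (2 * ρ)) (by linarith), eventually_ge_atTop (2 * J)] with x h1 h2 h3 h4
  have hx0 : (0 : ℝ) < x := by exact_mod_cast (by omega : 0 < x)
  set L := Real.log x with hL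
  have hL0 : 0 < L := by linarith
  have hy := half_div J x hJ h4
  set y : ℝ := ((x / J : ℕ) : ℝ) with hyd
  have hM : (⌊(1 + 2 * η) * κ * Sb * L⌋₊ : ℝ) ≤ (1 + 2 * η) * κ * Sb * L := Nat.floor_le (by positivity)
  set M := ⌊(1 + 2 * η) * κ * Sb * L⌋₊ with hMd
  have h5 : Real.exp (-(θ * L)) ≤ (1 - s) ^ M := by
    refine one_sub_pow s M hs0 hs η hsη hη1 (θ * L) ?_
    calc (M : ℝ) * s * (1 + 2 * η) ≤ ((1 + 2 * η) * κ * Sb * L) * s * (1 + 2 * η) := by gcongr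
      _ = ((1 + 2 * η) * (1 + 2 * η) * κ * Sb * s) * L := by ring
      _ ≤ θ * L := by gcongr
  have h6 : Real.exp (-(θ * L)) = (x : ℝ) ^ (-θ) := by
    rw [Real.rpow_def_of_pos hx0]
    congr 1
    ring
  rw [h6] at h5
  have h7 : (x : ℝ) / (4 * J * κ * L ^ (k + 1)) ≤ (((x / J) / ⌊κ * L ^ (k + 1)⌋₊ : ℕ) : ℝ) := by
    refine le_trans ?_ h1.2
    calc (x : ℝ) / (4 * J * κ * L ^ (k + 1)) = (1 - 1 / 2) * ((x / (2 * J)) / (κ * L ^ (k + 1))) := by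
          field_simp
          norm_num
      _ ≤ (1 - 1 / 2) * (y / (κ * L ^ (k + 1))) := by
          have : (x / (2 * J)) / (κ * L ^ (k + 1)) ≤ y / (κ * L ^ (k + 1)) := by gcongr
          linarith
  calc (x : ℝ) ^ (1 - τ) = (x : ℝ) ^ (1 - τ) * 1 := by ring
    _ ≤ (x : ℝ) ^ (1 - τ) * ((x : ℝ) ^ (τ - θ) / (4 * J * κ * 2 ^ C1 / (2 * ρ) * L ^ (k + 1))) := by
        gcongr
        rw [one_le_div (by positivity)]
        exact h3
    _ = 2 * ρ * (x / (4 * J * κ * L ^ (k + 1))) * ((x : ℝ) ^ (-θ) * (1 / 2) ^ C1) := by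
        have e1 : (x : ℝ) ^ (1 - τ) * (x : ℝ) ^ (τ - θ) = x * (x : ℝ) ^ (-θ) := by
          nth_rw 3 [← Real.rpow_one (x : ℝ)]
          rw [← Real.rpow_add hx0, ← Real.rpow_add hx0]
          congr 1
          ring
        have e2 : (1 / 2 : ℝ) ^ C1 = 1 / 2 ^ C1 := by rw [one_div_pow]
        rw [e2]
        calc (x : ℝ) ^ (1 - τ) * ((x : ℝ) ^ (τ - θ) / (4 * J * κ * 2 ^ C1 / (2 * ρ) * L ^ (k + 1))) =
              ((x : ℝ) ^ (1 - τ) * (x : ℝ) ^ (τ - θ)) / (4 * J * κ * 2 ^ C1 / (2 * ρ) * L ^ (k + 1)) := by ring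
          _ = (x * (x : ℝ) ^ (-θ)) / (4 * J * κ * 2 ^ C1 / (2 * ρ) * L ^ (k + 1)) := by rw [e1]
          _ = _ := by
              field_simp
    _ ≤ _ := by gcongr

end Pool.Agent.H559.GP
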