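import Mathlib

set_option autoImplicit false

/-! # Occupancy: products, their first and second order expansions -/

open Finset

namespace Pool.Agent.H559.GP

/-- the product over `B` -/
noncomputable def P0 (G : ℕ → ℝ) (B : Finset ℕ) : ℝ := ∏ n ∈ B, G n

/-- the sum of the products with two factors omitted -/
noncomputable def P2 (G : ℕ → ℝ) (B : Finset ℕ) : ℝ := ∑ i ∈ B, ∑ j ∈ B.erase i, P0 G ((B.erase i).erase j)

/-- the new product after a step with the probabilities `κ` -/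
noncomputable def up (G κ : ℕ → ℝ) (n : ℕ) : ℝ := G n + κ n * (1 - G n)

theorem P0_empty (G : ℕ → ℝ) : P0 G ∅ = 1 := by
  unfold P0
  simp

theorem P0_insert (G : ℕ → ℝ) (B : Finset ℕ) (b : ℕ) (hb : b ∉ B) : P0 G (insert b B) = G b * P0 G B := by
  unfold P0
  rw [prod_insert hb]

theorem P0_nonneg (G : ℕ → ℝ) (B : Finset ℕ) (h : ∀ n ∈ B, 0 ≤ G n) : 0 ≤ P0 G B := prod_nonneg h

theorem P0_mono (G : ℕ → ℝ) (B B' : Finset ℕ) (hB : B' ⊆ B) (h0 : ∀ n ∈ B, 0 ≤ G n) (h1 : ∀ n ∈ B, G n ≤ 1) :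
    P0 G B ≤ P0 G B' := by
  unfold P0
  rw [← prod_sdiff hB]
  have e1 : ∏ n ∈ B \ B', G n ≤ 1 := prod_le_one (fun n hn => h0 n (mem_sdiff.1 hn).1) fun n hn => h1 n (mem_sdiff.1 hn).1
  have e2 : 0 ≤ ∏ n ∈ B', G n := prod_nonneg fun n hn => h0 n (hB hn)
  calc _ ≤ 1 * ∏ n ∈ B', G n := mul_le_mul_of_nonneg_right e1 e2
    _ = _ := one_mul _

theorem P0_erase (G : ℕ → ℝ) (B : Finset ℕ) (b : ℕ) (hb : b ∈ B) : P0 G B = G b * P0 G (B.erase b) := by
  unfold P0
  rw [mul_prod_erase B G hb]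

theorem erase_insert_ne (B : Finset ℕ) (b n : ℕ) (hn : n ∈ B) (hb : b ∉ B) : (insert b B).erase n = insert b (B.erase n) := by
  rw [erase_insert_of_ne]
  rintro rfl
  exact hb hn

section step

variable (G κ : ℕ → ℝ)

theorem up_nonneg (n : ℕ) (h0 : 0 ≤ G n) (h1 : G n ≤ 1) (hκ : 0 ≤ κ n) : 0 ≤ up G κ n := by
  unfold up
  have : 0 ≤ κ n * (1 - G n) := mul_nonneg hκ (by linarith)
  linarith

theorem up_ge (n : ℕ) (h1 : G n ≤ 1) (hκ : 0 ≤ κ n) : G n ≤ up G κ n := by
  unfold up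
  have : 0 ≤ κ n * (1 - G n) := mul_nonneg hκ (by linarith)
  linarith

theorem up_le (n : ℕ) (h1 : G n ≤ 1) (hκ : κ n ≤ 1) : up G κ n ≤ 1 := by
  unfold up
  nlinarith [mul_nonneg (sub_nonneg.2 h1) (sub_nonneg.2 hκ)]

/-- the first order expansion -/
noncomputable def fo (B : Finset ℕ) : ℝ := (1 - ∑ n ∈ B, κ n) * P0 G B + ∑ n ∈ B, κ n * P0 G (B.erase n)

theorem fo_insert (B : Finset ℕ) (b : ℕ) (hb : b ∉ B) :
    fo G κ (insert b B) = G b * fo G κ B + κ b * (1 - G b) * P0 G B := by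
  unfold fo
  rw [sum_insert hb, sum_insert hb, P0_insert G B b hb, erase_insert hb]
  have e : ∑ n ∈ B, κ n * P0 G ((insert b B).erase n) = G b * ∑ n ∈ B, κ n * P0 G (B.erase n) := by
    rw [mul_sum]
    refine sum_congr rfl fun n hn => ?_
    rw [erase_insert_ne B b n hn hb, P0_insert]
    · ring
    · exact fun h => hb (mem_of_mem_erase h)
  rw [e]
  ring

variable {G κ}

theorem fo_le (B : Finset ℕ) (h0 : ∀ n ∈ B, 0 ≤ G n) (h1 : ∀ n ∈ B, G n ≤ 1) (hκ : ∀ n ∈ B, 0 ≤ κ n) :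
    fo G κ B ≤ P0 (up G κ) B ∧ P0 G B ≤ fo G κ B := by
  induction B using Finset.induction_on with
  | empty =>
    unfold fo
    simp [P0_empty]
  | insert b B hb ih =>
    obtain ⟨i1, i2⟩ := ih (fun n hn => h0 n (mem_insert_of_mem hn)) (fun n hn => h1 n (mem_insert_of_mem hn))
      (fun n hn => hκ n (mem_insert_of_mem hn))
    have g0 := h0 b (mem_insert_self _ _)
    have g1 := h1 b (mem_insert_self _ _)
    have k0 := hκ b (mem_insert_self _ _)
    have p0 := P0_nonneg G B fun n hn => h0 n (mem_insert_of_mem hn)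
    rw [fo_insert G κ B b hb, P0_insert _ B b hb, P0_insert _ B b hb]
    have hq : 0 ≤ κ b * (1 - G b) := mul_nonneg k0 (by linarith)
    constructor
    · unfold up
      have e1 : G b * fo G κ B + κ b * (1 - G b) * P0 G B ≤ G b * fo G κ B + κ b * (1 - G b) * fo G κ B := by
        have := mul_le_mul_of_nonneg_left i2 hq
        linarith
      have e2 : (G b + κ b * (1 - G b)) * fo G κ B ≤ (G b + κ b * (1 - G b)) * P0 (up G κ) B :=
        mul_le_mul_of_nonneg_left i1 (by linarith)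
      unfold up at e2
      linarith
    · have e1 := mul_le_mul_of_nonneg_left i2 g0
      have e2 := mul_nonneg hq p0
      linarith

/-- the growth of the product in a step -/
theorem grow (B : Finset ℕ) (K : ℝ) (h0 : ∀ n ∈ B, 0 ≤ G n) (h1 : ∀ n ∈ B, G n ≤ 1) (hκ : ∀ n ∈ B, 0 ≤ κ n)
    (hK : ∀ n ∈ B, κ n ≤ K) : P0 (up G κ) B - P0 G B ≤ K * ∑ n ∈ B, P0 (up G κ) (B.erase n) := by
  induction B using Finset.induction_on with
  | empty => simp [P0_empty]
  | insert b B hb ih =>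
    have ih' := ih (fun n hn => h0 n (mem_insert_of_mem hn)) (fun n hn => h1 n (mem_insert_of_mem hn))
      (fun n hn => hκ n (mem_insert_of_mem hn)) (fun n hn => hK n (mem_insert_of_mem hn))
    have g0 := h0 b (mem_insert_self _ _)
    have g1 := h1 b (mem_insert_self _ _)
    have k0 := hκ b (mem_insert_self _ _)
    have k1 := hK b (mem_insert_self _ _)
    have u0 := up_nonneg G κ b g0 g1 k0
    have u1 := up_ge G κ b g1 k0
    have p1 : 0 ≤ P0 (up G κ) B := P0_nonneg _ B fun n hn =>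
      up_nonneg G κ n (h0 n (mem_insert_of_mem hn)) (h1 n (mem_insert_of_mem hn)) (hκ n (mem_insert_of_mem hn))
    have p0 := P0_nonneg G B fun n hn => h0 n (mem_insert_of_mem hn)
    rw [P0_insert _ B b hb, P0_insert _ B b hb, sum_insert hb, erase_insert hb]
    have e : ∑ n ∈ B, P0 (up G κ) ((insert b B).erase n) = up G κ b * ∑ n ∈ B, P0 (up G κ) (B.erase n) := by
      rw [mul_sum]
      refine sum_congr rfl fun n hn => ?_
      rw [erase_insert_ne B b n hn hb, P0_insert]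
      exact fun h => hb (mem_of_mem_erase h)
    rw [e]
    set S := ∑ n ∈ B, P0 (up G κ) (B.erase n) with hS
    have a1 : up G κ b * P0 (up G κ) B - G b * P0 G B =
        up G κ b * (P0 (up G κ) B - P0 G B) + κ b * (1 - G b) * P0 G B := by
      unfold up
      ring
    rw [a1]
    have a2 : up G κ b * (P0 (up G κ) B - P0 G B) ≤ up G κ b * (K * S) := mul_le_mul_of_nonneg_left ih' u0
    have a3 : κ b * (1 - G b) * P0 G B ≤ K * P0 (up G κ) B := by
      have b1 : P0 G B ≤ P0 (up G κ) B := by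
        unfold P0
        exact prod_le_prod (fun n hn => h0 n (mem_insert_of_mem hn)) fun n hn =>
          up_ge G κ n (h1 n (mem_insert_of_mem hn)) (hκ n (mem_insert_of_mem hn))
      have b2 : κ b * (1 - G b) ≤ K := by nlinarith
      have b3 : 0 ≤ K := k0.trans k1
      calc κ b * (1 - G b) * P0 G B ≤ K * P0 G B := mul_le_mul_of_nonneg_right b2 p0
        _ ≤ K * P0 (up G κ) B := mul_le_mul_of_nonneg_left b1 b3
    nlinarith

theorem P2_insert (G : ℕ → ℝ) (B : Finset ℕ) (b : ℕ) (hb : b ∉ B) :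
    P2 G (insert b B) = 2 * ∑ n ∈ B, P0 G (B.erase n) + G b * P2 G B := by
  unfold P2
  rw [sum_insert hb, erase_insert hb]
  have e : ∑ i ∈ B, ∑ j ∈ (insert b B).erase i, P0 G (((insert b B).erase i).erase j) =
      ∑ i ∈ B, (P0 G (B.erase i) + G b * ∑ j ∈ B.erase i, P0 G ((B.erase i).erase j)) := by
    refine sum_congr rfl fun i hi => ?_
    rw [erase_insert_ne B b i hi hb]
    have hb' : b ∉ B.erase i := fun h => hb (mem_of_mem_erase h)
    rw [sum_insert hb', erase_insert hb', mul_sum]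
    congr 1
    refine sum_congr rfl fun j hj => ?_
    rw [erase_insert_ne _ b j hj hb', P0_insert]
    exact fun h => hb' (mem_of_mem_erase h)
  rw [e, sum_add_distrib, ← mul_sum]
  ring

theorem P2_nonneg (G : ℕ → ℝ) (B : Finset ℕ) (h0 : ∀ n ∈ B, 0 ≤ G n) : 0 ≤ P2 G B := by
  unfold P2
  refine sum_nonneg fun i _ => sum_nonneg fun j _ => P0_nonneg _ _ fun n hn => h0 n ?_
  exact mem_of_mem_erase (mem_of_mem_erase hn)

/-- the second order error of the expansion -/
theorem so (B : Finset ℕ) (K : ℝ) (h0 : ∀ n ∈ B, 0 ≤ G n) (h1 : ∀ n ∈ B, G n ≤ 1) (hκ : ∀ n ∈ B, 0 ≤ κ n)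
    (hK : ∀ n ∈ B, κ n ≤ K) : P0 (up G κ) B - fo G κ B ≤ K ^ 2 * P2 (up G κ) B := by
  induction B using Finset.induction_on with
  | empty =>
    unfold fo P2
    simp [P0_empty]
  | insert b B hb ih =>
    have ih' := ih (fun n hn => h0 n (mem_insert_of_mem hn)) (fun n hn => h1 n (mem_insert_of_mem hn))
      (fun n hn => hκ n (mem_insert_of_mem hn)) (fun n hn => hK n (mem_insert_of_mem hn))
    have hg := grow B K (fun n hn => h0 n (mem_insert_of_mem hn)) (fun n hn => h1 n (mem_insert_of_mem hn))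
      (fun n hn => hκ n (mem_insert_of_mem hn)) (fun n hn => hK n (mem_insert_of_mem hn))
    have g0 := h0 b (mem_insert_self _ _)
    have g1 := h1 b (mem_insert_self _ _)
    have k0 := hκ b (mem_insert_self _ _)
    have k1 := hK b (mem_insert_self _ _)
    have u0 := up_nonneg G κ b g0 g1 k0
    have u1 := up_ge G κ b g1 k0
    have hfo := (fo_le (G := G) (κ := κ) B (fun n hn => h0 n (mem_insert_of_mem hn)) (fun n hn => h1 n (mem_insert_of_mem hn))
      (fun n hn => hκ n (mem_insert_of_mem hn))).1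
    rw [fo_insert G κ B b hb, P0_insert _ B b hb, P2_insert _ B b hb]
    set S := ∑ n ∈ B, P0 (up G κ) (B.erase n) with hS
    have hS0 : 0 ≤ S := sum_nonneg fun n _ => P0_nonneg _ _ fun m hm =>
      up_nonneg G κ m (h0 m (mem_insert_of_mem (mem_of_mem_erase hm))) (h1 m (mem_insert_of_mem (mem_of_mem_erase hm)))
        (hκ m (mem_insert_of_mem (mem_of_mem_erase hm)))
    have K0 : 0 ≤ K := k0.trans k1
    have a1 : up G κ b * P0 (up G κ) B - (G b * fo G κ B + κ b * (1 - G b) * P0 G B) =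
        G b * (P0 (up G κ) B - fo G κ B) + κ b * (1 - G b) * (P0 (up G κ) B - P0 G B) := by
      unfold up
      ring
    rw [a1]
    have hE0 : 0 ≤ P0 (up G κ) B - fo G κ B := by linarith
    have a2 : G b * (P0 (up G κ) B - fo G κ B) ≤ up G κ b * (K ^ 2 * P2 (up G κ) B) :=
      mul_le_mul u1 ih' hE0 u0
    have b2 : κ b * (1 - G b) ≤ K := by nlinarith
    have b0 : 0 ≤ κ b * (1 - G b) := mul_nonneg k0 (by linarith)
    have a3 : κ b * (1 - G b) * (P0 (up G κ) B - P0 G B) ≤ K * (K * S) := by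
      calc κ b * (1 - G b) * (P0 (up G κ) B - P0 G B) ≤ κ b * (1 - G b) * (K * S) :=
            mul_le_mul_of_nonneg_left hg b0
        _ ≤ K * (K * S) := mul_le_mul_of_nonneg_right b2 (mul_nonneg K0 hS0)
    nlinarith [mul_nonneg (mul_nonneg K0 K0) hS0]

/-- the sum of the products with two factors omitted grows at least as in the exact recursion -/
theorem P2_step (B : Finset ℕ) (h0 : ∀ n ∈ B, 0 ≤ G n) (h1 : ∀ n ∈ B, G n ≤ 1) (hκ : ∀ n ∈ B, 0 ≤ κ n) :
    (1 - ∑ n ∈ B, κ n) * P2 G B + ∑ n ∈ B, κ n * P2 G (B.erase n) ≤ P2 (up G κ) B := by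
  have e1 : ∑ n ∈ B, κ n * P2 G (B.erase n) =
      ∑ i ∈ B, ∑ j ∈ B.erase i, ∑ n ∈ (B.erase i).erase j, κ n * P0 G (((B.erase i).erase j).erase n) := by
    unfold P2
    simp only [mul_sum]
    have s1 : ∑ n ∈ B, ∑ i ∈ B.erase n, ∑ j ∈ (B.erase n).erase i, κ n * P0 G (((B.erase n).erase i).erase j) =
        ∑ i ∈ B, ∑ n ∈ B.erase i, ∑ j ∈ (B.erase n).erase i, κ n * P0 G (((B.erase n).erase i).erase j) := by
      refine sum_comm' fun n i => ?_
      simp only [mem_erase]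
      tauto
    rw [s1]
    refine sum_congr rfl fun i _ => ?_
    have s2 : ∑ n ∈ B.erase i, ∑ j ∈ (B.erase n).erase i, κ n * P0 G (((B.erase n).erase i).erase j) =
        ∑ j ∈ B.erase i, ∑ n ∈ (B.erase i).erase j, κ n * P0 G (((B.erase n).erase i).erase j) := by
      refine sum_comm' fun n j => ?_
      simp only [mem_erase]
      tauto
    rw [s2]
    refine sum_congr rfl fun j _ => sum_congr rfl fun n _ => ?_
    congr 2
    ext m
    simp only [mem_erase]
    tauto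
  have e2 : (1 - ∑ n ∈ B, κ n) * P2 G B = ∑ i ∈ B, ∑ j ∈ B.erase i, (1 - ∑ n ∈ B, κ n) * P0 G ((B.erase i).erase j) := by
    unfold P2
    simp only [mul_sum]
  rw [e1, e2, ← sum_add_distrib]
  unfold P2
  refine sum_le_sum fun i _ => ?_
  rw [← sum_add_distrib]
  refine sum_le_sum fun j _ => ?_
  set B' := (B.erase i).erase j with hB'
  have hsub : B' ⊆ B := (erase_subset _ _).trans (erase_subset _ _)
  have h2 := (fo_le (G := G) (κ := κ) B' (fun n hn => h0 n (hsub hn)) (fun n hn => h1 n (hsub hn))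
    (fun n hn => hκ n (hsub hn))).1
  refine le_trans ?_ h2
  unfold fo
  have h3 : ∑ n ∈ B', κ n ≤ ∑ n ∈ B, κ n := sum_le_sum_of_subset_of_nonneg hsub fun n hn _ => hκ n hn
  have h4 := P0_nonneg G B' fun n hn => h0 n (hsub hn)
  nlinarith

end step

/-- `P2` in terms of `P0` -/
theorem P2_le (G : ℕ → ℝ) (B : Finset ℕ) (γ : ℝ) (hγ : 0 < γ) (h : ∀ n ∈ B, γ ≤ G n) :
    P2 G B ≤ (B.card : ℝ) ^ 2 / γ ^ 2 * P0 G B := by
  have hp := P0_nonneg G B fun n hn => hγ.le.trans (h n hn)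
  unfold P2
  have h1 : ∀ i ∈ B, ∀ j ∈ B.erase i, P0 G ((B.erase i).erase j) ≤ P0 G B / γ ^ 2 := by
    intro i hi j hj
    rw [le_div_iff₀ (by positivity)]
    have e1 := P0_erase G B i hi
    have e2 := P0_erase G (B.erase i) j hj
    rw [e1, e2]
    have g1 := h i hi
    have g2 := h j (mem_of_mem_erase hj)
    have p := P0_nonneg G ((B.erase i).erase j) fun n hn => hγ.le.trans (h n (mem_of_mem_erase (mem_of_mem_erase hn)))
    have : γ ^ 2 ≤ G i * G j := by
      rw [sq]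
      exact mul_le_mul g1 g2 hγ.le (hγ.le.trans g1)
    nlinarith
  calc ∑ i ∈ B, ∑ j ∈ B.erase i, P0 G ((B.erase i).erase j) ≤ ∑ i ∈ B, ∑ j ∈ B.erase i, P0 G B / γ ^ 2 :=
        sum_le_sum fun i hi => sum_le_sum fun j hj => h1 i hi j hj
    _ ≤ ∑ i ∈ B, (B.card : ℝ) * (P0 G B / γ ^ 2) := by
        refine sum_le_sum fun i _ => ?_
        rw [sum_const, nsmul_eq_mul]
        have : ((B.erase i).card : ℝ) ≤ B.card := by exact_mod_cast card_erase_le
        exact mul_le_mul_of_nonneg_right this (by positivity)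
    _ = (B.card : ℝ) ^ 2 / γ ^ 2 * P0 G B := by
        rw [sum_const, nsmul_eq_mul]
        ring

end Pool.Agent.H559.GP
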