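import Pool.Agent.H559.HY.Conc
import Pool.Agent.H559.GP.Occ

set_option autoImplicit false

/-! # The probability that all elements of a set are killed -/

open Finset MeasureTheory ProbabilityTheory
open Pool.Agent.T2H32.BF (Model prob)
open Pool.Agent.H559.HY (Ev Ev_insert Ev_meas surv)

namespace Pool.Agent.H559.GP

variable {Ω : Type*} [MeasurableSpace Ω] {P : Measure Ω} {a : ℕ → Ω → ℕ} (kl : ℕ → ℕ → Finset ℕ)

/-- the killing classes modulo `p` of different elements of `B` are disjoint -/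
def Gp (p : ℕ) (B : Finset ℕ) : Prop := ∀ n ∈ B, ∀ n' ∈ B, n ≠ n' → Disjoint (kl p n) (kl p n')

theorem Gp_mono (p : ℕ) (B B' : Finset ℕ) (h : B' ⊆ B) (hB : Gp kl p B) : Gp kl p B' :=
  fun n hn n' hn' => hB n (h hn) n' (h hn')

/-- the probability that `n` is killed by the class modulo `p` -/
noncomputable def kap (p n : ℕ) : ℝ := ((kl p n).card : ℝ) / p

/-- the probability that `n` is killed by `L` -/
noncomputable def Gf (L : Finset ℕ) (n : ℕ) : ℝ := 1 - ∏ p ∈ L, (1 - kap kl p n)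

theorem kap_nonneg (p n : ℕ) : 0 ≤ kap kl p n := by
  unfold kap
  positivity

theorem kap_le_one (p n : ℕ) (h : kl p n ⊆ range p) : kap kl p n ≤ 1 := by
  unfold kap
  refine div_le_one_of_le₀ ?_ (Nat.cast_nonneg _)
  have := card_le_card h
  rw [card_range] at this
  exact_mod_cast this

theorem Gf_insert (L : Finset ℕ) (p : ℕ) (hp : p ∉ L) : Gf kl (insert p L) = up (Gf kl L) (kap kl p) := by
  funext n
  unfold Gf up
  rw [prod_insert hp]
  ring

theorem Gf_mem (L : Finset ℕ) (n : ℕ) (h : ∀ p ∈ L, kl p n ⊆ range p) : 0 ≤ Gf kl L n ∧ Gf kl L n ≤ 1 := by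
  unfold Gf
  have h1 : 0 ≤ ∏ p ∈ L, (1 - kap kl p n) := prod_nonneg fun p hp => by
    have := kap_le_one kl p n (h p hp)
    linarith
  have h2 : ∏ p ∈ L, (1 - kap kl p n) ≤ 1 := prod_le_one (fun p hp => by
    have := kap_le_one kl p n (h p hp)
    linarith) fun p _ => by
    have := kap_nonneg kl p n
    linarith
  constructor <;> linarith

/-- the probability that all elements of `B` are killed -/
noncomputable def Ph (P : Measure Ω) (kl : ℕ → ℕ → Finset ℕ) (a : ℕ → Ω → ℕ) (L B : Finset ℕ) : ℝ := P.real (Ev kl a L B 0)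

variable {kl}

theorem Ph_nonneg (L B : Finset ℕ) : 0 ≤ Ph P kl a L B := measureReal_nonneg

theorem Ph_empty (h : Model P a) (L : Finset ℕ) : Ph P kl a L ∅ = 1 := by
  have := prob h
  unfold Ph Ev
  have e : {ω | (surv kl (fun i => a i ω) L ∅).card = 0} = Set.univ := by
    ext ω
    simp [surv]
  rw [e]
  simp

theorem Ph_base (h : Model P a) (B : Finset ℕ) (hB : B.Nonempty) : Ph P kl a ∅ B = 0 := by
  have := prob h
  unfold Ph Ev
  have e : {ω | (surv kl (fun i => a i ω) ∅ B).card = 0} = ∅ := by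
    ext ω
    simp only [surv, notMem_empty, IsEmpty.forall_iff, implies_true, filter_true, Set.mem_ofPred_eq,
      Set.mem_empty_iff_false, iff_false, card_eq_zero]
    exact hB.ne_empty
  rw [e]
  simp

theorem Ph_step (h : Model P a) (L B : Finset ℕ) (p : ℕ) (hp : p.Prime) (hpL : p ∉ L) :
    Ph P kl a (insert p L) B = (1 / p) * ∑ r ∈ range p, Ph P kl a L (B.filter (fun u => r ∉ kl p u)) :=
  Ev_insert h kl B L 0 p hp hpL

theorem Ph_mono (h : Model P a) (L L' B : Finset ℕ) (hL : L ⊆ L') : Ph P kl a L B ≤ Ph P kl a L' B := by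
  have := prob h
  unfold Ph
  refine measureReal_mono ?_
  intro ω hω
  unfold Ev surv at *
  rw [Set.mem_ofPred_eq, card_eq_zero, filter_eq_empty_iff] at *
  intro v hv hcon
  exact hω hv fun p hp => hcon p (hL hp)

/-- the exact recursion for good primes -/
theorem Ph_good (h : Model P a) (L B : Finset ℕ) (p : ℕ) (hp : p.Prime) (hpL : p ∉ L) (hg : Gp kl p B)
    (hk : ∀ n ∈ B, kl p n ⊆ range p) :
    Ph P kl a (insert p L) B = (1 - ∑ n ∈ B, kap kl p n) * Ph P kl a L B + ∑ n ∈ B, kap kl p n * Ph P kl a L (B.erase n) := by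
  classical
  rw [Ph_step h L B p hp hpL]
  set U := B.biUnion (fun n => kl p n) with hU
  have hUs : U ⊆ range p := biUnion_subset.2 hk
  have hd : (B : Set ℕ).PairwiseDisjoint (fun n => kl p n) := fun n hn n' hn' hne => hg n hn n' hn' hne
  have hp0 : (0 : ℝ) < p := by exact_mod_cast hp.pos
  rw [← sum_sdiff hUs]
  have e1 : ∑ r ∈ range p \ U, Ph P kl a L (B.filter (fun u => r ∉ kl p u)) = ((p : ℝ) - ∑ n ∈ B, ((kl p n).card : ℝ)) * Ph P kl a L B := by
    have : ∀ r ∈ range p \ U, Ph P kl a L (B.filter (fun u => r ∉ kl p u)) = Ph P kl a L B := by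
      intro r hr
      rw [mem_sdiff, hU, mem_biUnion] at hr
      congr 1
      refine filter_true_of_mem fun n hn hc => hr.2 ⟨n, hn, hc⟩
    rw [sum_congr rfl this, sum_const, nsmul_eq_mul]
    congr 1
    rw [cast_card_sdiff hUs, card_range, hU, card_biUnion hd]
    push_cast
    rfl
  have e2 : ∑ r ∈ U, Ph P kl a L (B.filter (fun u => r ∉ kl p u)) = ∑ n ∈ B, ((kl p n).card : ℝ) * Ph P kl a L (B.erase n) := by
    rw [hU, sum_biUnion hd]
    refine sum_congr rfl fun n hn => ?_
    have : ∀ r ∈ kl p n, Ph P kl a L (B.filter (fun u => r ∉ kl p u)) = Ph P kl a L (B.erase n) := by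
      intro r hr
      congr 1
      ext m
      rw [mem_filter, mem_erase]
      constructor
      · rintro ⟨h1, h2⟩
        refine ⟨?_, h1⟩
        rintro rfl
        exact h2 hr
      · rintro ⟨h1, h2⟩
        refine ⟨h2, fun hc => ?_⟩
        exact disjoint_left.1 (hg m h2 n hn h1) hc hr
    rw [sum_congr rfl this, sum_const, nsmul_eq_mul]
  rw [e1, e2]
  unfold kap
  rw [mul_add, mul_sum, ← sum_div]
  congr 1
  · field_simp
  · refine sum_congr rfl fun n _ => ?_
    ring

theorem sum_kap_le (B : Finset ℕ) (p : ℕ) (hp : 0 < p) (hg : Gp kl p B) (hk : ∀ n ∈ B, kl p n ⊆ range p) :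
    ∑ n ∈ B, kap kl p n ≤ 1 := by
  classical
  have hd : (B : Set ℕ).PairwiseDisjoint (fun n => kl p n) := fun n hn n' hn' hne => hg n hn n' hn' hne
  unfold kap
  rw [← sum_div]
  have hp0 : (0 : ℝ) < p := by exact_mod_cast hp
  rw [div_le_one hp0]
  have h1 := card_le_card (biUnion_subset.2 hk : B.biUnion (fun n => kl p n) ⊆ range p)
  rw [card_biUnion hd, card_range] at h1
  exact_mod_cast h1

/-- **Upper bound** (negative dependence). -/
theorem Ph_up (h : Model P a) (L B : Finset ℕ) (hL : ∀ p ∈ L, p.Prime) (hk : ∀ p ∈ L, ∀ n ∈ B, kl p n ⊆ range p)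
    (hg : ∀ p ∈ L, Gp kl p B) : ∀ B' ⊆ B, Ph P kl a L B' ≤ P0 (Gf kl L) B' := by
  induction L using Finset.induction_on with
  | empty =>
    intro B' _
    rcases B'.eq_empty_or_nonempty with rfl | hne
    · rw [Ph_empty h, P0_empty]
    · rw [Ph_base h B' hne]
      refine P0_nonneg _ _ fun n _ => ?_
      simp [Gf]
  | insert p L hpL ih =>
    intro B' hB'
    have ih' := ih (fun q hq => hL q (mem_insert_of_mem hq)) (fun q hq => hk q (mem_insert_of_mem hq))
      (fun q hq => hg q (mem_insert_of_mem hq))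
    have hpp := hL p (mem_insert_self _ _)
    have hgB := Gp_mono kl p B B' hB' (hg p (mem_insert_self _ _))
    have hkB : ∀ n ∈ B', kl p n ⊆ range p := fun n hn => hk p (mem_insert_self _ _) n (hB' hn)
    rw [Ph_good h L B' p hpp hpL hgB hkB, Gf_insert kl L p hpL]
    have hm : ∀ n ∈ B', 0 ≤ Gf kl L n ∧ Gf kl L n ≤ 1 := fun n hn =>
      Gf_mem kl L n fun q hq => hk q (mem_insert_of_mem hq) n (hB' hn)
    refine le_trans ?_ (fo_le (G := Gf kl L) (κ := kap kl p) B' (fun n hn => (hm n hn).1) (fun n hn => (hm n hn).2)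
      fun n _ => kap_nonneg kl p n).1
    unfold fo
    have h1 := sum_kap_le B' p hpp.pos hgB hkB
    refine add_le_add (mul_le_mul_of_nonneg_left (ih' B' hB') (by linarith)) ?_
    exact sum_le_sum fun n _ => mul_le_mul_of_nonneg_left (ih' _ ((erase_subset _ _).trans hB')) (kap_nonneg kl p n)

/-- **Lower bound**. -/
theorem Ph_low (h : Model P a) (L B : Finset ℕ) (hL : ∀ p ∈ L, p.Prime) (hk : ∀ p ∈ L, ∀ n ∈ B, kl p n ⊆ range p)
    (hg : ∀ p ∈ L, Gp kl p B) (K : ℕ → ℝ) (hK : ∀ p ∈ L, ∀ n ∈ B, kap kl p n ≤ K p) :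
    ∀ B' ⊆ B, P0 (Gf kl L) B' - (∑ p ∈ L, K p ^ 2) * P2 (Gf kl L) B' ≤ Ph P kl a L B' := by
  induction L using Finset.induction_on with
  | empty =>
    intro B' _
    rcases B'.eq_empty_or_nonempty with rfl | hne
    · rw [Ph_empty h, P0_empty]
      simp
    · rw [Ph_base h B' hne]
      obtain ⟨b, hb⟩ := hne
      have : P0 (Gf kl ∅) B' = 0 := by
        unfold P0
        refine prod_eq_zero hb ?_
        simp [Gf]
      rw [this]
      simp
  | insert p L hpL ih =>
    intro B' hB'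
    have ih' := ih (fun q hq => hL q (mem_insert_of_mem hq)) (fun q hq => hk q (mem_insert_of_mem hq))
      (fun q hq => hg q (mem_insert_of_mem hq)) (fun q hq => hK q (mem_insert_of_mem hq))
    have hpp := hL p (mem_insert_self _ _)
    have hgB := Gp_mono kl p B B' hB' (hg p (mem_insert_self _ _))
    have hkB : ∀ n ∈ B', kl p n ⊆ range p := fun n hn => hk p (mem_insert_self _ _) n (hB' hn)
    have hKB : ∀ n ∈ B', kap kl p n ≤ K p := fun n hn => hK p (mem_insert_self _ _) n (hB' hn)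
    rw [Ph_good h L B' p hpp hpL hgB hkB, Gf_insert kl L p hpL, sum_insert hpL]
    have hm : ∀ n ∈ B', 0 ≤ Gf kl L n ∧ Gf kl L n ≤ 1 := fun n hn =>
      Gf_mem kl L n fun q hq => hk q (mem_insert_of_mem hq) n (hB' hn)
    have h1 := sum_kap_le B' p hpp.pos hgB hkB
    have hs := so (G := Gf kl L) (κ := kap kl p) B' (K p) (fun n hn => (hm n hn).1) (fun n hn => (hm n hn).2)
      (fun n _ => kap_nonneg kl p n) hKB
    have hp2 := P2_step (G := Gf kl L) (κ := kap kl p) B' (fun n hn => (hm n hn).1) (fun n hn => (hm n hn).2)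
      (fun n _ => kap_nonneg kl p n)
    set e := ∑ q ∈ L, K q ^ 2 with he
    have he0 : 0 ≤ e := sum_nonneg fun q _ => sq_nonneg _
    have h2 : (1 - ∑ n ∈ B', kap kl p n) * (P0 (Gf kl L) B' - e * P2 (Gf kl L) B') ≤
        (1 - ∑ n ∈ B', kap kl p n) * Ph P kl a L B' := mul_le_mul_of_nonneg_left (ih' B' hB') (by linarith)
    have h3 : ∑ n ∈ B', kap kl p n * (P0 (Gf kl L) (B'.erase n) - e * P2 (Gf kl L) (B'.erase n)) ≤
        ∑ n ∈ B', kap kl p n * Ph P kl a L (B'.erase n) := sum_le_sum fun n _ =>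
      mul_le_mul_of_nonneg_left (ih' _ ((erase_subset _ _).trans hB')) (kap_nonneg kl p n)
    have h4 : ∑ n ∈ B', kap kl p n * (P0 (Gf kl L) (B'.erase n) - e * P2 (Gf kl L) (B'.erase n)) =
        ∑ n ∈ B', kap kl p n * P0 (Gf kl L) (B'.erase n) - e * ∑ n ∈ B', kap kl p n * P2 (Gf kl L) (B'.erase n) := by
      rw [mul_sum, ← sum_sub_distrib]
      refine sum_congr rfl fun n _ => ?_
      ring
    have h5 := mul_le_mul_of_nonneg_left hp2 he0
    unfold fo at hs
    rw [h4] at h3
    nlinarith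

/-- the effect of bad primes -/
theorem Ph_bad (h : Model P a) (L L' B : Finset ℕ) (hL : ∀ p ∈ L, p.Prime) (hk : ∀ p ∈ L, ∀ n ∈ B, kl p n ⊆ range p)
    (hg : ∀ p ∈ L, Gp kl p B) (hL' : ∀ p ∈ L', p.Prime) (hd : Disjoint L' L)
    (γ : ℝ) (hγ : 0 < γ) (hγ1 : γ ≤ 1) (hG : ∀ n ∈ B, γ ≤ Gf kl L n) (K0 : ℕ)
    (hK0 : ∀ p ∈ L', ∀ r, (B.filter (fun n => r ∈ kl p n)).card ≤ K0) (c : ℝ) (hc0 : 0 ≤ c)
    (hc : ∀ p ∈ L', (((range p).filter (fun r => ∃ n ∈ B, r ∈ kl p n)).card : ℝ) ≤ c) :
    ∀ B' ⊆ B, Ph P kl a (L' ∪ L) B' ≤ P0 (Gf kl L) B' * ∏ p ∈ L', (1 + c * (1 / γ ^ K0) / p) := by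
  classical
  induction L' using Finset.induction_on with
  | empty =>
    intro B' hB'
    rw [empty_union, prod_empty, mul_one]
    exact Ph_up h L B hL hk hg B' hB'
  | insert p L' hpL ih =>
    intro B' hB'
    rw [disjoint_insert_left] at hd
    have ih' := ih (fun q hq => hL' q (mem_insert_of_mem hq)) hd.2 (fun q hq => hK0 q (mem_insert_of_mem hq))
      (fun q hq => hc q (mem_insert_of_mem hq))
    have hpp := hL' p (mem_insert_self _ _)
    have hp0 : (0 : ℝ) < p := by exact_mod_cast hpp.pos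
    rw [insert_union, Ph_step h (L' ∪ L) B' p hpp (by
      rw [mem_union]
      rintro (h1 | h1)
      · exact hpL h1
      · exact hd.1 h1), prod_insert hpL]
    set F := ∏ q ∈ L', (1 + c * (1 / γ ^ K0) / q) with hF
    have hF0 : 0 ≤ F := prod_nonneg fun q _ => by positivity
    set Q := P0 (Gf kl L) B' with hQ
    have hGB : ∀ n ∈ B', γ ≤ Gf kl L n := fun n hn => hG n (hB' hn)
    have hQ0 : 0 ≤ Q := P0_nonneg _ _ fun n hn => hγ.le.trans (hGB n hn)
    have hG1 : ∀ n ∈ B', Gf kl L n ≤ 1 := fun n hn => (Gf_mem kl L n fun q hq => hk q hq n (hB' hn)).2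
    have hterm : ∀ r ∈ range p, Ph P kl a (L' ∪ L) (B'.filter (fun u => r ∉ kl p u)) ≤
        Q * F + (if (∃ n ∈ B, r ∈ kl p n) then (1 / γ ^ K0) * (Q * F) else 0) := by
      intro r hr
      refine (ih' _ ((filter_subset _ _).trans hB')).trans ?_
      have h1 : P0 (Gf kl L) (B'.filter (fun u => r ∉ kl p u)) ≤ Q + (if (∃ n ∈ B, r ∈ kl p n) then (1 / γ ^ K0) * Q else 0) := by
        split_ifs with hex
        · have h2 : P0 (Gf kl L) (B'.filter (fun u => r ∈ kl p u)) * P0 (Gf kl L) (B'.filter (fun u => r ∉ kl p u)) = Q := by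
            rw [hQ]
            unfold P0
            exact prod_filter_mul_prod_filter_not B' (fun u => r ∈ kl p u) (Gf kl L)
          have h3 : γ ^ K0 ≤ P0 (Gf kl L) (B'.filter (fun u => r ∈ kl p u)) := by
            have h4 : (B'.filter (fun u => r ∈ kl p u)).card ≤ K0 :=
              (card_le_card (filter_subset_filter _ hB')).trans (hK0 p (mem_insert_self _ _) r)
            calc γ ^ K0 ≤ γ ^ (B'.filter (fun u => r ∈ kl p u)).card := pow_le_pow_of_le_one hγ.le hγ1 h4
              _ = ∏ _n ∈ B'.filter (fun u => r ∈ kl p u), γ := by rw [prod_const]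
              _ ≤ _ := prod_le_prod (fun _ _ => hγ.le) fun n hn => hGB n (mem_filter.1 hn).1
          have h5 : 0 ≤ P0 (Gf kl L) (B'.filter (fun u => r ∉ kl p u)) :=
            P0_nonneg _ _ fun n hn => hγ.le.trans (hGB n (mem_filter.1 hn).1)
          have h6 : P0 (Gf kl L) (B'.filter (fun u => r ∉ kl p u)) ≤ 1 / γ ^ K0 * Q := by
            rw [one_div, ← h2, inv_mul_eq_div, le_div_iff₀ (by positivity)]
            nlinarith
          linarith
        · have : B'.filter (fun u => r ∉ kl p u) = B' :=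
            filter_true_of_mem fun n hn hc' => hex ⟨n, hB' hn, hc'⟩
          rw [this, add_zero]
      calc P0 (Gf kl L) (B'.filter (fun u => r ∉ kl p u)) * F ≤
            (Q + (if (∃ n ∈ B, r ∈ kl p n) then (1 / γ ^ K0) * Q else 0)) * F := mul_le_mul_of_nonneg_right h1 hF0
        _ = _ := by
            split_ifs
            · ring
            · ring
    have hsum := sum_le_sum hterm
    rw [sum_add_distrib, sum_const, card_range, nsmul_eq_mul, ← sum_filter, sum_const, nsmul_eq_mul] at hsum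
    have hc' := hc p (mem_insert_self _ _)
    have hinv : 0 ≤ 1 / γ ^ K0 := by positivity
    calc (1 / (p : ℝ)) * ∑ r ∈ range p, Ph P kl a (L' ∪ L) (B'.filter (fun u => r ∉ kl p u))
        ≤ (1 / (p : ℝ)) * (p * (Q * F) + c * ((1 / γ ^ K0) * (Q * F))) := by
          refine mul_le_mul_of_nonneg_left (hsum.trans ?_) (by positivity)
          have := mul_le_mul_of_nonneg_right hc' (mul_nonneg hinv (mul_nonneg hQ0 hF0))
          linarith
      _ = Q * ((1 + c * (1 / γ ^ K0) / p) * F) := by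
          field_simp

end Pool.Agent.H559.GP
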