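import Pool.Agent.H559.GP.Num

set_option autoImplicit false

/-! # The values of a system in a short interval -/

open Finset MeasureTheory ProbabilityTheory Filter Topology Polynomial
open Pool.Agent.T2H32.BF (Model prob V V_pos V_anti V_ratio mertens)
open Pool.Agent.H559.BS (Limit TT TT_le TT_ge TT_top log_TT V_TT log_pow_le log_top g g_pos)
open Pool.Agent.H559.HY (Arr evl cls arr evl_arr Sg Om base base_sub box mem_box Cut not_mem_rts pos fam fam_le fam_deg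
  fam_ne CF CF_eq CF_conv good_arr pow_top log_TT_lim div_lim log_lin growth)
open Pool.Agent.H559.PV (Gd Row GP_comp sys_of not_shift comp_inj)

namespace Pool.Agent.H559.GP

/-- the exponent which bounds the values -/
noncomputable def AF (F : Finset ℤ[X]) : ℕ := ∑ i, (fam F i).natDegree + 1

theorem half_lt (J x m : ℕ) (hJ : 2 ≤ J) (h : x - x / J < m) : 2 * (x / 4) ≤ m ∧ x / 2 ≤ m := by
  have h1 : x / J ≤ x / 2 := Nat.div_le_div_left hJ (by norm_num)
  constructor <;> omega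

theorem vals (F : Finset ℤ[X]) (hF : ∀ f ∈ F, Pool.Agent.H559.PV.GP f) (J : ℕ) (hJ : 2 ≤ J) :
    ∀ᶠ x : ℕ in atTop, ∀ m : ℕ, x - x / J < m → m ≤ x → ∀ i,
      (((x / 4) ^ (fam F i).natDegree : ℕ) : ℤ) ≤ evl (aF F i) m ∧ ((TT (1 / 4) x : ℕ) : ℤ) ≤ evl (aF F i) m ∧
      evl (aF F i) m ≤ ((x ^ AF F : ℕ) : ℤ) := by
  have hs := sys_of F hF
  have hg := hF
  have h1 : ∀ᶠ m : ℕ in atTop, ∀ i : Fin F.card, (m : ℝ) ^ (fam F i).natDegree / 2 ≤ (((fam F i).eval (m : ℤ) : ℤ) : ℝ) ∧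
      (((fam F i).eval (m : ℤ) : ℤ) : ℝ) ≤ 2 * (fam F i).leadingCoeff * (m : ℝ) ^ (fam F i).natDegree :=
    eventually_all.2 fun i => growth (fam F i) (fam_deg F hs i) (hg _ (fam_mem F hg i)).lead
  obtain ⟨m0, hm0⟩ := eventually_atTop.1 h1
  have h2 : ∀ᶠ x : ℕ in atTop, TT (1 / 4) x ≤ x / 4 := by
    filter_upwards [eventually_ge_atTop 1, log_pow_le 0 (3 / 4) 8 (by norm_num), eventually_ge_atTop 8] with x hx h2 h3
    have hx0 : (0 : ℝ) < x := by exact_mod_cast hx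
    have h4 : (8 : ℝ) * (x : ℝ) ^ (1 / 4 : ℝ) ≤ x := by
      rw [pow_zero, mul_one] at h2
      calc (8 : ℝ) * (x : ℝ) ^ (1 / 4 : ℝ) ≤ (x : ℝ) ^ (3 / 4 : ℝ) * (x : ℝ) ^ (1 / 4 : ℝ) := by gcongr
        _ = x := by
            rw [← Real.rpow_add hx0]
            norm_num
    have h5 := TT_le (1 / 4) x
    have h6 : (8 : ℝ) * (TT (1 / 4) x : ℝ) ≤ x := by linarith
    have h7 : 8 * TT (1 / 4) x ≤ x := by exact_mod_cast h6
    omega
  filter_upwards [h2, eventually_ge_atTop (4 * m0 + 8), eventually_ge_atTop (∑ i, 2 * (fam F i).leadingCoeff.natAbs)] with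
    x h3 h4 h5 m hm1 hm2 i
  obtain ⟨h6, h7⟩ := half_lt J x m hJ hm1
  have hm : m0 ≤ m := by omega
  obtain ⟨h8, h9⟩ := hm0 m hm i
  rw [evl_aF]
  have hd := fam_deg F hs i
  have hlc := (hg _ (fam_mem F hg i)).lead
  set d := (fam F i).natDegree with hdd
  have e1 : (((x / 4) ^ d : ℕ) : ℤ) ≤ (fam F i).eval (m : ℤ) := by
    have h10 : (((x / 4) ^ d : ℕ) : ℝ) ≤ (((fam F i).eval (m : ℤ) : ℤ) : ℝ) := by
      refine le_trans ?_ h8
      rw [le_div_iff₀ (by norm_num)]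
      have h11 : (x / 4) ^ d * 2 ≤ m ^ d := by
        calc (x / 4) ^ d * 2 ≤ (x / 4) ^ d * 2 ^ d := Nat.mul_le_mul_left _ (by
              calc 2 = 2 ^ 1 := by norm_num
                _ ≤ 2 ^ d := Nat.pow_le_pow_right (by norm_num) hd)
          _ = (2 * (x / 4)) ^ d := by rw [mul_pow]; ring
          _ ≤ m ^ d := Nat.pow_le_pow_left h6 d
      exact_mod_cast h11
    have h12 : (((((x / 4) ^ d : ℕ) : ℤ)) : ℝ) ≤ (((fam F i).eval (m : ℤ) : ℤ) : ℝ) := by
      rw [Int.cast_natCast]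
      exact h10
    exact Int.cast_le.1 h12
  refine ⟨e1, ?_, ?_⟩
  · refine le_trans ?_ e1
    exact_mod_cast h3.trans (Nat.le_self_pow (by omega) _)
  · have hcast : ((fam F i).leadingCoeff : ℝ) = ((fam F i).leadingCoeff.natAbs : ℝ) := by
      rw [Nat.cast_natAbs, abs_of_pos hlc]
    have h10 : (((fam F i).eval (m : ℤ) : ℤ) : ℝ) ≤ ((x ^ AF F : ℕ) : ℝ) := by
      refine h9.trans ?_
      rw [hcast]
      have h11 : 2 * (fam F i).leadingCoeff.natAbs ≤ ∑ i, 2 * (fam F i).leadingCoeff.natAbs :=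
        single_le_sum (f := fun i => 2 * (fam F i).leadingCoeff.natAbs) (fun _ _ => Nat.zero_le _) (mem_univ i)
      have h12 : 2 * (fam F i).leadingCoeff.natAbs * m ^ d ≤ x ^ AF F := by
        calc 2 * (fam F i).leadingCoeff.natAbs * m ^ d ≤ x * x ^ d :=
              Nat.mul_le_mul (h11.trans h5) (Nat.pow_le_pow_left hm2 d)
          _ = x ^ (d + 1) := by ring
          _ ≤ x ^ AF F := Nat.pow_le_pow_right (by omega) (by
              unfold AF
              have := fam_le F i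
              omega)
      exact_mod_cast h12
    exact_mod_cast h10

theorem dif_ev (F : Finset ℤ[X]) (hF : ∀ f ∈ F, Pool.Agent.H559.PV.GP f) :
    ∀ᶠ m : ℕ in atTop, ∀ i i', i ≠ i' → evl (aF F i) m ≠ evl (aF F i') m := by
  refine eventually_all.2 fun i => eventually_all.2 fun i' => ?_
  by_cases hi : i = i'
  · exact Eventually.of_forall fun _ h => absurd hi h
  · have hs := sys_of F hF
    set q := fam F i - fam F i' with hq
    have hq0 : q ≠ 0 := sub_ne_zero.2 (fam_ne F hs i i' hi).1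
    have h1 : ((fun m : ℕ => (m : ℤ)) ⁻¹' {r : ℤ | q.IsRoot r}).Finite :=
      (Polynomial.finite_setOfPred_isRoot hq0).preimage (Nat.cast_injective.injOn)
    obtain ⟨mt, hmt⟩ := h1.bddAbove
    filter_upwards [eventually_gt_atTop mt] with m hm _ heq
    rw [evl_aF, evl_aF] at heq
    have h2 : m ∈ (fun m : ℕ => (m : ℤ)) ⁻¹' {r : ℤ | q.IsRoot r} := by
      show q.eval (m : ℤ) = 0
      rw [hq, eval_sub, heq, sub_self]
    have := hmt h2
    omega

theorem inj_ev (F : Finset ℤ[X]) (hF : ∀ f ∈ F, Pool.Agent.H559.PV.GP f) (i : Fin F.card) :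
    ∃ m0 : ℕ, ∀ m m' : ℕ, m0 ≤ m → m0 ≤ m' → m ≠ m' → evl (aF F i) m ≠ evl (aF F i) m' := by
  have hg := hF _ (fam_mem F hF i)
  obtain ⟨m0, h⟩ := ev_step (fam F i) hg.deg hg.lead
  refine ⟨m0, fun m m' h1 h2 hne => ?_⟩
  rw [evl_aF, evl_aF]
  rcases lt_or_gt_of_ne hne with h3 | h3
  · exact (h m m' h1 h3).ne
  · exact (h m' m h2 h3).ne'

/-- the density at a value -/
theorem V_val (F : Finset ℤ[X]) (hF : ∀ f ∈ F, Pool.Agent.H559.PV.GP f) (z : ℕ → ℕ) (hz : Limit z) (J : ℕ) (hJ : 2 ≤ J) :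
    ∀ᶠ x : ℕ in atTop, ∀ m : ℕ, x - x / J < m → m ≤ x → ∀ i,
      V (z (evl (aF F i) m).toNat) ≤ V (z ((x / 4) ^ (fam F i).natDegree)) := by
  filter_upwards [vals F hF J hJ] with x hx m h1 h2 i
  have h3 := (hx m h1 h2 i).1
  exact V_anti (hz.1 (by omega))

theorem V_val_lim (F : Finset ℤ[X]) (hF : ∀ f ∈ F, Pool.Agent.H559.PV.GP f) (z : ℕ → ℕ) (hz : Limit z) (i : Fin F.card) :
    Tendsto (fun x : ℕ => V (z ((x / 4) ^ (fam F i).natDegree)) * Real.log x) atTop (𝓝 (1 / (fam F i).natDegree)) :=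
  log_lin _ _ (fam_deg F (sys_of F hF) i) z hz (div_lim 4 (by norm_num)).1 (div_lim 4 (by norm_num)).2

/-- the limit of the probability of the ordinary elements -/
theorem ord_lim (F : Finset ℤ[X]) (hF : ∀ f ∈ F, Pool.Agent.H559.PV.GP f) (z : ℕ → ℕ) (hz : Limit z) (δ cc : ℝ)
    (hδ : 0 < δ) :
    Tendsto (fun x : ℕ => Real.exp (cc / TT δ x) * ((∏ i, V (z ((x / 4) ^ (fam F i).natDegree))) / V (TT δ x) ^ F.card))
      atTop (𝓝 ((∏ i, (1 / ((fam F i).natDegree : ℝ))) / (g / δ) ^ F.card)) := by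
  have hg := g_pos
  have h1 : Tendsto (fun x : ℕ => Real.exp (cc / TT δ x)) atTop (𝓝 1) := by
    have h2 : Tendsto (fun x : ℕ => cc / ((TT δ x : ℕ) : ℝ)) atTop (𝓝 0) :=
      tendsto_const_nhds.div_atTop (tendsto_natCast_atTop_atTop.comp (TT_top δ hδ))
    have := (Real.continuous_exp.tendsto 0).comp h2
    rwa [Real.exp_zero] at this
  have h2 : Tendsto (fun x : ℕ => ∏ i, (V (z ((x / 4) ^ (fam F i).natDegree)) * Real.log x)) atTop
      (𝓝 (∏ i, (1 / ((fam F i).natDegree : ℝ)))) := tendsto_finsetProd _ fun i _ => V_val_lim F hF z hz i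
  have h3 := (V_TT_lim δ hδ).pow F.card
  have h4 := h1.mul (h2.div h3 (by positivity))
  rw [one_mul] at h4
  refine h4.congr' ?_
  filter_upwards [log_top.eventually_ge_atTop 1] with x hx
  simp only [Pi.div_apply]
  rw [prod_mul_distrib, prod_const, card_univ, Fintype.card_fin, mul_pow]
  have : 0 < Real.log x ^ F.card := pow_pos (by linarith) _
  have := V_pos (TT δ x)
  field_simp

/-- **the data of the windows** -/
theorem wd_ev (F : Finset ℤ[X]) (hF : ∀ f ∈ F, Pool.Agent.H559.PV.GP f) (z : ℕ → ℕ) (hz : Limit z) (J : ℕ) (hJ : 2 ≤ J)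
    (i0 : Fin F.card) (δ : ℝ) (hδ : 0 < δ) (hδg : 16 * δ ≤ g * (1 / 4)) (c0 : ℕ) (hc0 : (AF F : ℝ) + 1 ≤ δ * (c0 + 1))
    (ℓ M : ℕ → ℕ) (hℓ : ∀ᶠ x : ℕ in atTop, ℓ x ≤ TT δ x) (s : ℝ)
    (hs : (∏ i, (1 / ((fam F i).natDegree : ℝ))) / (g / δ) ^ F.card < s) (hs1 : s ≤ 1 / 2) :
    ∀ᶠ x : ℕ in atTop, Wd (aF F) z i0 (TT δ x) (z (x ^ AF F)) (x - x / J) (x / J) (ℓ x) (M x) c0 (TT (1 / 4) x) (x ^ AF F) s := by
  have hg := g_pos
  obtain ⟨P0, hP0⟩ := aF_good F hF
  obtain ⟨m1, hm1⟩ := eventually_atTop.1 (dif_ev F hF)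
  obtain ⟨m2, hm2⟩ := inj_ev F hF i0
  have hd1 := fam_deg F (sys_of F hF) i0
  have f10 : ∀ᶠ x : ℕ in atTop, TT δ x ≤ z (TT (1 / 4) x) := by
    filter_upwards [V_TT δ hδ, Pool.Agent.H559.HY.z_TT z hz (1 / 4) (by norm_num), log_top.eventually_ge_atTop 1] with
      n h1 h2 h3
    by_contra hcon
    rw [not_le] at hcon
    have h4 : V (TT δ n) ≤ V (z (TT (1 / 4) n)) := V_anti hcon.le
    have h5 : 4 / (1 / 4) < g / (2 * δ) := by
      rw [div_lt_div_iff₀ (by norm_num) (by positivity)]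
      linarith
    have h6 := mul_le_mul_of_nonneg_right h4 (show 0 ≤ Real.log n by linarith)
    linarith [h1.2]
  have f11 : ∀ᶠ x : ℕ in atTop, x ^ AF F < TT δ x ^ (c0 + 1) := by
    filter_upwards [TT_ge δ hδ, eventually_gt_atTop (2 ^ (c0 + 1)), eventually_ge_atTop 1] with x h1 h2 h3
    have hx0 : (0 : ℝ) < x := by exact_mod_cast h3
    have hx1 : (1 : ℝ) ≤ x := by exact_mod_cast h3
    have h4 : ((x : ℝ) ^ δ / 2) ^ (c0 + 1) ≤ (TT δ x : ℝ) ^ (c0 + 1) := pow_le_pow_left₀ (by positivity) h1.1 _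
    have h5 : (x : ℝ) ^ AF F < ((x : ℝ) ^ δ / 2) ^ (c0 + 1) := by
      rw [div_pow, lt_div_iff₀ (by positivity), ← Real.rpow_natCast ((x : ℝ) ^ δ), ← Real.rpow_mul hx0.le]
      have h6 : (x : ℝ) ^ ((AF F : ℝ) + 1) ≤ (x : ℝ) ^ (δ * ((c0 + 1 : ℕ) : ℝ)) :=
        Real.rpow_le_rpow_of_exponent_le hx1 (by push_cast; exact hc0)
      refine lt_of_lt_of_le ?_ h6
      rw [Real.rpow_add hx0, Real.rpow_natCast, Real.rpow_one]
      have h7 : (2 : ℝ) ^ (c0 + 1) < x := by exact_mod_cast h2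
      gcongr
    exact_mod_cast h5.trans_le h4
  have f12 := (V_val_lim F hF z hz i0).div (V_TT_lim δ hδ) (by positivity)
  have f13 : (1 / ((fam F i0).natDegree : ℝ)) / (g / δ) < 1 / 2 := by
    have h1 : (1 : ℝ) ≤ (fam F i0).natDegree := by exact_mod_cast hd1
    have h2 : (1 / ((fam F i0).natDegree : ℝ)) ≤ 1 := by
      rw [div_le_one (by linarith)]
      exact h1
    rw [div_lt_iff₀ (by positivity)]
    have h3 : 1 < 1 / 2 * (g / δ) := by
      rw [mul_div_assoc', lt_div_iff₀ hδ]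
      linarith
    linarith
  filter_upwards [vals F hF J hJ, V_val F hF z hz J hJ, f10, f11, hℓ, TT_ge δ hδ, (TT_top δ hδ).eventually_ge_atTop P0,
    (ord_lim F hF z hz δ (F.card ^ 3 * c0 + 2 * F.card) hδ).eventually_lt_const hs, f12.eventually_lt_const f13,
    eventually_ge_atTop (2 * (m1 + m2 + 1)), log_top.eventually_ge_atTop 1] with x a1 a2 a3 a4 a5 a6 a7 a8 a9 a10 a11
  have e : x - x / J + x / J = x := Nat.sub_add_cancel (Nat.div_le_self _ _)
  have hL0 : 0 < Real.log x := by linarith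
  refine ⟨a6.2, fun p hp hT => hP0 p hp (by omega), ?_, a3, le_rfl, ?_, ?_, a4, a5, ?_, hs1, ?_, ?_⟩
  · intro m hm i
    rw [e, mem_Ioc] at hm
    exact (a1 m hm.1 hm.2 i).2
  · intro m hm m' hm' hne
    rw [e, mem_Ioc] at hm hm'
    have h1 := (half_lt J x m hJ hm.1).2
    have h2 := (half_lt J x m' hJ hm'.1).2
    exact hm2 m m' (by omega) (by omega) hne
  · intro m hm i i' hi
    rw [e, mem_Ioc] at hm
    have h1 := (half_lt J x m hJ hm.1).2
    exact hm1 m (by omega) i i' hi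
  · refine le_trans ?_ hs.le
    exact div_nonneg (prod_nonneg fun i _ => by positivity) (by positivity)
  · intro m hm
    rw [e, mem_Ioc] at hm
    refine le_trans ?_ a8.le
    refine mul_le_mul_of_nonneg_left ?_ (Real.exp_pos _).le
    refine div_le_div_of_nonneg_right ?_ (pow_nonneg (V_pos _).le _)
    exact prod_le_prod (fun i _ => (V_pos _).le) fun i _ => a2 m hm.1 hm.2 i
  · intro m hm
    rw [e, mem_Ioc] at hm
    have h1 := a2 m hm.1 hm.2 i0
    have h2 : V (z (evl (aF F i0) m).toNat) / V (TT δ x) ≤ V (z ((x / 4) ^ (fam F i0).natDegree)) / V (TT δ x) :=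
      div_le_div_of_nonneg_right h1 (V_pos _).le
    refine h2.trans ?_
    simp only [Pi.div_apply] at a9
    rw [mul_div_mul_right _ _ hL0.ne'] at a9
    exact a9.le

end Pool.Agent.H559.GP
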